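import Mathlib

set_option autoImplicit false

/-!
# Immediate extensions: conjugates of different values
-/

namespace Pool.Agent.V7H55.ET

section sym

variable {ι K Γ : Type} [DecidableEq ι] [Field K] [LinearOrderedCommGroupWithZero Γ]
  {v : Valuation K Γ} {z : ι → K}

lemma val_prod_lt (hz : ∀ i, z i ≠ 0) {S : Finset ι}
    (hS : ∀ i ∈ S, ∀ j, j ∉ S → v (z j) < v (z i)) (n : ℕ) :
    ∀ t : Finset ι, (t \ S).card = n → t.card = S.card → t ≠ S →
      v (∏ i ∈ t, z i) < v (∏ i ∈ S, z i) := by
  induction n with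
  | zero =>
    intro t hn hc hne
    exfalso
    rw [Finset.card_eq_zero, Finset.sdiff_eq_empty_iff_subset] at hn
    exact hne (Finset.eq_of_subset_of_card_le hn hc.ge)
  | succ n ih =>
    intro t hn hc hne
    obtain ⟨j, hj⟩ : (t \ S).Nonempty := by
      rw [← Finset.card_pos]
      omega
    have hcard : (S \ t).card = (t \ S).card := by
      have h1 := Finset.card_sdiff_add_card_inter t S
      have h2 := Finset.card_sdiff_add_card_inter S t
      rw [Finset.inter_comm] at h2
      omega
    obtain ⟨i, hi⟩ : (S \ t).Nonempty := by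
      rw [← Finset.card_pos]
      omega
    rw [Finset.mem_sdiff] at hi hj
    set t' := insert i (t.erase j) with ht'
    have hi' : i ∉ t.erase j := fun h => hi.2 (Finset.mem_of_mem_erase h)
    have h1 : v (∏ i ∈ t, z i) < v (∏ i ∈ t', z i) := by
      rw [ht', Finset.prod_insert hi', ← Finset.mul_prod_erase t z hj.1, map_mul, map_mul]
      refine mul_lt_mul_of_pos_right (hS i hi.1 j hj.2) ?_
      rw [zero_lt_iff, Valuation.ne_zero_iff, Finset.prod_ne_zero_iff]
      exact fun a _ => hz a
    by_cases h2 : t' = S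
    · rw [← h2]
      exact h1
    · refine h1.trans (ih t' ?_ ?_ h2)
      · have : t' \ S = (t \ S).erase j := by
          ext a
          simp only [ht', Finset.mem_sdiff, Finset.mem_insert, Finset.mem_erase]
          constructor
          · rintro ⟨rfl | ⟨h3, h4⟩, h5⟩
            · exact absurd hi.1 h5
            · exact ⟨h3, h4, h5⟩
          · rintro ⟨h3, h4, h5⟩
            exact ⟨Or.inr ⟨h3, h4⟩, h5⟩
        rw [this, Finset.card_erase_of_mem (Finset.mem_sdiff.2 hj), hn]
        rfl
      · rw [ht', Finset.card_insert_of_notMem hi', Finset.card_erase_of_mem hj.1,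
          Nat.sub_add_cancel (Finset.card_pos.2 ⟨j, hj.1⟩), hc]

/-- elementary symmetric functions -/
def es [Fintype ι] (z : ι → K) (m : ℕ) : K := ∑ t ∈ Finset.univ.powersetCard m, ∏ i ∈ t, z i

lemma val_es [Fintype ι] (hz : ∀ i, z i ≠ 0) {S : Finset ι}
    (hS : ∀ i ∈ S, ∀ j, j ∉ S → v (z j) < v (z i)) :
    v (es z S.card - ∏ i ∈ S, z i) < v (∏ i ∈ S, z i) := by
  unfold es
  have hmem : S ∈ (Finset.univ : Finset ι).powersetCard S.card := by
    rw [Finset.mem_powersetCard]
    exact ⟨Finset.subset_univ _, rfl⟩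
  rw [← Finset.add_sum_erase _ _ hmem, add_sub_cancel_left]
  refine Valuation.map_sum_lt v ?_ ?_
  · rw [Valuation.ne_zero_iff, Finset.prod_ne_zero_iff]
    exact fun a _ => hz a
  · intro t ht
    rw [Finset.mem_erase, Finset.mem_powersetCard] at ht
    exact val_prod_lt hz hS _ t rfl ht.2.2 ht.1

/-- a conjugate of a value different from those of the others is approximated by a quotient of
elementary symmetric functions -/
lemma exists_quot_es [Fintype ι] (hz : ∀ i, z i ≠ 0) (i₀ : ι)
    (hne : ∀ j, j ≠ i₀ → v (z j) ≠ v (z i₀)) :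
    ∃ m : ℕ, es z m ≠ 0 ∧ es z (m + 1) ≠ 0 ∧ v (z i₀ / (es z (m + 1) / es z m) - 1) < 1 := by
  classical
  set S : Finset ι := Finset.univ.filter fun j => v (z i₀) < v (z j) with hSdef
  have hi₀ : i₀ ∉ S := by
    rw [hSdef, Finset.mem_filter]
    exact fun h => lt_irrefl _ h.2
  have hS : ∀ i ∈ S, ∀ j, j ∉ S → v (z j) < v (z i) := by
    intro i hi j hj
    rw [hSdef, Finset.mem_filter] at hi hj
    have h1 : v (z j) ≤ v (z i₀) := by
      by_contra hc
      exact hj ⟨Finset.mem_univ _, not_le.1 hc⟩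
    exact lt_of_le_of_lt h1 hi.2
  have hS' : ∀ i ∈ insert i₀ S, ∀ j, j ∉ insert i₀ S → v (z j) < v (z i) := by
    intro i hi j hj
    rw [Finset.mem_insert, not_or] at hj
    have h1 : v (z j) < v (z i₀) := by
      rcases lt_trichotomy (v (z j)) (v (z i₀)) with h | h | h
      · exact h
      · exact absurd h (hne j hj.1)
      · exact absurd (by rw [hSdef, Finset.mem_filter]; exact ⟨Finset.mem_univ _, h⟩) hj.2
    rcases Finset.mem_insert.1 hi with rfl | hi
    · exact h1
    · exact h1.trans (by rw [hSdef, Finset.mem_filter] at hi; exact hi.2)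
  have h1 := val_es hz hS
  have h2 := val_es hz hS'
  rw [Finset.card_insert_of_notMem hi₀, Finset.prod_insert hi₀] at h2
  have hP : (∏ i ∈ S, z i) ≠ 0 := Finset.prod_ne_zero_iff.2 fun a _ => hz a
  set P := ∏ i ∈ S, z i with hPdef
  have key : ∀ {e Q : K}, Q ≠ 0 → v (e - Q) < v Q → e ≠ 0 ∧ v (e / Q - 1) < 1 := by
    intro e Q hQ h
    refine ⟨?_, ?_⟩
    · rintro rfl
      rw [zero_sub, Valuation.map_neg] at h
      exact lt_irrefl _ h
    · have h3 : e / Q - 1 = (e - Q) / Q := by field_simp
      rw [h3, map_div₀]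
      exact (div_lt_one₀ (zero_lt_iff.2 ((Valuation.ne_zero_iff _).2 hQ))).2 h
  obtain ⟨a1, a2⟩ := key hP h1
  obtain ⟨b1, b2⟩ := key (mul_ne_zero (hz i₀) hP) h2
  refine ⟨S.card, a1, b1, ?_⟩
  -- `z / (e' / e) = (e / P) / (e' / (z P))`
  have e1 : z i₀ / (es z (S.card + 1) / es z S.card) - 1 =
      ((es z S.card / P - 1) - (es z (S.card + 1) / (z i₀ * P) - 1)) /
        (es z (S.card + 1) / (z i₀ * P)) := by
    have := hz i₀
    field_simp
    ring
  have e2 : v (es z (S.card + 1) / (z i₀ * P)) = 1 := by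
    have h3 : v (1 + (es z (S.card + 1) / (z i₀ * P) - 1)) = v (1 : K) :=
      Valuation.map_add_eq_of_lt_left _ (by rw [map_one]; exact b2)
    rwa [add_sub_cancel, map_one] at h3
  rw [e1, map_div₀, e2, div_one]
  exact lt_of_le_of_lt (Valuation.map_sub _ _ _) (max_lt a2 b2)

end sym

section step

variable {E L : Type} [Field E] [Field L] [Algebra E L]

lemma es_fixed [FiniteDimensional E L] [IsGalois E L] [DecidableEq (L ≃ₐ[E] L)] (z : L) (m : ℕ) :
    ∃ e : E, algebraMap E L e = es (fun g : L ≃ₐ[E] L => g z) m := by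
  have h : es (fun g : L ≃ₐ[E] L => g z) m ∈ Set.range (algebraMap E L) := by
    rw [IsGalois.mem_range_algebraMap_iff_fixed]
    intro f
    unfold es
    rw [map_sum]
    refine Finset.sum_equiv (Equiv.finsetCongr (Equiv.mulLeft f)) ?_ ?_
    · intro t
      simp only [Finset.mem_powersetCard, Finset.subset_univ, true_and, Equiv.finsetCongr_apply,
        Finset.card_map]
    · intro t _
      rw [map_prod, Equiv.finsetCongr_apply, Finset.prod_map]
      rfl
  exact h

/-- **The step.** -/
theorem step {p : ℕ} (hp : p.Prime) [FiniteDimensional E L] [IsGalois E L]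
    {W : ValuationSubring L} (hpW : W.valuation (p : L) = 1) {α : L}
    (hα : W.valuation (α - 1) < 1) {a : E} (ha : α ^ p = algebraMap E L a)
    (hgen : ∀ g : L ≃ₐ[E] L, g α = α → g = 1) {x : L} (hx : x ≠ 0) :
    ∃ e : E, e ≠ 0 ∧ W.valuation (x / algebraMap E L e - 1) < 1 := by
  classical
  set v := W.valuation with hv
  have hp0 : (p : L) ≠ 0 := by
    intro h
    rw [h, map_zero] at hpW
    exact zero_ne_one hpW
  have hα1 : v α = 1 := by
    have h3 : v (1 + (α - 1)) = v (1 : L) :=
      Valuation.map_add_eq_of_lt_left _ (by rw [map_one]; exact hα)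
    rwa [add_sub_cancel, map_one] at h3
  have hα0 : α ≠ 0 := by
    rintro rfl
    rw [map_zero] at hα1
    exact zero_ne_one hα1
  have hpow : ∀ i : ℕ, v (α ^ i - 1) < 1 := by
    intro i
    induction i with
    | zero => rw [pow_zero, sub_self, map_zero]; exact zero_lt_one
    | succ i ih =>
      have e : α ^ (i + 1) - 1 = α * (α ^ i - 1) + (α - 1) := by ring
      rw [e]
      refine lt_of_le_of_lt (Valuation.map_add _ _ _) (max_lt ?_ hα)
      rw [map_mul, hα1, one_mul]
      exact ih
  set ε : L := (∑ i ∈ Finset.range p, α ^ i) / p with hε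
  have hε1 : v (ε - 1) < 1 := by
    have e : ε - 1 = (∑ i ∈ Finset.range p, (α ^ i - 1)) / p := by
      rw [hε, Finset.sum_sub_distrib, Finset.sum_const, Finset.card_range, nsmul_eq_mul, mul_one]
      field_simp
    rw [e, map_div₀, hpW, div_one]
    exact Valuation.map_sum_lt v one_ne_zero fun i _ => hpow i
  have hvε : v ε = 1 := by
    have h3 : v (1 + (ε - 1)) = v (1 : L) :=
      Valuation.map_add_eq_of_lt_left _ (by rw [map_one]; exact hε1)
    rwa [add_sub_cancel, map_one] at h3
  have hε0 : ε ≠ 0 := by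
    intro h
    rw [h, map_zero] at hvε
    exact zero_ne_one hvε
  have hgε : ∀ g : L ≃ₐ[E] L, g ≠ 1 → v (g ε) < 1 := by
    intro g hg
    set ξ : L := g α / α with hξ
    have h1 : g α = ξ * α := by rw [hξ, div_mul_cancel₀ _ hα0]
    have h2 : ξ ≠ 1 := by
      intro h
      apply hg
      apply hgen
      rw [h1, h, one_mul]
    have h3 : ξ ^ p = 1 := by
      rw [hξ, div_pow, ← map_pow, ha, AlgEquiv.commutes, ← ha, div_self (pow_ne_zero _ hα0)]
    have h4 : ∑ i ∈ Finset.range p, ξ ^ i = 0 := by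
      have h5 := geom_sum_mul ξ p
      rw [h3, sub_self, mul_eq_zero] at h5
      exact h5.resolve_right (sub_ne_zero.2 h2)
    have hvξ : v ξ = 1 := by
      have h5 : v ξ ^ p = 1 := by rw [← map_pow, h3, map_one]
      exact (pow_eq_one_iff_of_nonneg zero_le hp.ne_zero).1 h5
    have e : g ε = (∑ i ∈ Finset.range p, ξ ^ i * (α ^ i - 1)) / p := by
      rw [hε, map_div₀, map_sum, map_natCast]
      congr 1
      have h6 : ∑ i ∈ Finset.range p, ξ ^ i * (α ^ i - 1) =
          ∑ i ∈ Finset.range p, g (α ^ i) - ∑ i ∈ Finset.range p, ξ ^ i := by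
        rw [← Finset.sum_sub_distrib]
        refine Finset.sum_congr rfl fun i _ => ?_
        rw [map_pow, h1, mul_pow]
        ring
      rw [h6, h4, sub_zero]
    rw [e, map_div₀, hpW, div_one]
    refine Valuation.map_sum_lt v one_ne_zero fun i _ => ?_
    rw [map_mul, map_pow, hvξ, one_pow, one_mul]
    exact hpow i
  -- the exponent
  obtain ⟨k, hk⟩ : ∃ k : ℕ, ∀ g : L ≃ₐ[E] L, g ≠ 1 → v (g x) * v (g ε) ^ k ≠ v x := by
    by_contra hc
    push Not at hc
    choose g hg1 hg2 using hc
    obtain ⟨k, l, hkl, h1⟩ := Finite.exists_ne_map_eq_of_infinite g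
    have hne : ∀ k l : ℕ, k < l → g k = g l → False := by
      intro k l hkl h1
      have h2 := hg2 k
      have h3 := hg2 l
      rw [← h1, ← h2] at h3
      have h4 : v (g k x) ≠ 0 := by
        rw [Valuation.ne_zero_iff]
        exact (map_ne_zero _).2 hx
      have h5 := mul_left_cancel₀ h4 h3
      have h6 : 0 < v (g k ε) := by
        rw [zero_lt_iff, Valuation.ne_zero_iff]
        exact (map_ne_zero _).2 hε0
      exact (pow_lt_pow_right_of_lt_one₀ h6 (hgε _ (hg1 k)) hkl).ne h5
    rcases lt_or_gt_of_ne hkl with h | h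
    · exact hne k l h h1
    · exact hne l k h h1.symm
  set y : L := x * ε ^ k with hy
  have hy0 : y ≠ 0 := mul_ne_zero hx (pow_ne_zero _ hε0)
  have hvy : v y = v x := by rw [hy, map_mul, map_pow, hvε, one_pow, mul_one]
  obtain ⟨m, h1, h2, h3⟩ := exists_quot_es (v := v) (z := fun g : L ≃ₐ[E] L => g y)
    (fun g => (map_ne_zero _).2 hy0) 1 (by
      intro g hg
      change v (g y) ≠ v y
      rw [hvy, hy, map_mul, map_pow, map_mul, map_pow]
      exact hk g hg)
  obtain ⟨e₁, he₁⟩ := es_fixed (E := E) y m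
  obtain ⟨e₂, he₂⟩ := es_fixed (E := E) y (m + 1)
  have he₁0 : e₁ ≠ 0 := by
    rintro rfl
    rw [map_zero] at he₁
    exact h1 he₁.symm
  have he₂0 : e₂ ≠ 0 := by
    rintro rfl
    rw [map_zero] at he₂
    exact h2 he₂.symm
  refine ⟨e₂ / e₁, div_ne_zero he₂0 he₁0, ?_⟩
  rw [map_div₀, he₁, he₂]
  change v (y / (_ / _) - 1) < 1 at h3
  set q : L := es (fun g : L ≃ₐ[E] L => g y) (m + 1) / es (fun g : L ≃ₐ[E] L => g y) m with hq
  -- `x / q = (y / q) / ε^k`
  have hεk : v (ε ^ k - 1) < 1 := by
    have : ∀ j : ℕ, v (ε ^ j - 1) < 1 := by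
      intro j
      induction j with
      | zero => rw [pow_zero, sub_self, map_zero]; exact zero_lt_one
      | succ j ih =>
        have e : ε ^ (j + 1) - 1 = ε * (ε ^ j - 1) + (ε - 1) := by ring
        rw [e]
        refine lt_of_le_of_lt (Valuation.map_add _ _ _) (max_lt ?_ hε1)
        rw [map_mul, hvε, one_mul]
        exact ih
    exact this k
  have hq0 : q ≠ 0 := div_ne_zero h2 h1
  have e : x / q - 1 = ((y / q - 1) - (ε ^ k - 1)) / ε ^ k := by
    rw [hy]
    have := pow_ne_zero k hε0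
    field_simp
    ring
  rw [e, map_div₀, map_pow, hvε, one_pow, div_one]
  exact lt_of_le_of_lt (Valuation.map_sub _ _ _) (max_lt h3 hεk)

end step

end Pool.Agent.V7H55.ET
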