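import Mathlib
import Pool.Agent.V7H55.ET.Step
import Pool.Agent.Y469.EP.Max

set_option autoImplicit false

/-!
# A maximal immediate extension inside a field closed under `p`-th roots
-/

open IntermediateField

namespace Pool.Agent.V7H55.ET

open Pool.Agent.Y469.EP (Tw Tw_root root_eq)

section val

variable {K : Type} [Field K] {W : ValuationSubring K}

lemma lt_one_iff_inv {x : K} : W.valuation x < 1 ↔ x = 0 ∨ x⁻¹ ∉ W := by
  by_cases hx : x = 0
  · subst hx
    simp
  · rw [or_iff_right hx, ← not_iff_not, not_not, not_lt, ← W.valuation_le_one_iff, map_inv₀,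
      inv_le_one₀ (zero_lt_iff.2 ((Valuation.ne_zero_iff _).2 hx))]

lemma val_comap {L : Type} [Field L] [Algebra L K] {x : L} :
    (W.comap (algebraMap L K)).valuation x < 1 ↔ W.valuation (algebraMap L K x) < 1 := by
  rw [lt_one_iff_inv, lt_one_iff_inv, map_eq_zero, ValuationSubring.mem_comap, map_inv₀]

lemma val_one_of {x : K} (h : W.valuation (x - 1) < 1) : W.valuation x = 1 := by
  have h3 : W.valuation (1 + (x - 1)) = W.valuation (1 : K) :=
    Valuation.map_add_eq_of_lt_left _ (by rw [map_one]; exact h)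
  rwa [add_sub_cancel, map_one] at h3

lemma ne_zero_of {x : K} (h : W.valuation (x - 1) < 1) : x ≠ 0 := by
  rintro rfl
  have := val_one_of h
  rw [map_zero] at this
  exact zero_ne_one this

lemma near_mul {x y : K} (hx : W.valuation (x - 1) < 1) (hy : W.valuation (y - 1) < 1) :
    W.valuation (x * y - 1) < 1 := by
  have e : x * y - 1 = x * (y - 1) + (x - 1) := by ring
  rw [e]
  refine lt_of_le_of_lt (Valuation.map_add _ _ _) (max_lt ?_ hx)
  rw [map_mul, val_one_of hx, one_mul]
  exact hy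

lemma near_inv {x : K} (hx : W.valuation (x - 1) < 1) : W.valuation (x⁻¹ - 1) < 1 := by
  have h0 := ne_zero_of hx
  have e : x⁻¹ - 1 = - ((x - 1) * x⁻¹) := by
    field_simp
    ring
  rw [e, Valuation.map_neg, map_mul, map_inv₀, val_one_of hx, inv_one, mul_one]
  exact hx

lemma near_pow {x : K} (hx : W.valuation (x - 1) < 1) (n : ℕ) : W.valuation (x ^ n - 1) < 1 := by
  induction n with
  | zero => rw [pow_zero, sub_self, map_zero]; exact zero_lt_one
  | succ n ih => rw [pow_succ]; exact near_mul ih hx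

/-- a root of unity close to `1` -/
lemma root_one {p : ℕ} (hpW : W.valuation (p : K) = 1) {ξ : K} (hξ : ξ ^ p = 1)
    (h : W.valuation (ξ - 1) < 1) : ξ = 1 := by
  by_contra hne
  have h5 := geom_sum_mul ξ p
  rw [hξ, sub_self, mul_eq_zero] at h5
  have h4 : ∑ i ∈ Finset.range p, ξ ^ i = 0 := h5.resolve_right (sub_ne_zero.2 hne)
  have h6 : ∑ i ∈ Finset.range p, (ξ ^ i - 1) = - (p : K) := by
    rw [Finset.sum_sub_distrib, h4, Finset.sum_const, Finset.card_range, nsmul_eq_mul, mul_one,
      zero_sub]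
  have h7 : W.valuation (∑ i ∈ Finset.range p, (ξ ^ i - 1)) < 1 :=
    Valuation.map_sum_lt _ one_ne_zero fun i _ => near_pow h i
  rw [h6, Valuation.map_neg, hpW] at h7
  exact lt_irrefl _ h7

/-- a `p`-th root close to `1` -/
lemma exists_root_near {p : ℕ} (hp : p.Prime) {ζ : K} (hζ : IsPrimitiveRoot ζ p) {α : K}
    (h : W.valuation (α ^ p - 1) < 1) : ∃ i : ℕ, W.valuation (ζ ^ i * α - 1) < 1 := by
  by_contra hc
  push Not at hc
  have h1 := hζ.pow_sub_pow_eq_prod_sub_mul 1 α hp.pos
  rw [one_pow] at h1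
  have h2 : 1 ≤ W.valuation (∏ μ ∈ Polynomial.nthRootsFinset p (1 : K), (1 - μ * α)) := by
    rw [map_prod]
    refine Finset.prod_induction _ (fun y => 1 ≤ y) (fun a b => one_le_mul_of_one_le_of_one_le)
      le_rfl ?_
    intro μ hμ
    rw [Polynomial.mem_nthRootsFinset hp.pos] at hμ
    have : NeZero p := ⟨hp.ne_zero⟩
    obtain ⟨i, -, rfl⟩ := hζ.eq_pow_of_pow_eq_one hμ
    rw [← Valuation.map_neg, neg_sub]
    exact hc i
  rw [← h1, ← Valuation.map_neg, neg_sub] at h2
  exact absurd h (not_lt.2 h2)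

end val

section zorn

variable {F K : Type} [Field F] [Field K] [Algebra F K] {W : ValuationSubring K}

/-- all elements of `E` are products of elements of `F` and of elements of `1 + m` -/
def Imm (W : ValuationSubring K) (E : IntermediateField F K) : Prop :=
  ∀ x ∈ E, x ≠ 0 → ∃ f : F, f ≠ 0 ∧ W.valuation (x / algebraMap F K f - 1) < 1

lemma imm_bot : Imm (F := F) W ⊥ := by
  intro x hx hx0
  obtain ⟨f, rfl⟩ := IntermediateField.mem_bot.1 hx
  have hf : f ≠ 0 := by
    rintro rfl
    exact hx0 (map_zero _)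
  refine ⟨f, hf, ?_⟩
  rw [div_self hx0, sub_self, map_zero]
  exact zero_lt_one

/-- **Existence.** -/
theorem exists_E {p : ℕ} (hp : p.Prime) {ζ : F} (hζ : IsPrimitiveRoot ζ p) [IsGalois F K]
    (hcl : ∀ a : K, ∃ y : K, y ^ p = a) (hpW : W.valuation (p : K) = 1) :
    ∃ E : IntermediateField F K, Imm W E ∧
      ∀ y ∈ E, W.valuation (y - 1) < 1 → ∃ β ∈ E, β ^ p = y := by
  obtain ⟨E, hE⟩ := zorn_le₀ {E : IntermediateField F K | Imm W E} (by
    intro c hc hchain
    rcases c.eq_empty_or_nonempty with rfl | hne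
    · exact ⟨⊥, imm_bot, fun z hz => absurd hz (Set.notMem_empty _)⟩
    · refine ⟨sSup c, ?_, fun z hz => le_sSup hz⟩
      intro x hx hx0
      have hne' : Nonempty c := hne.to_subtype
      have hdir : Directed (· ≤ ·) fun L : c => L.1 := by
        rintro ⟨L₁, h₁⟩ ⟨L₂, h₂⟩
        rcases hchain.total h₁ h₂ with h | h
        · exact ⟨⟨L₂, h₂⟩, h, le_rfl⟩
        · exact ⟨⟨L₁, h₁⟩, le_rfl, h⟩
      rw [sSup_eq_iSup', ← SetLike.mem_coe, IntermediateField.coe_iSup_of_directed hdir,
        Set.mem_iUnion] at hx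
      obtain ⟨⟨L, hL⟩, hxL⟩ := hx
      exact hc hL x hxL hx0)
  refine ⟨E, hE.1, ?_⟩
  intro y hy hy1
  by_contra hno
  -- a root close to `1`
  have hζK : IsPrimitiveRoot (algebraMap F K ζ) p :=
    hζ.map_of_injective (algebraMap F K).injective
  obtain ⟨α₀, hα₀⟩ := hcl y
  obtain ⟨i, hi⟩ := exists_root_near (W := W) hp hζK (α := α₀) (by rw [hα₀]; exact hy1)
  set α : K := algebraMap F K ζ ^ i * α₀ with hα
  have hαp : α ^ p = y := by
    rw [hα, mul_pow, ← pow_mul, mul_comm i p, pow_mul, hζK.pow_eq_one, one_pow, one_mul, hα₀]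
  -- the extension `E(α)`
  set yE : E := ⟨y, hy⟩ with hyE
  have hαE : α ^ p = algebraMap E K yE := hαp
  have hζE : IsPrimitiveRoot (algebraMap F E ζ) p :=
    hζ.map_of_injective (algebraMap F E).injective
  obtain ⟨hfd, hgal, -⟩ := Tw_root hp hζE α yE hαE
  have := hfd
  have := hgal
  set W' : ValuationSubring E⟮α⟯ := W.comap (algebraMap E⟮α⟯ K) with hW'
  have hp0 : (p : K) ≠ 0 := by
    intro h
    rw [h, map_zero] at hpW
    exact zero_ne_one hpW
  have hpW' : W'.valuation (p : E⟮α⟯) = 1 := by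
    have h1 : (p : E⟮α⟯) ∈ W' := natCast_mem W' p
    have h2 : (p : E⟮α⟯)⁻¹ ∈ W' := by
      rw [hW', ValuationSubring.mem_comap, map_inv₀, map_natCast, ← W.valuation_le_one_iff, map_inv₀,
        hpW, inv_one]
    refine le_antisymm ((W'.valuation_le_one_iff _).2 h1) ?_
    have h3 := (W'.valuation_le_one_iff _).2 h2
    rw [map_inv₀] at h3
    have hp0' : (p : E⟮α⟯) ≠ 0 := by
      intro h
      apply hp0
      have := congrArg (algebraMap E⟮α⟯ K) h
      rwa [map_natCast, map_zero] at this
    exact (inv_le_one₀ (zero_lt_iff.2 ((Valuation.ne_zero_iff _).2 hp0'))).1 h3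
  set α' : E⟮α⟯ := AdjoinSimple.gen E α with hα'
  have hstep := fun (x : E⟮α⟯) (hx : x ≠ 0) => step hp (W := W') hpW' (α := α') (by
      rw [hW', val_comap, map_sub, map_one]
      exact hi) (a := yE) (by
      apply Subtype.ext
      exact hαp) (by
      intro g hg
      ext z
      obtain ⟨P, hP⟩ : ∃ P : Polynomial E, Polynomial.aeval α' P = z := by
        have hint : IsIntegral E α := Algebra.IsIntegral.isIntegral α
        have h1 : z ∈ (⊤ : Subalgebra E E⟮α⟯) := Algebra.mem_top
        have h2 := (IntermediateField.adjoin.powerBasis hint).adjoin_gen_eq_top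
        rw [← h2, Algebra.adjoin_singleton_eq_range_aeval] at h1
        obtain ⟨P, hP⟩ := h1
        refine ⟨P, ?_⟩
        rw [← hP]
        rfl
      rw [← hP, ← Polynomial.aeval_algHom_apply, hg]
      rfl) hx
  -- the new field is immediate
  have hle : E ≤ E⟮α⟯.restrictScalars F := by
    intro x hx
    rw [IntermediateField.mem_restrictScalars]
    exact IntermediateField.algebraMap_mem E⟮α⟯ ⟨x, hx⟩
  have himm : Imm W (E⟮α⟯.restrictScalars F) := by
    intro x hx hx0
    rw [IntermediateField.mem_restrictScalars] at hx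
    obtain ⟨e, he0, he⟩ := hstep ⟨x, hx⟩ (by
      intro h
      apply hx0
      exact congrArg Subtype.val h)
    rw [hW', val_comap] at he
    obtain ⟨f, hf0, hf⟩ := hE.1 (e : K) e.2 (by
      intro h
      apply he0
      exact Subtype.ext h)
    refine ⟨f, hf0, ?_⟩
    have he' : W.valuation (x / (e : K) - 1) < 1 := by
      rw [map_sub, map_one, map_div₀] at he
      exact he
    have h1 := near_mul he' hf
    have h2 : (e : K) ≠ 0 := fun h => he0 (Subtype.ext h)
    have e2 : x / (e : K) * ((e : K) / algebraMap F K f) = x / algebraMap F K f := by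
      rw [div_mul_div_cancel₀ h2]
    rwa [e2] at h1
  have h1 := hE.2 himm hle
  apply hno
  refine ⟨α, h1 ?_, hαp⟩
  rw [IntermediateField.mem_restrictScalars]
  exact IntermediateField.mem_adjoin_simple_self E α

end zorn

end Pool.Agent.V7H55.ET
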