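import Mathlib
import Pool.Agent.V7H55.ET.Imm

set_option autoImplicit false

/-!
# Finite subextensions of `p`-power degree
-/

open IntermediateField Polynomial

namespace Pool.Agent.V7H55.ET

open Pool.Agent.Y469.EP (Tw Tw_root Tw_sup Tw_bot root_eq finrank_eq_index)

section comp

variable {F K : Type} [Field F] [Field K] [Algebra F K]

/-- finite Galois subextensions of `p`-power degree over an intermediate field -/
lemma comp {p : ℕ} (hp : p.Prime) [IsGalois F K]
    (hL : ∀ x : K, ∃ L : IntermediateField F K, x ∈ L ∧ Tw p L) (E : IntermediateField F K)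
    (x : K) : ∃ M : IntermediateField E K, x ∈ M ∧ Tw p M := by
  obtain ⟨L, hxL, hfd, hgal, k, hk⟩ := hL x
  have := hfd
  have := hgal
  have hint : IsIntegral F x := Algebra.IsIntegral.isIntegral x
  set P : F[X] := minpoly F x with hP
  have hP0 : P ≠ 0 := minpoly.ne_zero hint
  set PE : E[X] := P.map (algebraMap F E) with hPE
  have hPE0 : PE ≠ 0 := (Polynomial.map_ne_zero_iff (algebraMap F E).injective).2 hP0
  have hsp : (PE.map (algebraMap E K)).Splits := by
    rw [hPE, Polynomial.map_map, ← IsScalarTower.algebraMap_eq]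
    exact Normal.splits inferInstance x
  have hsep : PE.Separable :=
    Polynomial.Separable.map (Algebra.IsSeparable.isSeparable F x : (minpoly F x).Separable)
  set M : IntermediateField E K := adjoin E (PE.rootSet K) with hM
  have hspl : PE.IsSplittingField E M := IntermediateField.adjoin_rootSet_isSplittingField hsp
  have hMfd : FiniteDimensional E M := Polynomial.IsSplittingField.finiteDimensional M PE
  have hMgal : IsGalois E M := IsGalois.of_separable_splitting_field (p := PE) hsep
  have hroot : ∀ y : K, y ∈ PE.rootSet K ↔ aeval y P = 0 := by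
    intro y
    rw [Polynomial.mem_rootSet, hPE, Polynomial.aeval_map_algebraMap]
    exact ⟨fun h => h.2, fun h => ⟨hPE0, h⟩⟩
  refine ⟨M, ?_, hMfd, hMgal, ?_⟩
  · apply IntermediateField.subset_adjoin
    rw [hroot]
    exact minpoly.aeval F x
  · have hNE : Normal E K := inferInstance
    rw [finrank_eq_index M]
    -- the roots are in `L`
    have hrL : ∀ y ∈ PE.rootSet K, y ∈ L := by
      intro y hy
      rw [hroot] at hy
      obtain ⟨σ, hσ⟩ := minpoly.exists_algEquiv_of_root' (Algebra.IsAlgebraic.isAlgebraic x) hy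
      have h1 : L.map (σ : K →ₐ[F] K) ≤ L :=
        IntermediateField.normal_iff_forall_map_le.1 inferInstance _
      apply h1
      exact ⟨x, hxL, hσ⟩
    let φ : (K ≃ₐ[E] K) →* (K ≃ₐ[F] K) := AlgEquiv.restrictScalarsHom F
    have hle : L.fixingSubgroup.comap φ ≤ M.fixingSubgroup := by
      intro σ hσ
      rw [Subgroup.mem_comap, IntermediateField.mem_fixingSubgroup_iff] at hσ
      rw [IntermediateField.mem_fixingSubgroup_iff]
      intro y hy
      refine IntermediateField.adjoin_induction E (p := fun y _ => σ y = y) ?_ ?_ ?_ ?_ ?_ hy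
      · intro y hy
        exact hσ y (hrL y hy)
      · intro e
        exact σ.commutes e
      · intro a b _ _ ha hb
        rw [map_add, ha, hb]
      · intro a _ ha
        rw [map_inv₀, ha]
      · intro a b _ _ ha hb
        rw [map_mul, ha, hb]
    have hnor : (L.fixingSubgroup).Normal := by
      rw [← IntermediateField.restrictNormalHom_ker L]
      infer_instance
    have h1 : M.fixingSubgroup.index ∣ p ^ k := by
      refine (Subgroup.index_dvd_of_le hle).trans ?_
      rw [Subgroup.index_comap]
      refine (Subgroup.relIndex_dvd_index_of_normal _ _).trans ?_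
      rw [← hk, finrank_eq_index L]
    obtain ⟨j, _, hj⟩ := (Nat.dvd_prime_pow hp).1 h1
    exact ⟨j, hj⟩

end comp

section closed

variable {F : Type} [Field F]

lemma Tw_adjoin {p : ℕ} (hp : p.Prime) {L Ω : Type} [Field L] [Field Ω] [Algebra L Ω]
    [Normal L Ω] {ζ : L} (hζ : IsPrimitiveRoot ζ p) (s : Finset Ω)
    (hs : ∀ y ∈ s, ∃ c : L, y ^ p = algebraMap L Ω c) : Tw p (adjoin L (s : Set Ω)) := by
  classical
  induction s using Finset.induction_on with
  | empty =>
    rw [Finset.coe_empty, IntermediateField.adjoin_empty]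
    exact Tw_bot p
  | insert y s hy ih =>
    obtain ⟨c, hc⟩ := hs y (Finset.mem_insert_self y s)
    rw [Finset.coe_insert, ← Set.singleton_union, IntermediateField.adjoin_union]
    exact Tw_sup hp (Tw_root hp hζ y c hc) (ih fun z hz => hs z (Finset.mem_insert_of_mem hz))

/-- the maximal `p`-extension is closed under `p`-th roots -/
theorem closed_root {p : ℕ} (hp : p.Prime) {ζ : F} (hζ : IsPrimitiveRoot ζ p)
    (K : IntermediateField F (AlgebraicClosure F))
    (hK : K = sSup {L : IntermediateField F (AlgebraicClosure F) | Tw p L}) (a : K) :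
    ∃ y : K, y ^ p = a := by
  set Ω := AlgebraicClosure F with hΩ
  -- `a` lies in a finite subextension
  obtain ⟨L, hL, haL⟩ : ∃ L : IntermediateField F Ω, Tw p L ∧ (a : Ω) ∈ L := by
    have ha : (a : Ω) ∈ sSup {L : IntermediateField F Ω | Tw p L} := hK ▸ a.2
    have hne : Nonempty {L : IntermediateField F Ω | Tw p L} := ⟨⟨⊥, Tw_bot p⟩⟩
    have hdir : Directed (· ≤ ·) fun L : {L : IntermediateField F Ω | Tw p L} => L.1 := by
      rintro ⟨L₁, h₁⟩ ⟨L₂, h₂⟩
      exact ⟨⟨L₁ ⊔ L₂, Tw_sup hp h₁ h₂⟩, le_sup_left, le_sup_right⟩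
    rw [sSup_eq_iSup', ← SetLike.mem_coe, IntermediateField.coe_iSup_of_directed hdir,
      Set.mem_iUnion] at ha
    obtain ⟨⟨L, hL⟩, haL⟩ := ha
    exact ⟨L, hL, haL⟩
  obtain ⟨α, hα⟩ : ∃ α : Ω, α ^ p = a :=
    IsAlgClosed.exists_pow_nat_eq (a : Ω) hp.pos
  obtain ⟨hLfd, hLgal, k, hk⟩ := hL
  have := hLfd
  have := hLgal
  have hint : IsIntegral F (a : Ω) := Algebra.IsIntegral.isIntegral _
  set P : F[X] := minpoly F (a : Ω) with hP
  have hP0 : P ≠ 0 := minpoly.ne_zero hint
  set Q : F[X] := expand F p P with hQ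
  have hQ0 : Q ≠ 0 := (Polynomial.expand_ne_zero hp.pos).2 hP0
  have hroot : ∀ y : Ω, y ∈ Q.rootSet Ω ↔ aeval (y ^ p) P = 0 := by
    intro y
    rw [Polynomial.mem_rootSet, hQ, Polynomial.expand_aeval]
    exact ⟨fun h => h.2, fun h => ⟨hQ0, h⟩⟩
  -- the roots are `p`-th roots of elements of `L`
  have hrL : ∀ y ∈ Q.rootSet Ω, y ^ p ∈ L := by
    intro y hy
    rw [hroot] at hy
    obtain ⟨σ, hσ⟩ := minpoly.exists_algEquiv_of_root' (Algebra.IsAlgebraic.isAlgebraic (a : Ω)) hy
    have h1 : L.map (σ : Ω →ₐ[F] Ω) ≤ L :=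
      IntermediateField.normal_iff_forall_map_le.1 inferInstance _
    apply h1
    exact ⟨(a : Ω), haL, hσ⟩
  have hζL : IsPrimitiveRoot (algebraMap F L ζ) p :=
    hζ.map_of_injective (algebraMap F L).injective
  classical
  have hTw : Tw p (adjoin L (Q.rootSet Ω)) := by
    have h1 := Tw_adjoin (Ω := Ω) hp hζL (Q.rootSet Ω).toFinset (by
      intro y hy
      rw [Set.mem_toFinset] at hy
      exact ⟨⟨y ^ p, hrL y hy⟩, rfl⟩)
    rwa [Set.coe_toFinset] at h1
  obtain ⟨hMfd, hMgal, j, hj⟩ := hTw
  have := hMfd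
  have := hMgal
  -- the splitting field of `Q`
  set N : IntermediateField F Ω := adjoin F (Q.rootSet Ω) with hN
  have hsp : (Q.map (algebraMap F Ω)).Splits := IsAlgClosed.splits _
  have hspl : Q.IsSplittingField F N := IntermediateField.adjoin_rootSet_isSplittingField hsp
  have hNfd : FiniteDimensional F N := Polynomial.IsSplittingField.finiteDimensional N Q
  have hNnor : Normal F N := Normal.of_isSplittingField Q
  set M : IntermediateField F Ω := (adjoin L (Q.rootSet Ω)).restrictScalars F with hM
  have hNM : N ≤ M := by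
    rw [hN, IntermediateField.adjoin_le_iff]
    intro y hy
    exact IntermediateField.subset_adjoin L _ hy
  have hMsep : Algebra.IsSeparable F M :=
    Algebra.IsSeparable.trans F L (adjoin L (Q.rootSet Ω))
  have hNsep : Algebra.IsSeparable F N :=
    Algebra.IsSeparable.of_algHom F M (IntermediateField.inclusion hNM)
  have hNgal : IsGalois F N := {
    to_isSeparable := hNsep
    to_normal := hNnor }
  have hNTw : Tw p N := by
    refine ⟨hNfd, hNgal, ?_⟩
    have h1 : Module.finrank F N ∣ Module.finrank F M := IntermediateField.finrank_dvd_of_le_right hNM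
    have h2 : Module.finrank F M = p ^ (k + j) := by
      rw [pow_add, ← hk, ← hj]
      exact (Module.finrank_mul_finrank F L (adjoin L (Q.rootSet Ω))).symm
    rw [h2] at h1
    obtain ⟨i, _, hi⟩ := (Nat.dvd_prime_pow hp).1 h1
    exact ⟨i, hi⟩
  have hαK : α ∈ K := by
    rw [hK]
    refine (le_sSup (show N ∈ {L : IntermediateField F Ω | Tw p L} from hNTw)) ?_
    apply IntermediateField.subset_adjoin
    rw [hroot, hα]
    exact minpoly.aeval F _
  exact ⟨⟨α, hαK⟩, Subtype.ext hα⟩

end closed

end Pool.Agent.V7H55.ET
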