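import Mathlib
import Pool.Agent.Y232.EP.Coarse
import Pool.Agent.Y920.EP.FieldP

set_option autoImplicit false

/-!
# Coarsening a valuation ring by a prime, relative to a subgroup of finite index

If `F*/F*^p` is finite, `1 + m ⊆ T`, `O* T ≠ F*` and the index of `T ⊇ F*^p` does not divide `p`, then
there is such a valuation ring in which `p` is a unit.
-/

namespace Pool.Agent.V7H55.ET

open Pool.Agent.Y920.EP
open Pool.Agent.Y232.EP (inv lt_one of_lt_one)

/-- there is a valuation ring with `p ∈ O*`, `1 + m ⊆ T` and `O* T ≠ F*` -/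
def Gd (p : ℕ) {F : Type} [Field F] (T : Subgroup Fˣ) : Prop :=
  ∃ O : ValuationSubring F, (p : F)⁻¹ ∈ O ∧
    (∀ x : F, x ∈ O → x⁻¹ ∉ O → ∃ t ∈ T, (t : F) = 1 + x) ∧ O.unitGroup ⊔ T ≠ ⊤

section

variable {F : Type} [Field F] {p : ℕ} {O : ValuationSubring F}

/-- `w` is a `p`-th power times an element of `1 + m` -/
def Q (p : ℕ) (O : ValuationSubring F) (w : Fˣ) : Prop :=
  ∃ z : Fˣ, O.valuation ((w : F) / (z : F) ^ p - 1) < 1

lemma v_pos (x : Fˣ) : 0 < O.valuation (x : F) :=
  zero_lt_iff.2 ((Valuation.ne_zero_iff _).2 x.ne_zero)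

lemma v_ne (x : Fˣ) : O.valuation (x : F) ≠ 0 := (v_pos x).ne'

lemma v_eq_of_sub_one {e : F} (h : O.valuation (e - 1) < 1) : O.valuation e = 1 := by
  have h1 : O.valuation (1 + (e - 1)) = O.valuation (1 : F) :=
    Valuation.map_add_eq_of_lt_left _ (by rw [map_one]; exact h)
  rwa [map_one, add_sub_cancel] at h1

lemma Q.val {w : Fˣ} (h : Q p O w) : ∃ z : Fˣ, O.valuation (w : F) = O.valuation (z : F) ^ p := by
  obtain ⟨z, hz⟩ := h
  refine ⟨z, ?_⟩
  have h1 := v_eq_of_sub_one hz
  rw [map_div₀, map_pow] at h1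
  exact (div_eq_one_iff_eq (pow_ne_zero _ (v_ne z))).1 h1

lemma Q.mul_pow {w : Fˣ} (h : Q p O w) (c : Fˣ) : Q p O (w * c ^ p) := by
  obtain ⟨z, hz⟩ := h
  refine ⟨z * c, ?_⟩
  have h1 := c.ne_zero
  have h2 := z.ne_zero
  have e : ((w * c ^ p : Fˣ) : F) / ((z * c : Fˣ) : F) ^ p = (w : F) / (z : F) ^ p := by
    push_cast
    field_simp
    ring
  rwa [e]

lemma Q.of_mul_pow {w c : Fˣ} (h : Q p O (w * c ^ p)) : Q p O w := by
  have h1 := h.mul_pow c⁻¹
  rwa [mul_assoc, ← _root_.mul_pow, mul_inv_cancel, one_pow, mul_one] at h1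

/-- multiplication by an element of `1 + m` -/
lemma Q.mul_one_add {w w' : Fˣ} (h : Q p O w) (h' : O.valuation ((w' : F) / w - 1) < 1) :
    Q p O w' := by
  obtain ⟨z, hz⟩ := h
  refine ⟨z, ?_⟩
  have h0 := w.ne_zero
  have e : (w' : F) / (z : F) ^ p - 1 =
      ((w' : F) / w - 1) * ((w : F) / (z : F) ^ p) + ((w : F) / (z : F) ^ p - 1) := by
    field_simp
    ring
  rw [e]
  refine lt_of_le_of_lt (Valuation.map_add _ _ _) (max_lt ?_ hz)
  rw [map_mul, v_eq_of_sub_one hz, mul_one]
  exact h'

/-- an element with `w / w' ∈ 1 + m` -/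
lemma Q.symm_aux {w w' : Fˣ} (h : O.valuation ((w' : F) / w - 1) < 1) :
    O.valuation ((w : F) / w' - 1) < 1 := by
  have h1 := v_eq_of_sub_one h
  have h0 := w.ne_zero
  have h0' := w'.ne_zero
  have e : (w : F) / w' - 1 = - (((w' : F) / w - 1) * ((w' : F) / w)⁻¹) := by
    field_simp
    ring
  rw [e, Valuation.map_neg, map_mul, map_inv₀, h1, inv_one, mul_one]
  exact h

lemma Q.mem {T : Subgroup Fˣ} (hT : pwG F p ≤ T)
    (hone : ∀ x : F, x ∈ O → x⁻¹ ∉ O → ∃ t ∈ T, (t : F) = 1 + x) {w : Fˣ} (h : Q p O w) :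
    w ∈ T := by
  obtain ⟨z, hz⟩ := h
  have hzT : z ^ p ∈ T := hT ⟨z, rfl⟩
  set e : F := (w : F) / (z : F) ^ p - 1 with he
  have h0 := z.ne_zero
  by_cases h1 : e = 0
  · have h2 : w = z ^ p := by
      apply Units.ext
      rw [Units.val_pow_eq_pow_val]
      have : (w : F) / (z : F) ^ p = 1 := by linear_combination h1
      exact (div_eq_one_iff_eq (pow_ne_zero _ h0)).1 this
    rw [h2]
    exact hzT
  · obtain ⟨t, ht, ht1⟩ := hone e ((O.valuation_le_one_iff _).1 hz.le) (of_lt_one h1 hz)
    have h2 : w = t * z ^ p := by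
      apply Units.ext
      rw [Units.val_mul, ht1, Units.val_pow_eq_pow_val, he]
      field_simp
      ring
    rw [h2]
    exact mul_mem ht hzT

/-- if `1 + w` is a `p`-th power, `v(p) ≤ v(w) < 1`, then `w` is a `p`-th power times an element
of `1 + m` -/
lemma stepA (hp : p.Prime) (hpv : O.valuation (p : F) < 1) {w c : Fˣ}
    (hw1 : O.valuation (w : F) < 1) (hw2 : O.valuation (p : F) ≤ O.valuation (w : F))
    (hc : (c : F) ^ p = 1 + w) : Q p O w := by
  have hpos : 0 < p := hp.pos
  obtain ⟨v, hv⟩ : ∃ v, v = O.valuation := ⟨_, rfl⟩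
  rw [← hv] at hpv hw1 hw2
  have hvO : ∀ x : F, x ∈ O ↔ v x ≤ 1 := fun x => by rw [hv, O.valuation_le_one_iff]
  have hvw0 : 0 < v (w : F) := by rw [hv]; exact v_pos w
  have hvc : v (c : F) ≤ 1 := by
    have h7 : v ((c : F) ^ p) ≤ 1 := by
      rw [hc]
      exact (Valuation.map_add _ _ _).trans (max_le (by rw [map_one]) hw1.le)
    rw [map_pow] at h7
    exact (pow_le_one_iff_of_nonneg zero_le hpos.ne').1 h7
  obtain ⟨z, hz⟩ : ∃ z : F, z = c - 1 := ⟨_, rfl⟩
  have hzO : z ∈ O := by
    rw [hz]
    exact sub_mem ((hvO _).2 hvc) O.one_mem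
  obtain ⟨u, hu⟩ := exists_add_pow_prime_eq hp (⟨z, hzO⟩ : O) 1
  have hu' : (z + 1) ^ p = z ^ p + 1 + p * z * (u : F) := by
    have := congrArg (fun x : O => (x : F)) hu
    push_cast at this
    simpa using this
  have hwz : (w : F) = z ^ p + p * z * u := by
    have h7 : z + 1 = c := by rw [hz]; ring
    rw [h7, hc] at hu'
    linear_combination hu'
  have hvz : v z ≤ 1 := (hvO _).1 hzO
  have hvu : v (u : F) ≤ 1 := (hvO _).1 u.2
  have hvpzu : v ((p : F) * z * u) ≤ v (p : F) * v z := by
    rw [map_mul, map_mul]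
    exact mul_le_of_le_one_right' hvu
  have hvp0 : 0 < v (p : F) ∨ v (p : F) = 0 := by
    rcases eq_or_ne (v (p : F)) 0 with h | h
    · exact Or.inr h
    · exact Or.inl (zero_lt_iff.2 h)
  have hvz1 : v z < 1 := by
    by_contra hcon
    have hvz' : v z = 1 := le_antisymm hvz (not_lt.1 hcon)
    have h7 : v (z ^ p) < 1 := by
      have h8 : z ^ p = w - p * z * u := by rw [hwz]; ring
      rw [h8]
      refine lt_of_le_of_lt (Valuation.map_sub _ _ _) (max_lt hw1 ?_)
      refine lt_of_le_of_lt hvpzu ?_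
      rw [hvz', mul_one]
      exact hpv
    rw [map_pow, hvz', one_pow] at h7
    exact lt_irrefl _ h7
  have hlt : v (p : F) < v (z ^ (p - 1)) := by
    by_contra hcon
    rw [not_lt] at hcon
    have h7 : v (w : F) ≤ v (p : F) * v z := by
      rw [hwz]
      refine (Valuation.map_add _ _ _).trans (max_le ?_ hvpzu)
      have h8 : z ^ p = z ^ (p - 1) * z := by
        rw [← pow_succ, Nat.sub_add_cancel hpos]
      rw [h8, map_mul]
      exact mul_le_mul' hcon le_rfl
    rcases hvp0 with h0 | h0
    · have h9 : v (p : F) * v z < v (p : F) := mul_lt_of_lt_one_right h0 hvz1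
      exact absurd (hw2.trans h7) (not_le.2 h9)
    · rw [h0, zero_mul] at h7
      exact absurd h7 (not_le.2 hvw0)
  have hz0 : z ≠ 0 := by
    rintro rfl
    have hp1 : p - 1 ≠ 0 := by have := hp.two_le; omega
    rw [zero_pow hp1, map_zero] at hlt
    exact not_lt_zero hlt
  have hzz : z ^ (p - 1) ≠ 0 := pow_ne_zero _ hz0
  refine ⟨Units.mk0 z hz0, ?_⟩
  rw [← hv, Units.val_mk0]
  have e : (w : F) / z ^ p - 1 = (p : F) / z ^ (p - 1) * u := by
    have h9 : z ^ p = z ^ (p - 1) * z := by
      rw [← pow_succ, Nat.sub_add_cancel hpos]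
    rw [hwz, h9]
    field_simp
    ring
  rw [e, map_mul]
  refine lt_of_le_of_lt (mul_le_of_le_one_right' hvu) ?_
  rw [map_div₀]
  exact (div_lt_one₀ (zero_lt_iff.2 ((Valuation.ne_zero_iff _).2 hzz))).2 hlt


/-- `1 + w` for `w` in the maximal ideal -/
noncomputable def oneAdd (w : Fˣ) (h : O.valuation (w : F) < 1) : Fˣ :=
  Units.mk0 (1 + (w : F)) (by
    intro h0
    have h1 : (w : F) = -1 := by linear_combination h0
    rw [h1, Valuation.map_neg, map_one] at h
    exact lt_irrefl _ h)

lemma val_oneAdd (w : Fˣ) (h : O.valuation (w : F) < 1) :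
    ((oneAdd w h : Fˣ) : F) = 1 + w := rfl

lemma v_one_add {e : F} (h : O.valuation e < 1) : O.valuation (1 + e) = 1 :=
  v_eq_of_sub_one (by rwa [add_sub_cancel_left])

/-- the classes of `1 + w` and `1 + w'` are different if `w - w'` is not a `p`-th power times an
element of `1 + m` -/
lemma kap_ne (hp : p.Prime) (hpv : O.valuation (p : F) < 1) {w w' d : Fˣ}
    (hw : O.valuation (w : F) < 1) (hw' : O.valuation (w' : F) < 1)
    (hd : (d : F) = w - w') (hd2 : O.valuation (p : F) ≤ O.valuation (d : F))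
    (hQ : ¬ Q p O d) :
    (QuotientGroup.mk (oneAdd w hw) : Fˣ ⧸ pwG F p) ≠ QuotientGroup.mk (oneAdd w' hw') := by
  intro h
  rw [QuotientGroup.eq] at h
  obtain ⟨c, hc⟩ := h
  have hc' : (oneAdd w hw)⁻¹ * oneAdd w' hw' = c ^ p := hc.symm
  -- `(1 + w) / (1 + w') = 1 + d / (1 + w')`
  have h1w' : (1 : F) + w' ≠ 0 := (oneAdd w' hw').ne_zero
  have h1w : (1 : F) + w ≠ 0 := (oneAdd w hw).ne_zero
  set e : Fˣ := d * (oneAdd w' hw')⁻¹ with he
  have he1 : (e : F) = d / (1 + w') := by
    rw [he, Units.val_mul, Units.val_inv_eq_inv_val, val_oneAdd, div_eq_mul_inv]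
  have hve : O.valuation (e : F) = O.valuation (d : F) := by
    rw [he1, map_div₀, v_one_add hw', div_one]
  have hed : O.valuation ((d : F) / e - 1) < 1 := by
    have h2 : (d : F) / e - 1 = w' := by
      rw [he1]
      have := d.ne_zero
      field_simp
      ring
    rw [h2]
    exact hw'
  have hvd : O.valuation (d : F) < 1 := by
    rw [hd]
    exact lt_of_le_of_lt (Valuation.map_sub _ _ _) (max_lt hw hw')
  apply hQ
  refine Q.mul_one_add (w := e) ?_ hed
  refine stepA hp hpv (c := c⁻¹) (by rw [hve]; exact hvd) (by rw [hve]; exact hd2) ?_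
  have h3 : (c : F) ^ p = (1 + (w : F))⁻¹ * (1 + (w' : F)) := by
    rw [← Units.val_pow_eq_pow_val, ← hc', Units.val_mul, Units.val_inv_eq_inv_val, val_oneAdd,
      val_oneAdd]
  rw [Units.val_inv_eq_inv_val, inv_pow, h3, he1, hd]
  field_simp
  ring

/-- the Frobenius map of the residue field is injective -/
lemma frob (hp : p.Prime) (hpv : O.valuation (p : F) < 1) {a b : F} (ha : O.valuation a ≤ 1)
    (hb : O.valuation b ≤ 1) (h : O.valuation (a ^ p - b ^ p) < 1) : O.valuation (a - b) < 1 := by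
  have haO : a ∈ O := (O.valuation_le_one_iff _).1 ha
  have hbO : b ∈ O := (O.valuation_le_one_iff _).1 hb
  have hab : O.valuation (a - b) ≤ 1 := (O.valuation_le_one_iff _).2 (sub_mem haO hbO)
  obtain ⟨r, hr⟩ := exists_add_pow_prime_eq hp (⟨a - b, sub_mem haO hbO⟩ : O) ⟨b, hbO⟩
  have hr' : a ^ p = (a - b) ^ p + b ^ p + p * (a - b) * b * (r : F) := by
    have := congrArg (fun x : O => (x : F)) hr
    push_cast at this
    simpa using this
  have hvr : O.valuation (r : F) ≤ 1 := (O.valuation_le_one_iff _).2 r.2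
  have h1 : O.valuation ((a - b) ^ p) < 1 := by
    have e : (a - b) ^ p = (a ^ p - b ^ p) - p * (a - b) * b * (r : F) := by rw [hr']; ring
    rw [e]
    refine lt_of_le_of_lt (Valuation.map_sub _ _ _) (max_lt h ?_)
    rw [map_mul, map_mul, map_mul]
    refine lt_of_le_of_lt (mul_le_of_le_one_right' hvr) ?_
    refine lt_of_le_of_lt (mul_le_of_le_one_right' hb) ?_
    exact lt_of_le_of_lt (mul_le_of_le_one_right' hab) hpv
  rw [map_pow] at h1
  by_contra hc
  have h2 : O.valuation (a - b) = 1 := le_antisymm hab (not_lt.1 hc)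
  rw [h2, one_pow] at h1
  exact lt_irrefl _ h1

lemma frob_iter (hp : p.Prime) (hpv : O.valuation (p : F) < 1) (i : ℕ) {a b : F}
    (ha : O.valuation a ≤ 1) (hb : O.valuation b ≤ 1)
    (h : O.valuation (a ^ p ^ i - b ^ p ^ i) < 1) : O.valuation (a - b) < 1 := by
  induction i with
  | zero => simpa using h
  | succ i ih =>
    apply ih
    refine frob hp hpv ?_ ?_ ?_
    · rw [map_pow]; exact pow_le_one' ha _
    · rw [map_pow]; exact pow_le_one' hb _
    · rw [← pow_mul, ← pow_mul, ← pow_succ]; exact h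

lemma inv_units (hpv : O.valuation (p : F) < 1)
    (hle : O.toSubring ≤ inv p O) {u : Fˣ} (hu : u ∈ (ValuationSubring.ofLE O (inv p O) hle).unitGroup) :
    ∃ k : ℕ, O.valuation (p : F) ^ k ≤ O.valuation (u : F) ∧
      O.valuation (p : F) ^ k ≤ O.valuation ((u⁻¹ : Fˣ) : F) := by
  have h1 : (u : F) ∈ ValuationSubring.ofLE O (inv p O) hle :=
    (ValuationSubring.valuation_le_one_iff _ _).1 (le_of_eq hu)
  have h2 : ((u⁻¹ : Fˣ) : F) ∈ ValuationSubring.ofLE O (inv p O) hle :=
    (ValuationSubring.valuation_le_one_iff _ _).1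
      (le_of_eq (inv_mem hu : u⁻¹ ∈ (ValuationSubring.ofLE O (inv p O) hle).unitGroup))
  obtain ⟨n, hn⟩ : ∃ n : ℕ, (p : F) ^ n * (u : F) ∈ O := h1
  obtain ⟨m, hm⟩ : ∃ m : ℕ, (p : F) ^ m * ((u⁻¹ : Fˣ) : F) ∈ O := h2
  have key : ∀ (k : ℕ) (x : Fˣ), (p : F) ^ k * (x : F) ∈ O →
      O.valuation (p : F) ^ k ≤ O.valuation ((x⁻¹ : Fˣ) : F) := by
    intro k x hx
    rw [← O.valuation_le_one_iff, map_mul, map_pow] at hx
    rw [Units.val_inv_eq_inv_val, map_inv₀]
    rw [← one_div, le_div_iff₀ (v_pos x)]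
    exact hx
  refine ⟨max n m, ?_, ?_⟩
  · have h3 := key m u⁻¹ hm
    rw [inv_inv] at h3
    exact (pow_le_pow_right_of_le_one' hpv.le (le_max_right n m)).trans h3
  · exact (pow_le_pow_right_of_le_one' hpv.le (le_max_left n m)).trans (key n u hn)

/-- **Coarsening.** -/
theorem coarsen (hp : p.Prime) (hp0 : (p : F) ≠ 0) (hfin : (pwG F p).index ≠ 0)
    {T : Subgroup Fˣ} (hT : pwG F p ≤ T) (hidx : ¬ T.index ∣ p) (O : ValuationSubring F)
    (hone : ∀ x : F, x ∈ O → x⁻¹ ∉ O → ∃ t ∈ T, (t : F) = 1 + x)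
    (hne : O.unitGroup ⊔ T ≠ ⊤) : Gd p T := by
  by_cases hO : (p : F)⁻¹ ∈ O
  · exact ⟨O, hO, hone, hne⟩
  have hpO : (p : F) ∈ O := natCast_mem O p
  have hpv : O.valuation (p : F) < 1 := lt_one hp0 hO
  have hle : O.toSubring ≤ inv p O := by
    intro x hx
    exact ⟨0, by rw [pow_zero, one_mul]; exact hx⟩
  have hTtop : T ≠ ⊤ := by
    rintro rfl
    exact hne (by simp)
  have hfinT : T.index ≠ 0 := fun h => hfin (by
    have := Subgroup.index_dvd_of_le hT
    rw [h] at this
    exact Nat.eq_zero_of_zero_dvd this)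
  set O' := ValuationSubring.ofLE O (inv p O) hle with hO'
  -- it suffices to control the units of `O'`
  suffices hmain : O'.unitGroup ⊔ T ≠ ⊤ by
    refine ⟨O', ⟨1, ?_⟩, ?_, hmain⟩
    · rw [pow_one, mul_inv_cancel₀ hp0]
      exact O.one_mem
    · intro x hx hx'
      have h3 : x⁻¹ ∉ O := fun h4 => hx' (hle h4)
      exact hone x ((O.mem_or_inv_mem x).resolve_right h3) h3
  have hpu : O.valuation (p : F) ≠ 0 := (Valuation.ne_zero_iff _).2 hp0
  -- elements of value at most one are enough
  have hred : ∀ S : Subgroup Fˣ, (∀ (k : ℕ) (x : Fˣ), O.valuation (p : F) ^ k ≤ O.valuation (x : F) →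
      O.valuation (x : F) ≤ 1 → x ∈ S) → O'.unitGroup ≤ S := by
    intro S hS u hu
    obtain ⟨k, h1, h2⟩ := inv_units hpv hle hu
    rcases le_total (O.valuation (u : F)) 1 with h3 | h3
    · exact hS k u h1 h3
    · have h4 := hS k u⁻¹ h2 (by
        rw [Units.val_inv_eq_inv_val, map_inv₀]
        exact inv_le_one_of_one_le₀ h3)
      have := S.inv_mem h4
      rwa [inv_inv] at this
  by_cases hY : ∃ w : Fˣ, O.valuation (p : F) ≤ O.valuation (w : F) ∧ O.valuation (w : F) < 1 ∧
      ¬ Q p O w
  swap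
  · -- all elements between `1` and `p` are `p`-th powers times elements of `1 + m`
    push Not at hY
    have hu : ∀ u : Fˣ, O.valuation (u : F) = 1 → u ∈ T := by
      intro u hu1
      have hpm : Q p O (Units.mk0 (p : F) hp0) :=
        hY _ (by rw [Units.val_mk0]) (by rw [Units.val_mk0]; exact hpv)
      obtain ⟨z, hz⟩ := hpm.val
      rw [Units.val_mk0] at hz
      have h1 : O.valuation ((u * z ^ p : Fˣ) : F) = O.valuation (p : F) := by
        rw [Units.val_mul, Units.val_pow_eq_pow_val, map_mul, map_pow, hu1, one_mul, hz]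
      have h2 := hY (u * z ^ p) h1.ge (by rw [h1]; exact hpv)
      exact Q.mem hT hone h2.of_mul_pow
    have hX : ∀ w : Fˣ, O.valuation (p : F) ≤ O.valuation (w : F) → O.valuation (w : F) ≤ 1 →
        w ∈ T := by
      intro w h1 h2
      rcases h2.lt_or_eq with h3 | h3
      · exact Q.mem hT hone (hY w h1 h3)
      · exact hu w h3
    have hall : O'.unitGroup ≤ T := by
      apply hred
      intro k
      induction k with
      | zero =>
        intro x h1 h2
        rw [pow_zero] at h1
        exact hu x (le_antisymm h2 h1)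
      | succ k ih =>
        intro x h1 h2
        by_cases h3 : O.valuation (p : F) ≤ O.valuation (x : F)
        · exact hX x h3 h2
        · rw [not_le] at h3
          have h4 := ih (x * (Units.mk0 (p : F) hp0)⁻¹) (by
            rw [Units.val_mul, Units.val_inv_eq_inv_val, Units.val_mk0, map_mul, map_inv₀,
              ← div_eq_mul_inv, le_div_iff₀ (zero_lt_iff.2 hpu), ← pow_succ]
            exact h1) (by
            rw [Units.val_mul, Units.val_inv_eq_inv_val, Units.val_mk0, map_mul, map_inv₀,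
              ← div_eq_mul_inv, div_le_one₀ (zero_lt_iff.2 hpu)]
            exact h3.le)
          have h5 := mul_mem h4 (hX (Units.mk0 (p : F) hp0) (by rw [Units.val_mk0])
            (by rw [Units.val_mk0]; exact hpv.le))
          rwa [inv_mul_cancel_right] at h5
    rw [sup_eq_right.2 hall]
    exact hTtop
  · -- there is an element that is not; its values are finite in number
    have hfinV : Finite (Fˣ ⧸ pwG F p) := by
      have : (pwG F p).FiniteIndex := ⟨hfin⟩
      infer_instance
    set S : Set O.ValueGroup := {s | ∃ w : Fˣ, O.valuation (w : F) = s ∧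
      O.valuation (p : F) ≤ O.valuation (w : F) ∧ O.valuation (w : F) < 1 ∧ ¬ Q p O w} with hS
    have hSfin : S.Finite := by
      choose! f hf using fun s (hs : s ∈ S) => hs
      have hflt : ∀ s : S, O.valuation (f s : F) < 1 := fun s => (hf s.1 s.2).2.2.1
      have hinj : Function.Injective
          (fun s : S => (QuotientGroup.mk (oneAdd (f s) (hflt s)) : Fˣ ⧸ pwG F p)) := by
        intro s s' h
        by_contra hss
        have hss' : (s : O.ValueGroup) ≠ s' := fun h => hss (Subtype.ext h)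
        have key : ∀ a b : S, (b : O.ValueGroup) < a →
            (QuotientGroup.mk (oneAdd (f a) (hflt a)) : Fˣ ⧸ pwG F p) ≠
              QuotientGroup.mk (oneAdd (f b) (hflt b)) := by
          intro a b hab
          obtain ⟨ha1, ha2, ha3, ha4⟩ := hf a.1 a.2
          obtain ⟨hb1, hb2, hb3, hb4⟩ := hf b.1 b.2
          have hlt : O.valuation (f b : F) < O.valuation (f a : F) := by rw [ha1, hb1]; exact hab
          have hv : O.valuation ((f a : F) - f b) = O.valuation (f a : F) := by
            rw [sub_eq_add_neg]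
            exact Valuation.map_add_eq_of_lt_left _ (by rw [Valuation.map_neg]; exact hlt)
          have hd0 : (f a : F) - f b ≠ 0 := by
            intro h0
            rw [h0, map_zero] at hv
            exact v_ne (f a) hv.symm
          refine kap_ne hp hpv (hflt a) (hflt b) (d := Units.mk0 _ hd0) (by rw [Units.val_mk0]) ?_ ?_
          · rw [Units.val_mk0, hv]
            exact ha2
          · intro hQ
            apply ha4
            refine hQ.mul_one_add ?_
            rw [Units.val_mk0]
            have e : (f a : F) / ((f a : F) - f b) - 1 = f b / ((f a : F) - f b) := by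
              field_simp
              ring
            rw [e, map_div₀, hv]
            exact (div_lt_one₀ (v_pos (f a))).2 hlt
        rcases lt_or_gt_of_ne hss' with h1 | h1
        · exact key s' s h1 h.symm
        · exact key s s' h1 h
      have : Finite S := Finite.of_injective _ hinj
      exact Set.toFinite S
    obtain ⟨w₁, hw₁⟩ := hY
    have hSne : S.Nonempty := ⟨_, w₁, rfl, hw₁⟩
    obtain ⟨s₀, hs₀, hmax⟩ := Set.exists_max_image S id hSfin hSne
    obtain ⟨π, hπs, hπ1, hπ2, hπ3⟩ := hs₀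
    simp only [id] at hmax
    -- no `p`-th power between `π` and `1`
    have hst : ∀ z : Fˣ, O.valuation (z : F) < 1 → O.valuation (z : F) ^ p ≤ O.valuation (π : F) := by
      intro z hz
      by_contra hc
      rw [not_le] at hc
      have hv : O.valuation ((π * (z⁻¹) ^ p : Fˣ) : F) = O.valuation (π : F) / O.valuation (z : F) ^ p := by
        rw [Units.val_mul, Units.val_pow_eq_pow_val, Units.val_inv_eq_inv_val, map_mul, map_pow,
          map_inv₀, inv_pow, div_eq_mul_inv]
      have hzp : 0 < O.valuation (z : F) ^ p := pow_pos (v_pos z) _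
      have hzp1 : O.valuation (z : F) ^ p < 1 := pow_lt_one₀ zero_le hz hp.ne_zero
      have h1 : O.valuation (π : F) < O.valuation ((π * (z⁻¹) ^ p : Fˣ) : F) := by
        rw [hv, lt_div_iff₀ hzp]
        exact mul_lt_of_lt_one_right (v_pos π) hzp1
      have h2 : O.valuation ((π * (z⁻¹) ^ p : Fˣ) : F) < 1 := by
        rw [hv]
        exact (div_lt_one₀ hzp).2 hc
      have h3 := hmax _ ⟨π * (z⁻¹) ^ p, rfl, hπ1.trans h1.le, h2, fun hQ => hπ3 hQ.of_mul_pow⟩
      rw [← hπs] at h3
      exact absurd h1 (not_lt.2 h3)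
    have hgen : ∀ w : Fˣ, O.valuation (w : F) < 1 → O.valuation (w : F) ≤ O.valuation (π : F) := by
      intro w hw
      by_contra hc
      rw [not_le] at hc
      have hQ : Q p O w := by
        by_contra hQ
        have h3 := hmax _ ⟨w, rfl, hπ1.trans hc.le, hw, hQ⟩
        rw [← hπs] at h3
        exact absurd hc (not_lt.2 h3)
      obtain ⟨z, hz⟩ := hQ.val
      have hz1 : O.valuation (z : F) < 1 := by
        by_contra hc2
        rw [not_lt] at hc2
        have h4 := one_le_pow₀ hc2 (n := p)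
        rw [← hz] at h4
        exact absurd hw (not_lt.2 h4)
      have h5 := hst z hz1
      rw [← hz] at h5
      exact absurd hc (not_lt.2 h5)
    have hnv : ∀ z : Fˣ, O.valuation (π : F) ≠ O.valuation (z : F) ^ p := by
      intro z hz
      have hz1 : O.valuation (z : F) < 1 := by
        by_contra hc2
        rw [not_lt] at hc2
        have h4 := one_le_pow₀ hc2 (n := p)
        rw [← hz] at h4
        exact absurd hπ2 (not_lt.2 h4)
      have h1 := hgen z hz1
      have h2 : O.valuation (z : F) ^ p ≤ O.valuation (π : F) ^ p :=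
        pow_le_pow_left' h1 p
      have h3 : O.valuation (π : F) ^ p < O.valuation (π : F) := by
        conv_rhs => rw [← pow_one (O.valuation (π : F))]
        exact pow_lt_pow_right_of_lt_one₀ (v_pos π) hπ2 hp.one_lt
      rw [← hz] at h2
      exact absurd h3 (not_lt.2 h2)
    have hnvi : ∀ i : ℕ, ¬ p ∣ i → ∀ z : Fˣ, O.valuation (π : F) ^ i ≠ O.valuation (z : F) ^ p := by
      intro i hi z hz
      have h1 : IsCoprime (i : ℤ) (p : ℤ) := by
        rw [Nat.isCoprime_iff_coprime]
        exact (hp.coprime_iff_not_dvd.2 hi).symm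
      obtain ⟨a, b, hab⟩ := h1
      apply hnv (z ^ a * π ^ b)
      have h2 : (O.valuation (π : F)) ^ (a * i + b * p : ℤ) = O.valuation (π : F) := by
        rw [hab, zpow_one]
      have h3 : (O.valuation (π : F)) ^ (a * i : ℤ) = (O.valuation (z : F) ^ a) ^ p := by
        rw [mul_comm, zpow_mul, zpow_natCast, hz, ← zpow_natCast, ← zpow_mul, mul_comm, zpow_mul,
          zpow_natCast]
      have h4 : (O.valuation (π : F)) ^ (b * p : ℤ) = (O.valuation (π : F) ^ b) ^ p := by
        rw [zpow_mul, zpow_natCast]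
      rw [zpow_add₀ (v_ne π), h3, h4, ← mul_pow] at h2
      rw [← h2, Units.val_mul, Units.val_zpow_eq_zpow_val, Units.val_zpow_eq_zpow_val, map_mul,
        map_zpow₀, map_zpow₀]
    have hsmall : ∃ i : ℕ, O.valuation (π : F) ^ i < O.valuation (p : F) := by
      by_contra hc
      push Not at hc
      have hmem : ∀ j : ℕ, O.valuation (π : F) ^ (p * j + 1) ∈ S := by
        intro j
        refine ⟨π ^ (p * j + 1), by rw [Units.val_pow_eq_pow_val, map_pow], ?_, ?_, ?_⟩
        · rw [Units.val_pow_eq_pow_val, map_pow]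
          exact hc _
        · rw [Units.val_pow_eq_pow_val, map_pow]
          exact pow_lt_one₀ zero_le hπ2 (by omega)
        · intro hQ
          obtain ⟨z, hz⟩ := hQ.val
          rw [Units.val_pow_eq_pow_val, map_pow] at hz
          refine hnvi _ ?_ z hz
          intro hd
          have : p ∣ 1 := (Nat.dvd_add_right (Dvd.intro j rfl)).1 hd
          exact hp.one_lt.ne' (Nat.dvd_one.1 this)
      have hinj : Function.Injective (fun j : ℕ => O.valuation (π : F) ^ (p * j + 1)) := by
        intro j j' h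
        have h1 := (pow_right_strictAnti₀ (v_pos π) hπ2).injective h
        have h2 : p * j = p * j' := by omega
        exact Nat.eq_of_mul_eq_mul_left hp.pos h2
      exact Set.infinite_of_injective_forall_mem hinj hmem hSfin
    obtain ⟨i₀, hi₀⟩ := hsmall
    -- units
    have hu : ∀ u : Fˣ, O.valuation (u : F) = 1 → u ∈ T := by
      intro u hu1
      refine Q.mem hT hone (O := O) ?_
      have hvw : ∀ j : ℕ, O.valuation ((π * u ^ p ^ j : Fˣ) : F) = O.valuation (π : F) := by
        intro j
        rw [Units.val_mul, Units.val_pow_eq_pow_val, map_mul, map_pow, hu1, one_pow, mul_one]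
      have hvlt : ∀ j : ℕ, O.valuation ((π * u ^ p ^ j : Fˣ) : F) < 1 := fun j => by
        rw [hvw]; exact hπ2
      obtain ⟨i, j, hij, hcl⟩ := Finite.exists_ne_map_eq_of_infinite
        (fun j : ℕ => (QuotientGroup.mk (oneAdd _ (hvlt j)) : Fˣ ⧸ pwG F p))
      -- two powers are congruent
      have hcong : ∀ i j : ℕ, i < j →
          (QuotientGroup.mk (oneAdd _ (hvlt i)) : Fˣ ⧸ pwG F p) =
            QuotientGroup.mk (oneAdd _ (hvlt j)) → Q p O u := by
        intro i j hij hcl
        have h1 : O.valuation ((u : F) ^ p ^ i - (u : F) ^ p ^ j) < 1 := by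
          by_contra hc
          have hle1 : O.valuation ((u : F) ^ p ^ i - (u : F) ^ p ^ j) ≤ 1 := by
            refine (Valuation.map_sub _ _ _).trans (max_le ?_ ?_)
            · rw [map_pow, hu1, one_pow]
            · rw [map_pow, hu1, one_pow]
          have h2 : O.valuation ((u : F) ^ p ^ i - (u : F) ^ p ^ j) = 1 :=
            le_antisymm hle1 (not_lt.1 hc)
          have h0 : (u : F) ^ p ^ i - (u : F) ^ p ^ j ≠ 0 := by
            intro h0
            rw [h0, map_zero] at h2
            exact zero_ne_one h2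
          have hvd : O.valuation ((π * Units.mk0 _ h0 : Fˣ) : F) = O.valuation (π : F) := by
            rw [Units.val_mul, Units.val_mk0, map_mul, h2, mul_one]
          refine kap_ne hp hpv (hvlt i) (hvlt j) (d := π * Units.mk0 _ h0) ?_ ?_ ?_ hcl
          · rw [Units.val_mul, Units.val_mk0, Units.val_mul, Units.val_mul,
              Units.val_pow_eq_pow_val, Units.val_pow_eq_pow_val]
            ring
          · rw [hvd]; exact hπ1
          · intro hQ
            obtain ⟨z, hz⟩ := hQ.val
            rw [hvd] at hz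
            exact hnv z hz
        obtain ⟨d, rfl⟩ : ∃ d, j = i + (d + 1) := ⟨j - i - 1, by omega⟩
        have h2 : O.valuation ((u : F) - (u : F) ^ p ^ (d + 1)) < 1 := by
          refine frob_iter hp hpv i hu1.le (by rw [map_pow, hu1, one_pow]) ?_
          rw [← pow_mul, ← pow_add, add_comm (d + 1) i]
          exact h1
        refine ⟨u ^ p ^ d, ?_⟩
        have e : ((u ^ p ^ d : Fˣ) : F) ^ p = (u : F) ^ p ^ (d + 1) := by
          rw [Units.val_pow_eq_pow_val, ← pow_mul, ← pow_succ]
        have e2 : (u : F) / (u : F) ^ p ^ (d + 1) - 1 =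
            ((u : F) - (u : F) ^ p ^ (d + 1)) / (u : F) ^ p ^ (d + 1) := by
          rw [sub_div, div_self (pow_ne_zero _ u.ne_zero)]
        rw [e, e2, map_div₀, map_pow, hu1, one_pow, div_one]
        exact h2
      rcases lt_or_gt_of_ne hij with h | h
      · exact hcong i j h hcl
      · exact hcong j i h hcl.symm
    have hall : ∀ (N : ℕ) (x : Fˣ), O.valuation (π : F) ^ N ≤ O.valuation (x : F) →
        O.valuation (x : F) ≤ 1 → x ∈ Subgroup.zpowers π ⊔ T := by
      intro N
      induction N with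
      | zero =>
        intro x h1 h2
        rw [pow_zero] at h1
        exact Subgroup.mem_sup_right (hu x (le_antisymm h2 h1))
      | succ N ih =>
        intro x h1 h2
        rcases h2.lt_or_eq with h3 | h3
        · have h4 := hgen x h3
          have h5 := ih (x * π⁻¹) (by
            rw [Units.val_mul, Units.val_inv_eq_inv_val, map_mul, map_inv₀,
              ← div_eq_mul_inv, le_div_iff₀ (v_pos π), ← pow_succ]
            exact h1) (by
            rw [Units.val_mul, Units.val_inv_eq_inv_val, map_mul, map_inv₀,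
              ← div_eq_mul_inv, div_le_one₀ (v_pos π)]
            exact h4)
          have h6 := mul_mem h5 (Subgroup.mem_sup_left (T := T) (Subgroup.mem_zpowers π))
          rwa [inv_mul_cancel_right] at h6
        · exact Subgroup.mem_sup_right (hu x h3)
    have hall' : O'.unitGroup ≤ Subgroup.zpowers π ⊔ T := by
      apply hred
      intro k x h1 h2
      refine hall (i₀ * k) x ?_ h2
      refine le_trans ?_ h1
      rw [pow_mul]
      exact pow_le_pow_left' hi₀.le k
    intro htop
    apply hidx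
    have h1 : Subgroup.zpowers π ⊔ T = ⊤ := by
      rw [eq_top_iff, ← htop]
      exact sup_le hall' le_sup_right
    have hgenq : Subgroup.zpowers (QuotientGroup.mk π : Fˣ ⧸ T) = ⊤ := by
      rw [eq_top_iff]
      intro x _
      obtain ⟨x, rfl⟩ := QuotientGroup.mk_surjective x
      have hx : x ∈ Subgroup.zpowers π ⊔ T := by rw [h1]; trivial
      obtain ⟨y, hy, t, ht, rfl⟩ := Subgroup.mem_sup.1 hx
      obtain ⟨n, rfl⟩ := Subgroup.mem_zpowers_iff.1 hy
      refine Subgroup.mem_zpowers_iff.2 ⟨n, ?_⟩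
      rw [← QuotientGroup.mk_zpow, QuotientGroup.eq, inv_mul_cancel_left]
      exact ht
    rw [Subgroup.index, ← orderOf_eq_card_of_zpowers_eq_top hgenq]
    apply orderOf_dvd_of_pow_eq_one
    rw [← QuotientGroup.mk_pow, QuotientGroup.eq_one_iff]
    exact hT ⟨π, rfl⟩

end

end Pool.Agent.V7H55.ET
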