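import Mathlib
import Pool.Agent.V7H55.ET.Coarse

set_option autoImplicit false

/-!
# Symbols of elements close to `1`

Let `p ∈ O*`, `1 + m ⊆ T`, `O* T ≠ F*`, and let `T₀ ⊆ T` be a subgroup of finite index which contains
`F*^p` and for which there is no such valuation ring. Then some `a ∈ T`, `a ∉ T₀`, is so close to `1`
that the elements `1 - a c^p` represent all classes modulo `T`.
-/

namespace Pool.Agent.V7H55.ET

open Pool.Agent.Y920.EP
open Pool.Agent.Y232.EP (lt_one of_lt_one)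

section

variable {F : Type} [Field F] {p : ℕ} {O : ValuationSubring F}

/-- the subring of the fractions with denominators in `M` -/
def loc (O : ValuationSubring F) (M : Submonoid Fˣ) (hM : ∀ a ∈ M, (a : F) ∈ O) : Subring F where
  carrier := {x | ∃ n ∈ M, (n : F) * x ∈ O}
  mul_mem' := by
    rintro a b ⟨n, hnM, hn⟩ ⟨m, hmM, hm⟩
    refine ⟨n * m, M.mul_mem hnM hmM, ?_⟩
    have e : ((n * m : Fˣ) : F) * (a * b) = n * a * (m * b) := by push_cast; ring
    rw [e]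
    exact O.mul_mem _ _ hn hm
  one_mem' := ⟨1, M.one_mem, by rw [Units.val_one, mul_one]; exact O.one_mem⟩
  add_mem' := by
    rintro a b ⟨n, hnM, hn⟩ ⟨m, hmM, hm⟩
    refine ⟨n * m, M.mul_mem hnM hmM, ?_⟩
    have e : ((n * m : Fˣ) : F) * (a + b) = m * (n * a) + n * (m * b) := by push_cast; ring
    rw [e]
    exact O.add_mem _ _ (O.mul_mem _ _ (hM m hmM) hn) (O.mul_mem _ _ (hM n hnM) hm)
  zero_mem' := ⟨1, M.one_mem, by rw [mul_zero]; exact O.zero_mem⟩
  neg_mem' := by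
    rintro a ⟨n, hnM, hn⟩
    refine ⟨n, hnM, ?_⟩
    rw [mul_neg]
    exact O.neg_mem _ hn

/-- all elements of `1 + ρ O` are in `T` -/
def Thin (O : ValuationSubring F) (T : Subgroup Fˣ) (ρ : Fˣ) : Prop :=
  ∀ u : Fˣ, O.valuation ((u : F) - 1) ≤ O.valuation (ρ : F) → u ∈ T

lemma Thin.mono {T : Subgroup Fˣ} {ρ ρ' : Fˣ} (h : Thin O T ρ)
    (h' : O.valuation (ρ' : F) ≤ O.valuation (ρ : F)) : Thin O T ρ' :=
  fun u hu => h u (hu.trans h')

lemma v_p (hpO : (p : F)⁻¹ ∈ O) (hp0 : (p : F) ≠ 0) : O.valuation (p : F) = 1 := by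
  refine le_antisymm ((O.valuation_le_one_iff _).2 (natCast_mem O p)) ?_
  have h1 := (O.valuation_le_one_iff _).2 hpO
  rw [map_inv₀] at h1
  exact (inv_le_one₀ (zero_lt_iff.2 ((Valuation.ne_zero_iff _).2 hp0))).1 h1

/-- `(1 + x)^p = 1 + p x + k x²` -/
lemma pow_exp {x : F} (hx : O.valuation x ≤ 1) :
    ∃ k : F, O.valuation k ≤ 1 ∧ (1 + x) ^ p = 1 + p * x + k * x ^ 2 := by
  obtain ⟨k, hk⟩ := Polynomial.powAddExpansion (1 : O) ⟨x, (O.valuation_le_one_iff _).1 hx⟩ p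
  refine ⟨k, (O.valuation_le_one_iff _).2 k.2, ?_⟩
  have := congrArg (fun x : O => (x : F)) hk
  push_cast at this
  simpa using this

/-- `1 + z² O ⊆ T` implies `1 + z O ⊆ T` -/
lemma thin_sq (hpO : (p : F)⁻¹ ∈ O) (hp0 : (p : F) ≠ 0) {T : Subgroup Fˣ} (hT : pwG F p ≤ T)
    {z : Fˣ} (hz : O.valuation (z : F) < 1) (h : Thin O T (z * z)) : Thin O T z := by
  intro u hu
  have hvp := v_p hpO hp0
  set y : F := (u : F) - 1 with hy
  have hyp : O.valuation (y / p) = O.valuation y := by rw [map_div₀, hvp, div_one]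
  have hy1 : O.valuation (y / p) < 1 := by rw [hyp]; exact lt_of_le_of_lt hu hz
  obtain ⟨k, hk, e⟩ := pow_exp (p := p) hy1.le
  have hc0 : (1 : F) + y / p ≠ 0 := by
    intro h0
    have h1 := v_one_add hy1
    rw [h0, map_zero] at h1
    exact zero_ne_one h1
  set c : Fˣ := Units.mk0 _ hc0 with hc
  have hu1 : O.valuation (u : F) = 1 := v_eq_of_sub_one (lt_of_le_of_lt hu hz)
  have hu0 := u.ne_zero
  have h1 : c ^ p * u⁻¹ ∈ T := by
    apply h
    have e2 : ((c ^ p * u⁻¹ : Fˣ) : F) - 1 = k * (y / p) ^ 2 / u := by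
      rw [Units.val_mul, Units.val_pow_eq_pow_val, Units.val_inv_eq_inv_val, hc, Units.val_mk0, e,
        mul_div_cancel₀ _ hp0]
      have : (u : F) = 1 + y := by rw [hy]; ring
      rw [← this]
      field_simp
      ring
    rw [e2, map_div₀, hu1, div_one, map_mul, map_pow, hyp, Units.val_mul, map_mul, ← pow_two]
    exact (mul_le_of_le_one_left' hk).trans (pow_le_pow_left' hu 2)
  have h2 : c ^ p ∈ T := hT ⟨c, rfl⟩
  have h3 := mul_mem (inv_mem h1) h2
  have e3 : (c ^ p * u⁻¹)⁻¹ * c ^ p = u := by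
    rw [mul_inv, inv_inv, mul_comm, ← mul_assoc, mul_inv_cancel, one_mul]
  rwa [e3] at h3

variable (O) in
/-- elements of the maximal ideal that are not thin -/
def NT (T : Subgroup Fˣ) (z : Fˣ) : Prop := O.valuation (z : F) < 1 ∧ ¬ Thin O T z

lemma NT.mul (hpO : (p : F)⁻¹ ∈ O) (hp0 : (p : F) ≠ 0) {T : Subgroup Fˣ} (hT : pwG F p ≤ T)
    {z z' : Fˣ} (h : NT O T z) (h' : NT O T z') : NT O T (z * z') := by
  refine ⟨?_, fun hth => ?_⟩
  · rw [Units.val_mul, map_mul]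
    exact mul_lt_one_of_lt_of_le h.1 h'.1.le
  · rcases le_total (O.valuation (z' : F)) (O.valuation (z : F)) with h1 | h1
    · apply h'.2
      apply thin_sq hpO hp0 hT h'.1
      refine hth.mono ?_
      rw [Units.val_mul, Units.val_mul, map_mul, map_mul]
      exact mul_le_mul' h1 le_rfl
    · apply h.2
      apply thin_sq hpO hp0 hT h.1
      refine hth.mono ?_
      rw [Units.val_mul, Units.val_mul, map_mul, map_mul]
      exact mul_le_mul' le_rfl h1

/-- the denominators -/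
def den (hpO : (p : F)⁻¹ ∈ O) (hp0 : (p : F) ≠ 0) {T : Subgroup Fˣ} (hT : pwG F p ≤ T) :
    Submonoid Fˣ where
  carrier := {z | z = 1 ∨ NT O T z}
  one_mem' := Or.inl rfl
  mul_mem' := by
    rintro a b (rfl | ha) (rfl | hb)
    · exact Or.inl (one_mul _)
    · rw [one_mul]; exact Or.inr hb
    · rw [mul_one]; exact Or.inr ha
    · exact Or.inr (ha.mul hpO hp0 hT hb)

lemma den_le {hpO : (p : F)⁻¹ ∈ O} {hp0 : (p : F) ≠ 0} {T : Subgroup Fˣ} {hT : pwG F p ≤ T}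
    {a : Fˣ} (ha : a ∈ den hpO hp0 hT) : O.valuation (a : F) ≤ 1 := by
  rcases ha with rfl | ha
  · rw [Units.val_one, map_one]
  · exact ha.1.le

lemma NT.mul_den {hpO : (p : F)⁻¹ ∈ O} {hp0 : (p : F) ≠ 0} {T : Subgroup Fˣ} {hT : pwG F p ≤ T}
    {a z : Fˣ} (hz : NT O T z) (ha : a ∈ den hpO hp0 hT) : NT O T (a * z) := by
  rcases ha with rfl | ha
  · rw [one_mul]; exact hz
  · exact ha.mul hpO hp0 hT hz

lemma NT.pow (hpO : (p : F)⁻¹ ∈ O) (hp0 : (p : F) ≠ 0) {T : Subgroup Fˣ} (hT : pwG F p ≤ T)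
    {z : Fˣ} (h : NT O T z) (n : ℕ) : NT O T (z ^ (n + 1)) := by
  induction n with
  | zero => rwa [zero_add, pow_one]
  | succ n ih => rw [pow_succ]; exact ih.mul hpO hp0 hT h

/-- all classes modulo `T₀` contain elements that are not thin -/
lemma exists_rep (hp : p.Prime) (hpO : (p : F)⁻¹ ∈ O) (hp0 : (p : F) ≠ 0) {T₀ : Subgroup Fˣ}
    (hT : pwG F p ≤ T₀) (hnot : ¬ Gd p T₀) (hne : O.unitGroup ⊔ T₀ ≠ ⊤) :
    (∃ z, NT O T₀ z) ∧ ∀ b : Fˣ, ∃ γ : Fˣ, NT O T₀ γ ∧ γ * b⁻¹ ∈ T₀ := by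
  have hex : ∃ z, NT O T₀ z := by
    by_contra hc
    push Not at hc
    apply hnot
    refine ⟨O, hpO, ?_, hne⟩
    intro x hx hx'
    have hx0 : x ≠ 0 := by
      rintro rfl
      exact hx' (by rw [inv_zero]; exact O.zero_mem)
    have hv : O.valuation ((Units.mk0 x hx0 : Fˣ) : F) < 1 := lt_one hx0 hx'
    have hth : Thin O T₀ (Units.mk0 x hx0) := by
      by_contra hth
      exact hc (Units.mk0 x hx0) ⟨hv, hth⟩
    refine ⟨oneAdd (Units.mk0 x hx0) hv, hth _ ?_, val_oneAdd _ _⟩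
    rw [val_oneAdd, add_sub_cancel_left]
  refine ⟨hex, ?_⟩
  obtain ⟨z₀, hz₀⟩ := hex
  set M := den hpO hp0 hT with hM
  have hMO : ∀ a ∈ M, (a : F) ∈ O := fun a ha => (O.valuation_le_one_iff _).1 (den_le ha)
  have hle : O.toSubring ≤ loc O M hMO := by
    intro x hx
    exact ⟨1, M.one_mem, by rw [Units.val_one, one_mul]; exact hx⟩
  set O' := ValuationSubring.ofLE O (loc O M hMO) hle with hO'
  have htop : O'.unitGroup ⊔ T₀ = ⊤ := by
    by_contra hne'
    apply hnot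
    refine ⟨O', hle hpO, ?_, hne'⟩
    intro x hx hx'
    have hx0 : x ≠ 0 := by
      rintro rfl
      exact hx' (by rw [inv_zero]; exact O'.zero_mem)
    have h3 : x⁻¹ ∉ O := fun h4 => hx' (hle h4)
    have hv : O.valuation ((Units.mk0 x hx0 : Fˣ) : F) < 1 := lt_one hx0 h3
    have hth : Thin O T₀ (Units.mk0 x hx0) := by
      by_contra hth
      apply hx'
      refine ⟨Units.mk0 x hx0, Or.inr ⟨hv, hth⟩, ?_⟩
      rw [Units.val_mk0, mul_inv_cancel₀ hx0]
      exact O.one_mem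
    refine ⟨oneAdd (Units.mk0 x hx0) hv, hth _ ?_, val_oneAdd _ _⟩
    rw [val_oneAdd, add_sub_cancel_left]
  intro b
  have hb : b ∈ O'.unitGroup ⊔ T₀ := by rw [htop]; trivial
  obtain ⟨g, hg, t, ht, rfl⟩ := Subgroup.mem_sup.1 hb
  have h1 : (g : F) ∈ O' := (ValuationSubring.valuation_le_one_iff _ _).1 (le_of_eq hg)
  have h2 : ((g⁻¹ : Fˣ) : F) ∈ O' := (ValuationSubring.valuation_le_one_iff _ _).1
    (le_of_eq (inv_mem hg : g⁻¹ ∈ O'.unitGroup))
  obtain ⟨n, hnM, hn⟩ : ∃ n ∈ M, (n : F) * g ∈ O := h1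
  obtain ⟨m, hmM, hm⟩ : ∃ m ∈ M, (m : F) * ((g⁻¹ : Fˣ) : F) ∈ O := h2
  rw [← O.valuation_le_one_iff, map_mul] at hn hm
  set s : Fˣ := n * (m * z₀) with hs
  have hsN : NT O T₀ s := (hz₀.mul_den hmM).mul_den hnM
  obtain ⟨q, hq⟩ : ∃ q, p = q + 1 := ⟨p - 1, by have := hp.pos; omega⟩
  have hsp : NT O T₀ (s ^ p) := by rw [hq]; exact hsN.pow hpO hp0 hT q
  have hmsp : NT O T₀ (m * s ^ p) := hsp.mul_den hmM
  have hvm := v_pos (O := O) m
  have hvg := v_pos (O := O) g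
  refine ⟨g * s ^ p, ⟨?_, fun hth => ?_⟩, ?_⟩
  · -- the value
    have h3 : O.valuation (s : F) ≤ O.valuation (n : F) := by
      rw [hs, Units.val_mul, map_mul]
      refine mul_le_of_le_one_right' ?_
      rw [Units.val_mul, map_mul]
      exact mul_le_one' (den_le hmM) hz₀.1.le
    rw [Units.val_mul, Units.val_pow_eq_pow_val, map_mul, map_pow, hq, pow_succ',
      ← mul_assoc]
    have h4 : O.valuation (g : F) * O.valuation (s : F) ≤ 1 := by
      refine (mul_le_mul' le_rfl h3).trans ?_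
      rw [mul_comm]
      exact hn
    have hq0 : q ≠ 0 := by
      rintro rfl
      have := hp.two_le
      omega
    exact lt_of_le_of_lt (mul_le_of_le_one_left' h4) (pow_lt_one₀ zero_le hsN.1 hq0)
  · apply hmsp.2
    refine hth.mono ?_
    rw [Units.val_mul, Units.val_mul, map_mul, map_mul]
    refine mul_le_mul' ?_ le_rfl
    rw [Units.val_inv_eq_inv_val, map_inv₀, ← div_eq_mul_inv] at hm
    exact (div_le_one₀ hvg).1 hm
  · have h5 : s ^ p ∈ T₀ := hT ⟨s, rfl⟩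
    have e : g * s ^ p * (g * t)⁻¹ = s ^ p * t⁻¹ := by
      rw [mul_inv]
      calc g * s ^ p * (g⁻¹ * t⁻¹) = (g * g⁻¹) * (s ^ p * t⁻¹) := by
            rw [mul_mul_mul_comm]
        _ = s ^ p * t⁻¹ := by rw [mul_inv_cancel, one_mul]
    rw [e]
    exact mul_mem h5 (inv_mem ht)

/-- **Symbols of elements close to `1`.** -/
theorem key (hp : p.Prime) (hp0 : (p : F) ≠ 0) {T₀ T : Subgroup Fˣ} (hT₀ : pwG F p ≤ T₀)
    (hfin : T₀.index ≠ 0) (hle : T₀ ≤ T) (hnot : ¬ Gd p T₀) (hpO : (p : F)⁻¹ ∈ O)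
    (hone : ∀ x : F, x ∈ O → x⁻¹ ∉ O → ∃ t ∈ T, (t : F) = 1 + x) (hne : O.unitGroup ⊔ T ≠ ⊤) :
    ∃ a ∈ T, a ∉ T₀ ∧ ∀ b : Fˣ, ∃ c w : Fˣ, (w : F) = 1 - (a : F) * (c : F) ^ p ∧
      w * b⁻¹ ∈ T := by
  have hne₀ : O.unitGroup ⊔ T₀ ≠ ⊤ := by
    intro h
    apply hne
    rw [eq_top_iff, ← h]
    exact sup_le_sup_left hle _
  obtain ⟨⟨z₀, hz₀⟩, hrep⟩ := exists_rep hp hpO hp0 hT₀ hnot hne₀
  have hfinq : Finite (Fˣ ⧸ T₀) := by
    have : T₀.FiniteIndex := ⟨hfin⟩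
    infer_instance
  have : Fintype (Fˣ ⧸ T₀) := Fintype.ofFinite _
  choose γ hγ1 hγ2 using fun q : Fˣ ⧸ T₀ => hrep q.out
  -- one element smaller than all of them
  have hρ : ∀ s : Finset (Fˣ ⧸ T₀), NT O T₀ (z₀ * ∏ q ∈ s, γ q) ∧
      ∀ q ∈ s, O.valuation ((z₀ * ∏ q ∈ s, γ q : Fˣ) : F) ≤
        O.valuation (z₀ : F) * O.valuation (γ q : F) := by
    classical
    intro s
    induction s using Finset.induction_on with
    | empty => exact ⟨by rw [Finset.prod_empty, mul_one]; exact hz₀, by simp⟩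
    | insert r s hr ih =>
      obtain ⟨ih1, ih2⟩ := ih
      have e : z₀ * ∏ q ∈ insert r s, γ q = γ r * (z₀ * ∏ q ∈ s, γ q) := by
        rw [Finset.prod_insert hr]
        exact mul_left_comm _ _ _
      rw [e]
      refine ⟨(hγ1 r).mul hpO hp0 hT₀ ih1, ?_⟩
      intro q hq
      rw [Units.val_mul, map_mul]
      rcases Finset.mem_insert.1 hq with rfl | hq
      · rw [mul_comm]
        refine mul_le_mul' ?_ le_rfl
        rw [Units.val_mul, map_mul]
        refine mul_le_of_le_one_right' ?_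
        rw [Units.coe_prod, map_prod]
        exact Finset.prod_le_one' fun i _ => (hγ1 i).1.le
      · exact (mul_le_of_le_one_left' (hγ1 r).1.le).trans (ih2 q hq)
  obtain ⟨hρ1, hρ2⟩ := hρ Finset.univ
  set ρ : Fˣ := z₀ * ∏ q, γ q with hρdef
  obtain ⟨a, ha1, ha2⟩ : ∃ a : Fˣ, O.valuation ((a : F) - 1) ≤ O.valuation (ρ : F) ∧ a ∉ T₀ := by
    have := hρ1.2
    unfold Thin at this
    push Not at this
    exact this
  -- elements of `1 + m`
  have hmem : ∀ u : Fˣ, O.valuation ((u : F) - 1) < 1 → u ∈ T := by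
    intro u hu
    by_cases h0 : (u : F) - 1 = 0
    · have : u = 1 := Units.ext (by rw [Units.val_one]; linear_combination h0)
      rw [this]
      exact one_mem _
    · obtain ⟨t, ht, ht1⟩ := hone _ ((O.valuation_le_one_iff _).1 hu.le) (of_lt_one h0 hu)
      have : u = t := Units.ext (by rw [ht1]; ring)
      rw [this]
      exact ht
  refine ⟨a, hmem a (lt_of_le_of_lt ha1 hρ1.1), ha2, ?_⟩
  intro b
  have hvp := v_p hpO hp0
  set pu : Fˣ := Units.mk0 (p : F) hp0 with hpu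
  set g : Fˣ := γ (QuotientGroup.mk (-(b * pu⁻¹))) with hg
  have hg1 : NT O T₀ g := hγ1 _
  have hg2 : g * (-(b * pu⁻¹))⁻¹ ∈ T₀ := by
    have h1 := hγ2 (QuotientGroup.mk (-(b * pu⁻¹)))
    have h2 : (QuotientGroup.mk (-(b * pu⁻¹)) : Fˣ ⧸ T₀).out⁻¹ * (-(b * pu⁻¹)) ∈ T₀ := by
      rw [← QuotientGroup.eq, QuotientGroup.out_eq']
    have h3 := mul_mem h1 (inv_mem h2)
    rw [mul_inv, inv_inv] at h3
    have e : γ (QuotientGroup.mk (-(b * pu⁻¹))) *
        (QuotientGroup.mk (-(b * pu⁻¹)) : Fˣ ⧸ T₀).out⁻¹ *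
        ((QuotientGroup.mk (-(b * pu⁻¹)) : Fˣ ⧸ T₀).out * (-(b * pu⁻¹))⁻¹) =
        γ (QuotientGroup.mk (-(b * pu⁻¹))) * (-(b * pu⁻¹))⁻¹ := by
      rw [mul_assoc, inv_mul_cancel_left]
    rwa [e] at h3
  have hρg : O.valuation (ρ : F) ≤ O.valuation (z₀ : F) * O.valuation (g : F) :=
    hρ2 _ (Finset.mem_univ _)
  obtain ⟨k, hk, hexp⟩ := pow_exp (p := p) hg1.1.le
  set c : Fˣ := oneAdd g hg1.1 with hc
  have hc1 : (c : F) = 1 + g := val_oneAdd _ _
  have hvc : O.valuation (c : F) = 1 := by rw [hc1]; exact v_one_add hg1.1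
  set e : F := k * g / p + ((a : F) - 1) * (c : F) ^ p / (p * g) with he
  have hg0 := g.ne_zero
  have hve : O.valuation e < 1 := by
    rw [he]
    refine lt_of_le_of_lt (Valuation.map_add _ _ _) (max_lt ?_ ?_)
    · rw [map_div₀, hvp, div_one, map_mul]
      exact lt_of_le_of_lt (mul_le_of_le_one_left' hk) hg1.1
    · rw [map_div₀, map_mul, map_mul, map_pow, hvc, one_pow, mul_one, hvp, one_mul]
      refine lt_of_le_of_lt ?_ hz₀.1
      rw [div_le_iff₀ (v_pos g)]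
      exact ha1.trans hρg
  have h1e : (1 : F) + e ≠ 0 := by
    intro h0
    have h1 := v_one_add hve
    rw [h0, map_zero] at h1
    exact zero_ne_one h1
  have hw : 1 - (a : F) * (c : F) ^ p = -((p : F) * g) * (1 + e) := by
    have h1 : (p : F) * g * e = k * (g : F) ^ 2 + ((a : F) - 1) * (c : F) ^ p := by
      rw [he]
      field_simp
    have h2 : (c : F) ^ p = 1 + p * g + k * (g : F) ^ 2 := by rw [hc1, hexp]
    linear_combination h1 - h2
  refine ⟨c, -(pu * g) * Units.mk0 _ h1e, ?_, ?_⟩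
  · rw [hw, Units.val_mul, Units.val_neg, Units.val_mul, Units.val_mk0, Units.val_mk0]
  · have h1 : Units.mk0 _ h1e ∈ T := by
      apply hmem
      rw [Units.val_mk0, add_sub_cancel_left]
      exact hve
    have e2 : -(pu * g) * Units.mk0 _ h1e * b⁻¹ = (g * (-(b * pu⁻¹))⁻¹) * Units.mk0 _ h1e := by
      rw [inv_neg, mul_inv, inv_inv]
      apply Units.ext
      push_cast
      ring
    rw [e2]
    exact mul_mem (hle hg2) h1

end

end Pool.Agent.V7H55.ET
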