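import Mathlib
import Pool.Agent.N908.FR.Fld
import Pool.Agent.V7H55.ET.Key

set_option autoImplicit false

/-!
# Steinberg symbols that vanish on a subgroup
-/

namespace Pool.Agent.V7H55.ET

open Pool.Agent.Y920.EP
open Pool.Agent.N908.FR (IsSymbol)

/-- the Steinberg symbols `F* × F* → ℤ/p` which vanish on `T × F*` -/
def Sym (p : ℕ) {F : Type} [Field F] (T : Subgroup Fˣ) : AddSubgroup (Fˣ → Fˣ → ZMod p) where
  carrier := {c | (∀ a b x : Fˣ, c (a * b) x = c a x + c b x) ∧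
    (∀ x a b : Fˣ, c x (a * b) = c x a + c x b) ∧ (∀ x y : Fˣ, (x : F) + y = 1 → c x y = 0) ∧
    ∀ x ∈ T, ∀ y, c x y = 0}
  add_mem' := by
    rintro c d ⟨h1, h2, h3, h4⟩ ⟨k1, k2, k3, k4⟩
    refine ⟨fun a b x => ?_, fun x a b => ?_, fun x y h => ?_, fun x hx y => ?_⟩
    · simp only [Pi.add_apply, h1, k1]; ring
    · simp only [Pi.add_apply, h2, k2]; ring
    · simp only [Pi.add_apply, h3 x y h, k3 x y h, add_zero]
    · simp only [Pi.add_apply, h4 x hx, k4 x hx, add_zero]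
  zero_mem' := ⟨fun _ _ _ => by simp, fun _ _ _ => by simp, fun _ _ _ => rfl, fun _ _ _ => rfl⟩
  neg_mem' := by
    rintro c ⟨h1, h2, h3, h4⟩
    refine ⟨fun a b x => ?_, fun x a b => ?_, fun x y h => ?_, fun x hx y => ?_⟩
    · simp only [Pi.neg_apply, h1]; ring
    · simp only [Pi.neg_apply, h2]; ring
    · simp only [Pi.neg_apply, h3 x y h, neg_zero]
    · simp only [Pi.neg_apply, h4 x hx, neg_zero]

section

variable {p : ℕ} [Fact p.Prime] {F : Type} [Field F] {T : Subgroup Fˣ}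

lemma Sym.isSymbol {c : Fˣ → Fˣ → ZMod p} (h : c ∈ Sym p T) : IsSymbol p F c :=
  ⟨h.1, h.2.1, h.2.2.1⟩

lemma Sym.van {c : Fˣ → Fˣ → ZMod p} (h : c ∈ Sym p T) {x : Fˣ} (hx : x ∈ T) (y : Fˣ) :
    c x y = 0 := h.2.2.2 x hx y

lemma Sym.self (hp2 : p ≠ 2) {c : Fˣ → Fˣ → ZMod p} (h : c ∈ Sym p T) (a : Fˣ) : c a a = 0 :=
  (Sym.isSymbol h).self hp2 a

lemma Sym.anti (hp2 : p ≠ 2) {c : Fˣ → Fˣ → ZMod p} (h : c ∈ Sym p T) (a b : Fˣ) :
    c b a = - c a b := by
  have h1 := Sym.self hp2 h (a * b)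
  rw [h.1, h.2.1, h.2.1, Sym.self hp2 h a, Sym.self hp2 h b] at h1
  linear_combination h1

lemma Sym.van_right (hp2 : p ≠ 2) {c : Fˣ → Fˣ → ZMod p} (h : c ∈ Sym p T) {x : Fˣ}
    (hx : x ∈ T) (y : Fˣ) : c y x = 0 := by
  rw [Sym.anti hp2 h x y, Sym.van h hx, neg_zero]

/-- the value depends on the classes only -/
lemma Sym.congr (hp2 : p ≠ 2) {c : Fˣ → Fˣ → ZMod p} (h : c ∈ Sym p T) {x x' y y' : Fˣ}
    (hx : x⁻¹ * x' ∈ T) (hy : y⁻¹ * y' ∈ T) : c x' y' = c x y := by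
  have e1 : x' = x * (x⁻¹ * x') := by rw [mul_inv_cancel_left]
  have e2 : y' = y * (y⁻¹ * y') := by rw [mul_inv_cancel_left]
  rw [e1, h.1, Sym.van h hx, add_zero, e2, h.2.1, Sym.van_right hp2 h hy, add_zero]

lemma finite_Sym (hp2 : p ≠ 2) (hfin : T.index ≠ 0) : Finite (Sym p T) := by
  have : T.FiniteIndex := ⟨hfin⟩
  have : Finite (Fˣ ⧸ T) := inferInstance
  refine Finite.of_injective
    (fun (c : Sym p T) (q r : Fˣ ⧸ T) => (c : Fˣ → Fˣ → ZMod p) q.out r.out) ?_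
  intro c d h
  apply Subtype.ext
  funext x y
  have h1 := congrFun (congrFun h (QuotientGroup.mk x)) (QuotientGroup.mk y)
  have hx : (QuotientGroup.mk x : Fˣ ⧸ T).out⁻¹ * x ∈ T := by
    rw [← QuotientGroup.eq, QuotientGroup.out_eq']
  have hy : (QuotientGroup.mk y : Fˣ ⧸ T).out⁻¹ * y ∈ T := by
    rw [← QuotientGroup.eq, QuotientGroup.out_eq']
  rw [Sym.congr hp2 c.2 hx hy, Sym.congr hp2 d.2 hx hy]
  exact h1

/-- the elements `b` such that all symbols which vanish on `T` vanish at `(a, b)` -/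
def Ns (p : ℕ) {F : Type} [Field F] (T : Subgroup Fˣ) (a : Fˣ) : Subgroup Fˣ where
  carrier := {b | ∀ c ∈ Sym p T, c a b = 0}
  mul_mem' := by
    intro x y hx hy c hc
    rw [hc.2.1, hx c hc, hy c hc, add_zero]
  one_mem' := by
    intro c hc
    have := hc.2.1 a 1 1
    rw [one_mul] at this
    simpa using this
  inv_mem' := by
    intro x hx c hc
    have h1 : c a 1 = 0 := by
      have := hc.2.1 a 1 1
      rw [one_mul] at this
      simpa using this
    have h2 := hc.2.1 a x x⁻¹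
    rw [mul_inv_cancel, h1, hx c hc, zero_add] at h2
    exact h2.symm

lemma mem_Ns {a b : Fˣ} : b ∈ Ns p T a ↔ ∀ c ∈ Sym p T, c a b = 0 := Iff.rfl

lemma le_Ns (hp2 : p ≠ 2) (a : Fˣ) : T ≤ Ns p T a := fun _ hx _ hc => Sym.van_right hp2 hc hx a

lemma self_mem_Ns (hp2 : p ≠ 2) (a : Fˣ) : a ∈ Ns p T a := fun _ hc => Sym.self hp2 hc a

lemma symm_Ns (hp2 : p ≠ 2) {a b : Fˣ} (h : b ∈ Ns p T a) : a ∈ Ns p T b := fun c hc => by
  rw [Sym.anti hp2 hc a b, h c hc, neg_zero]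

lemma sum_Ns (hp2 : p ≠ 2) {u v : Fˣ} (h : (v : F) = 1 + u) : v ∈ Ns p T u := fun _ hc =>
  (Sym.isSymbol hc).one_add hp2 u v h

/-- `1 - a c^p` is in `N(a)` -/
lemma one_sub_mem_Ns {a c w : Fˣ} (h : (w : F) = 1 - (a : F) * (c : F) ^ p) :
    w ∈ Ns p T a := by
  intro d hd
  have h1 := hd.2.2.1 (a * c ^ p) w (by
    rw [h, Units.val_mul, Units.val_pow_eq_pow_val]; ring)
  rw [hd.1, (Sym.isSymbol hd).pow_left] at h1
  simpa using h1

/-- functions to `ℤ/p`, with a model `V` of the quotient -/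
lemma card_dual_aux {V : Type} [AddCommGroup V] [Module (ZMod p) V] [Finite V] {q : Fˣ → V}
    (hq : ∀ a b, q (a * b) = q a + q b) (hs : Function.Surjective q) {N : Subgroup Fˣ}
    (hk : ∀ a, q a = 0 → a ∈ N) (Φ : Set (Fˣ → ZMod p))
    (hΦ : ∀ f ∈ Φ, (∀ a b, f (a * b) = f a + f b) ∧ ∀ a ∈ N, f a = 0) :
    Finite Φ ∧ Nat.card Φ ≤ Nat.card V := by
  have hq1 : q 1 = 0 := by
    have := hq 1 1
    rw [one_mul] at this
    simpa using this
  have hqi : ∀ a, q a⁻¹ = - q a := fun a => by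
    have := hq a a⁻¹
    rw [mul_inv_cancel, hq1] at this
    exact (neg_eq_of_add_eq_zero_right this.symm).symm
  have hcongr : ∀ f : Fˣ → ZMod p, (∀ a b, f (a * b) = f a + f b) → (∀ a ∈ N, f a = 0) →
      ∀ x y : Fˣ, q x = q y → f x = f y := by
    intro f h1 h2 x y h
    have h3 : x⁻¹ * y ∈ N := hk _ (by rw [hq, hqi, h, neg_add_cancel])
    have e : y = x * (x⁻¹ * y) := by rw [mul_inv_cancel_left]
    rw [e, h1, h2 _ h3, add_zero]
  set s : V → Fˣ := Function.surjInv hs with hsdef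
  have hqs : ∀ x, q (s x) = x := Function.surjInv_eq hs
  let g : Φ → (V →ₗ[ZMod p] ZMod p) := fun f =>
    AddMonoidHom.toZModLinearMap p (AddMonoidHom.mk' (fun x => f.1 (s x))
      (fun x y => by
        rw [← (hΦ f.1 f.2).1]
        refine hcongr f.1 (hΦ f.1 f.2).1 (hΦ f.1 f.2).2 _ _ ?_
        rw [hqs, hq, hqs, hqs]))
  have hg : ∀ (f : Φ) (x : Fˣ), g f (q x) = f.1 x := fun f x =>
    hcongr f.1 (hΦ f.1 f.2).1 (hΦ f.1 f.2).2 _ _ (hqs _)
  have hinj : Function.Injective g := by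
    intro f f' h
    apply Subtype.ext
    funext x
    rw [← hg, ← hg, h]
  have hDfin : Finite (V →ₗ[ZMod p] ZMod p) := Module.finite_of_finite (ZMod p)
  refine ⟨Finite.of_injective g hinj, ?_⟩
  refine (Nat.card_le_card_of_injective g hinj).trans (le_of_eq ?_)
  have h1 := Module.natCard_eq_pow_finrank (K := ZMod p) (V := Module.Dual (ZMod p) V)
  rw [Subspace.dual_finrank_eq, ← Module.natCard_eq_pow_finrank (K := ZMod p)] at h1
  exact h1

/-- functions to `ℤ/p` which are trivial on a subgroup of finite index -/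
lemma card_dual_le {N : Subgroup Fˣ} (hN : pwG F p ≤ N) (hfin : N.index ≠ 0)
    (Φ : Set (Fˣ → ZMod p))
    (hΦ : ∀ f ∈ Φ, (∀ a b, f (a * b) = f a + f b) ∧ ∀ a ∈ N, f a = 0) :
    Finite Φ ∧ Nat.card Φ ≤ N.index := by
  have : N.FiniteIndex := ⟨hfin⟩
  let iG : AddCommGroup (Additive (Fˣ ⧸ N)) := inferInstance
  have hz : ∀ x : Additive (Fˣ ⧸ N), p • x = 0 := fun x => by
    obtain ⟨a, ha⟩ := QuotientGroup.mk_surjective (Additive.toMul x)
    have h1 : p • x = Additive.ofMul ((QuotientGroup.mk a : Fˣ ⧸ N) ^ p) := by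
      rw [ha]
      rfl
    rw [h1, ofMul_eq_zero, ← QuotientGroup.mk_pow, QuotientGroup.eq_one_iff]
    exact hN ⟨a, rfl⟩
  let iM : Module (ZMod p) (Additive (Fˣ ⧸ N)) := AddCommGroup.zmodModule hz
  have hFin : Finite (Additive (Fˣ ⧸ N)) := inferInstanceAs (Finite (Fˣ ⧸ N))
  refine card_dual_aux (V := Additive (Fˣ ⧸ N))
    (q := fun a => Additive.ofMul (QuotientGroup.mk a)) (fun a b => rfl) ?_ ?_ Φ hΦ
  · intro x
    obtain ⟨a, ha⟩ := QuotientGroup.mk_surjective (Additive.toMul x)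
    exact ⟨a, congrArg Additive.ofMul ha⟩
  · intro a ha
    rwa [ofMul_eq_zero, QuotientGroup.eq_one_iff] at ha

/-- **The chain inequality.** -/
theorem card_Sym_le (hp2 : p ≠ 2) (hT : pwG F p ≤ T) (hfin : T.index ≠ 0) (a : Fˣ) :
    Nat.card (Sym p T) ≤ Nat.card (Sym p (T ⊔ Subgroup.zpowers a)) * (Ns p T a).index := by
  have := finite_Sym (p := p) hp2 hfin
  have hfin' : (T ⊔ Subgroup.zpowers a).index ≠ 0 := fun h => hfin (by
    have := Subgroup.index_dvd_of_le (le_sup_left : T ≤ T ⊔ Subgroup.zpowers a)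
    rw [h] at this
    exact Nat.eq_zero_of_zero_dvd this)
  have := finite_Sym (p := p) hp2 hfin'
  let ev : Sym p T →+ (Fˣ → ZMod p) :=
    { toFun := fun c => (c : Fˣ → Fˣ → ZMod p) a
      map_zero' := rfl
      map_add' := fun c d => rfl }
  have h1 : Nat.card (Sym p T) = Nat.card ev.ker * Nat.card ev.range := by
    rw [← AddSubgroup.index_ker, AddSubgroup.card_mul_index]
  rw [h1]
  refine Nat.mul_le_mul ?_ ?_
  · refine Nat.card_le_card_of_injective
      (fun c : ev.ker => (⟨c.1.1, c.1.2.1, c.1.2.2.1, c.1.2.2.2.1, ?_⟩ :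
        Sym p (T ⊔ Subgroup.zpowers a))) ?_
    · have hc : ∀ y, (c.1 : Fˣ → Fˣ → ZMod p) a y = 0 := fun y => congrFun c.2 y
      let S : Subgroup Fˣ :=
        { carrier := {x | ∀ y, (c.1 : Fˣ → Fˣ → ZMod p) x y = 0}
          mul_mem' := fun {x x'} hx hx' y => by rw [c.1.2.1, hx, hx', add_zero]
          one_mem' := fun y => (Sym.isSymbol c.1.2).one_left y
          inv_mem' := fun {x} hx y => by rw [(Sym.isSymbol c.1.2).inv_left, hx, neg_zero] }
      have hS : T ⊔ Subgroup.zpowers a ≤ S :=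
        sup_le (fun x hx y => Sym.van c.1.2 hx y) ((Subgroup.zpowers_le).2 hc)
      exact fun x hx y => hS hx y
    · intro c d h
      have h' : (c.1.1 : Fˣ → Fˣ → ZMod p) = d.1.1 :=
        congrArg (fun z : Sym p (T ⊔ Subgroup.zpowers a) => (z : Fˣ → Fˣ → ZMod p)) h
      exact Subtype.ext (Subtype.ext h')
  · have hle : T ≤ Ns p T a := le_Ns hp2 a
    have hfinN : (Ns p T a).index ≠ 0 := fun h => hfin (by
      have := Subgroup.index_dvd_of_le hle
      rw [h] at this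
      exact Nat.eq_zero_of_zero_dvd this)
    refine (card_dual_le (hT.trans hle) hfinN (ev.range : Set (Fˣ → ZMod p)) ?_).2
    rintro f ⟨c, rfl⟩
    exact ⟨fun x y => c.2.2.1 a x y, fun x hx => hx c.1 c.2⟩

/-- the order modulo `T` of an element outside `T` -/
lemma relIndex_adj (hT : pwG F p ≤ T) {a : Fˣ} (ha : a ∉ T) :
    T.relIndex (T ⊔ Subgroup.zpowers a) = p := by
  rw [sup_comm, Subgroup.relIndex_sup_right]
  have h1 : T.relIndex (Subgroup.zpowers a) =
      Nat.card ((Subgroup.zpowers a).map (QuotientGroup.mk' T)) := by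
    rw [← Subgroup.relIndex_ker, QuotientGroup.ker_mk']
  rw [h1, MonoidHom.map_zpowers, Nat.card_zpowers]
  refine orderOf_eq_prime ?_ ?_
  · change ((QuotientGroup.mk a : Fˣ ⧸ T)) ^ p = 1
    rw [← QuotientGroup.mk_pow, QuotientGroup.eq_one_iff]
    exact hT ⟨a, rfl⟩
  · intro h
    exact ha ((QuotientGroup.eq_one_iff a).1 h)

lemma index_adj (hT : pwG F p ≤ T) {a : Fˣ} (ha : a ∉ T) {m : ℕ} (hm : T.index = p ^ (m + 1)) :
    (T ⊔ Subgroup.zpowers a).index = p ^ m := by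
  have hp : p.Prime := Fact.out
  have h1 := Subgroup.relIndex_mul_index (le_sup_left : T ≤ T ⊔ Subgroup.zpowers a)
  rw [relIndex_adj hT ha, hm, pow_succ, mul_comm] at h1
  exact Nat.eq_of_mul_eq_mul_right hp.pos h1

/-- the trivial bound -/
theorem card_Sym_triv (hp2 : p ≠ 2) (m : ℕ) : ∀ T : Subgroup Fˣ, pwG F p ≤ T →
    T.index = p ^ m → Nat.card (Sym p T) ≤ p ^ (m * (m - 1) / 2) := by
  have hp : p.Prime := Fact.out
  induction m with
  | zero =>
    intro T hT hm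
    rw [pow_zero, Subgroup.index_eq_one] at hm
    subst hm
    have : ∀ c : Sym p (⊤ : Subgroup Fˣ), c = 0 := by
      intro c
      apply Subtype.ext
      funext x y
      exact Sym.van c.2 trivial y
    have h1 : Subsingleton (Sym p (⊤ : Subgroup Fˣ)) := ⟨fun c d => by rw [this c, this d]⟩
    have h2 : Nat.card (Sym p (⊤ : Subgroup Fˣ)) = 1 := Nat.card_of_subsingleton 0
    rw [h2]
    exact Nat.one_le_pow _ _ hp.pos
  | succ m ih =>
    intro T hT hm
    have hfin : T.index ≠ 0 := by rw [hm]; exact (pow_pos hp.pos _).ne'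
    obtain ⟨a, ha⟩ : ∃ a, a ∉ T := by
      by_contra hc
      push Not at hc
      have : T = ⊤ := eq_top_iff.2 fun x _ => hc x
      rw [this, Subgroup.index_top] at hm
      exact absurd hm.symm (Nat.one_lt_pow (Nat.succ_ne_zero m) hp.one_lt).ne'
    have h1 := index_adj hT ha hm
    have h2 := ih (T ⊔ Subgroup.zpowers a) (hT.trans le_sup_left) h1
    have h3 := card_Sym_le hp2 hT hfin a
    have h4 : (Ns p T a).index ≤ p ^ m := by
      rw [← h1]
      refine Nat.le_of_dvd (by rw [h1]; exact pow_pos hp.pos _) (Subgroup.index_dvd_of_le ?_)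
      exact sup_le (le_Ns hp2 a) ((Subgroup.zpowers_le).2 (self_mem_Ns hp2 a))
    refine h3.trans ((Nat.mul_le_mul h2 h4).trans (le_of_eq ?_))
    rw [← pow_add]
    congr 1
    have h5 : (m + 1) * (m + 1 - 1) = m * (m - 1) + 2 * m := by
      rcases m with - | j
      · rfl
      · simp only [Nat.add_sub_cancel]; ring
    rw [h5, Nat.add_mul_div_left _ _ two_pos]

/-- the index of `N(a)` if `N(a) T' = F*` -/
lemma index_Ns_le (hp2 : p ≠ 2) {T' : Subgroup Fˣ} (hT' : T ≤ T') {a : Fˣ} (ha : a ∈ T')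
    (h : Ns p T a ⊔ T' = ⊤) {m k : ℕ} (hm : (T ⊔ Subgroup.zpowers a).index = p ^ (m + k))
    (hk : T'.index = p ^ k) : (Ns p T a).index ≤ p ^ m := by
  have hp : p.Prime := Fact.out
  have h1 : (Ns p T a).index = (Ns p T a).relIndex T' := by
    rw [← Subgroup.relIndex_top_right, ← h, sup_comm, Subgroup.relIndex_sup_right]
  have h2 : T ⊔ Subgroup.zpowers a ≤ Ns p T a :=
    sup_le (le_Ns hp2 a) ((Subgroup.zpowers_le).2 (self_mem_Ns hp2 a))
  have h3 : (Ns p T a).relIndex T' ∣ (T ⊔ Subgroup.zpowers a).relIndex T' :=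
    Subgroup.relIndex_dvd_of_le_left T' h2
  have h4 : T ⊔ Subgroup.zpowers a ≤ T' := sup_le hT' ((Subgroup.zpowers_le).2 ha)
  have h5 := Subgroup.relIndex_mul_index h4
  rw [hm, hk, pow_add] at h5
  have h6 : (T ⊔ Subgroup.zpowers a).relIndex T' = p ^ m :=
    Nat.eq_of_mul_eq_mul_right (pow_pos hp.pos k) h5
  rw [h1]
  rw [h6] at h3
  exact Nat.le_of_dvd (pow_pos hp.pos _) h3

end

end Pool.Agent.V7H55.ET
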