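import Mathlib
import Pool.Agent.V7H55.ET.Sym
import Pool.Agent.R675.TP.Part
import Pool.Agent.Y705.EP.Calc
import Pool.Agent.Y705.EP.Pig
import Pool.Agent.Y79.EP.Fib
import Pool.Agent.Y345.EP.Cnt
import Pool.Agent.Y564.EP.Grp
import Pool.Agent.Y98.EP.PCD
import Pool.Agent.Y447.EP.WB

set_option autoImplicit false

/-!
# Existence of valuation rings, relative to a subgroup of finite index
-/

namespace Pool.Agent.V7H55.ET

open Pool.Agent.Y920.EP
open Pool.Agent.R675.TP (Blk TSys Bd no_two)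

section

variable {p : ℕ} [Fact p.Prime] {F : Type} [Field F] {T : Subgroup Fˣ}

lemma Ns_congr {a b : Fˣ} (h : a⁻¹ * b ∈ T) : Ns p T a = Ns p T b := by
  ext x
  have e : b = a * (a⁻¹ * b) := by rw [mul_inv_cancel_left]
  constructor
  · intro hx c hc
    rw [e, hc.1, Sym.van hc h, add_zero]
    exact hx c hc
  · intro hx c hc
    have h1 := hx c hc
    rw [e, hc.1, Sym.van hc h, add_zero] at h1
    exact h1

lemma neg_one_mem (hp2 : p ≠ 2) (hT : pwG F p ≤ T) : (-1 : Fˣ) ∈ T :=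
  hT ⟨-1, (Fact.out : p.Prime).odd_of_ne_two hp2 |>.neg_one_pow⟩

variable {A : Type} [CommGroup A] {φ : Fˣ →* A}

/-- the annihilators in the quotient `A = F*/T` -/
noncomputable def Nq (p : ℕ) {F : Type} [Field F] (T : Subgroup Fˣ) {A : Type} [CommGroup A]
    {φ : Fˣ →* A} (hs : Function.Surjective φ) (q : A) : Subgroup A :=
  (Ns p T (Function.surjInv hs q)).map φ

lemma Nq_mk (hs : Function.Surjective φ) (hk : φ.ker = T) (a : Fˣ) :
    Nq p T hs (φ a) = (Ns p T a).map φ := by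
  unfold Nq
  rw [Ns_congr (a := Function.surjInv hs (φ a)) (b := a)]
  rw [← hk, MonoidHom.mem_ker, map_mul, map_inv, Function.surjInv_eq hs, inv_mul_cancel]

lemma mem_Nq (hp2 : p ≠ 2) (hs : Function.Surjective φ) (hk : φ.ker = T) {a b : Fˣ} :
    φ b ∈ Nq p T hs (φ a) ↔ b ∈ Ns p T a := by
  rw [Nq_mk hs hk, Subgroup.mem_map]
  constructor
  · rintro ⟨x, hx, h⟩
    have h1 : x⁻¹ * b ∈ T := by
      rw [← hk, MonoidHom.mem_ker, map_mul, map_inv, h, inv_mul_cancel]
    have h2 := mul_mem hx (le_Ns (p := p) hp2 a h1)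
    rwa [mul_inv_cancel_left] at h2
  · exact fun h => ⟨b, h, rfl⟩

lemma fin_quot (hs : Function.Surjective φ) (hk : φ.ker = T) (hfinT : T.index ≠ 0) : Finite A := by
  have h1 : φ.ker.index = Nat.card φ.range := Subgroup.index_ker φ
  rw [MonoidHom.range_eq_top.2 hs, Subgroup.card_top, hk] at h1
  exact Nat.finite_of_card_ne_zero (by rw [← h1]; exact hfinT)

lemma exp_quot (hs : Function.Surjective φ) (hk : φ.ker = T) (hT : pwG F p ≤ T) (a : A) :
    a ^ p = 1 := by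
  obtain ⟨x, rfl⟩ := hs a
  rw [← map_pow, ← MonoidHom.mem_ker, hk]
  exact hT ⟨x, rfl⟩

lemma neg_quot (hp2 : p ≠ 2) (hk : φ.ker = T) (hT : pwG F p ≤ T) : φ (-1) = 1 := by
  rw [← MonoidHom.mem_ker, hk]
  exact neg_one_mem hp2 hT

/-- if the classes that are not rigid lie in a proper subgroup, there is a valuation ring -/
theorem gd_of_NR (hp2 : p ≠ 2) (hp0 : (p : F) ≠ 0) (hfin : (pwG F p).index ≠ 0)
    (hT : pwG F p ≤ T) (hidx : ¬ T.index ∣ p) (hsur : Function.Surjective φ) (hker : φ.ker = T)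
    (K : Subgroup A) (hK : K ≠ ⊤) (hNR : NR φ ⊆ (K : Set A)) : Gd p T := by
  have hp : p.Prime := Fact.out
  have hneg : φ (-1) = 1 := neg_quot hp2 hker hT
  have hexp : ∀ a : A, a ^ p = 1 := exp_quot hsur hker hT
  have hRP : RP φ.ker (K.comap φ) := rp_of hneg K hNR
  have hsq : ∀ x : Fˣ, x * x ∈ K.comap φ → x ∈ K.comap φ := by
    intro x hx
    rw [Subgroup.mem_comap] at hx ⊢
    obtain ⟨m, hm⟩ := hp.odd_of_ne_two hp2
    have : φ x = φ (x * x) ^ (m + 1) := by
      rw [map_mul, ← pow_two, ← pow_mul, show 2 * (m + 1) = p + 1 by omega, pow_succ, hexp,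
        one_mul]
    rw [this]
    exact pow_mem hx _
  have hP := Pool.Agent.Y98.EP.t_PCD F φ.ker (K.comap φ) hRP hsq
  obtain ⟨O, hO⟩ := Pool.Agent.Y447.EP.t_WB' F φ.ker (K.comap φ) hRP hP
  rw [hker] at hO hRP
  refine coarsen hp hp0 hfin hT hidx O hO.one ?_
  intro htop
  apply hK
  rw [eq_top_iff]
  intro a _
  obtain ⟨x, rfl⟩ := hsur a
  have hx : x ∈ O.unitGroup ⊔ T := by rw [htop]; trivial
  have h1 : O.unitGroup ⊔ T ≤ K.comap φ := by
    refine sup_le ?_ hRP.le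
    intro u hu
    refine hO.units u ?_ ?_
    · rw [← ValuationSubring.valuation_le_one_iff]
      exact le_of_eq hu
    · rw [← ValuationSubring.valuation_le_one_iff]
      exact le_of_eq (inv_mem hu : u⁻¹ ∈ O.unitGroup)
  exact h1 hx

lemma sys_Nq (hp2 : p ≠ 2) (hT : pwG F p ≤ T) (hfinT : T.index ≠ 0)
    (hs : Function.Surjective φ) (hk : φ.ker = T) (N : ℕ)
    (hN : ∀ a : Fˣ, a ∉ T → T.relIndex (Ns p T a) ≤ N) :
    Sys φ (Nq p T hs) N := by
  have hfinq : Finite A := fin_quot hs hk hfinT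
  refine ⟨hs, neg_quot hp2 hk hT, ?_, ?_, ?_⟩
  · intro a b hab
    obtain ⟨x, rfl⟩ := hs a
    obtain ⟨y, rfl⟩ := hs b
    rw [mem_Nq hp2 hs hk] at hab ⊢
    exact symm_Ns hp2 hab
  · intro u v huv
    exact (mem_Nq hp2 hs hk).2 (sum_Ns hp2 huv)
  · intro a ha
    obtain ⟨x, rfl⟩ := hs a
    have hx : x ∉ T := fun h => ha (by rwa [← hk] at h)
    refine ⟨Set.toFinite _, ?_⟩
    rw [← Nat.card_coe_set_eq]
    refine le_trans (le_of_eq ?_) (hN x hx)
    rw [Nq_mk hs hk]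
    have h1 := Subgroup.relIndex_ker (Ns p T x) φ
    rw [hk] at h1
    exact h1.symm

/-- if there is no valuation ring, some annihilator is large -/
theorem exists_large (hp2 : p ≠ 2) (hζ : ∃ ζ : F, IsPrimitiveRoot ζ p)
    (hfin : (pwG F p).index ≠ 0) (hT : pwG F p ≤ T) (hidx : ¬ T.index ∣ p) (hnot : ¬ Gd p T)
    (N : ℕ) (hN1 : 1 ≤ N) (hN : ∀ a : Fˣ, a ∉ T → T.relIndex (Ns p T a) ≤ N) :
    T.index ≤ 78 * p ^ 2 * N ^ 5 := by
  by_contra hlt
  rw [not_le] at hlt
  apply hnot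
  have hp : p.Prime := Fact.out
  have hfinT : T.index ≠ 0 := by omega
  obtain ⟨A, _, φ, hs, hk⟩ := exists_quot F T
  have hfinq : Finite A := fin_quot hs hk hfinT
  have hS := sys_Nq hp2 hT hfinT hs hk N hN
  obtain ⟨ζ, hζ⟩ := hζ
  have hζ0 : ζ ≠ 0 := hζ.ne_zero hp.ne_zero
  have hζ' : IsPrimitiveRoot (Units.mk0 ζ hζ0) p := by
    rw [← IsPrimitiveRoot.coe_units_iff]
    exact hζ
  have hpF : (p : F) ≠ 0 := by
    have : NeZero p := ⟨hp.ne_zero⟩
    exact hζ.neZero'.ne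
  have hexp : ∀ a : A, a ^ p = 1 := exp_quot hs hk hT
  obtain ⟨hf, hc⟩ := Pool.Agent.Y345.EP.t_CNT Pool.Agent.Y705.EP.t_L1 Pool.Agent.Y705.EP.t_CALC
    Pool.Agent.Y705.EP.t_RU Pool.Agent.Y705.EP.t_DIFF Pool.Agent.Y705.EP.t_SU
    Pool.Agent.Y705.EP.t_PIG Pool.Agent.Y79.EP.t_FIB Pool.Agent.Y79.EP.t_PICK F p hp hp2 _ hζ'
    A φ _ N hS (fun x => hexp _)
  have hHL := Pool.Agent.Y705.EP.t_L1 F A φ _ N hS
  obtain ⟨hg1, hg2⟩ := Pool.Agent.Y564.EP.t_GRP Pool.Agent.Y705.EP.t_SU F p hp hp2 A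
    φ N hN1 hS.surj hexp hf hc (by
    rintro a ⟨ha1, r, s, hr, hrs, hs1, hs2⟩
    refine ⟨r, hr, ?_⟩
    exact (Pool.Agent.Y705.EP.t_CALC F A φ _ hS.neg hHL).2.2 r s hrs
      (by rw [hr]; exact ha1) hs1 (by rw [hr]; exact hs2))
    (fun x hx h1 => ml_of hS.neg hx h1)
  refine gd_of_NR hp2 hpF hfin hT hidx hs hk (Subgroup.closure (NR φ)) ?_
    Subgroup.subset_closure
  intro htop
  rw [htop, Subgroup.card_top] at hg2
  have h1 : φ.ker.index = Nat.card φ.range := Subgroup.index_ker φ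
  rw [MonoidHom.range_eq_top.2 hs, Subgroup.card_top, hk] at h1
  rw [← h1] at hg2
  exact absurd hg2 (not_le.2 hlt)

/-- blocks -/
theorem gd_of_blk (hp2 : p ≠ 2) (hp0 : (p : F) ≠ 0) (hfin : (pwG F p).index ≠ 0)
    (hT : pwG F p ≤ T) (hidx : ¬ T.index ∣ p) (hsur : Function.Surjective φ) (hk : φ.ker = T)
    (hB : Blk (Nq p T hsur)) (hne : ∀ a : Fˣ, a ∉ T → Ns p T a ≠ ⊤) : Gd p T := by
  have hp : p.Prime := Fact.out
  have hfinT : T.index ≠ 0 := fun h => hfin (by
    have := Subgroup.index_dvd_of_le hT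
    rw [h] at this
    exact Nat.eq_zero_of_zero_dvd this)
  have hfinq : Finite A := fin_quot hsur hk hfinT
  have hS : TSys φ (Nq p T hsur) := by
    refine ⟨neg_quot hp2 hk hT, hB, ?_⟩
    intro u v huv
    exact (mem_Nq hp2 hsur hk).2 (sum_Ns hp2 huv)
  have hexp : ∀ a : A, a ^ p = 1 := exp_quot hsur hk hT
  have hodd' : ∀ a : A, a * a = 1 → a = 1 := by
    intro a ha
    obtain ⟨m, hm⟩ := hp.odd_of_ne_two hp2
    have h1 := hexp a
    rw [hm, pow_succ, pow_mul, pow_two, ha, one_pow, one_mul] at h1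
    exact h1
  -- an element outside `T`
  obtain ⟨a₀, ha₀⟩ : ∃ a : Fˣ, a ∉ T := by
    by_contra hc
    push Not at hc
    apply hidx
    rw [Subgroup.index_eq_one.2 (eq_top_iff.2 fun x _ => hc x)]
    exact one_dvd _
  -- all bad elements are in one block
  obtain ⟨b, hb1, hbad⟩ : ∃ b : Fˣ, b ∉ T ∧ ∀ y : Fˣ, Bd φ y → φ y ∈ Nq p T hsur (φ b) := by
    by_cases h1 : ∃ y, Bd φ y
    · obtain ⟨y, hy⟩ := h1
      refine ⟨y, fun h => hy.1 (by rwa [← hk] at h), fun z hz => ?_⟩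
      by_contra hc
      exact no_two hS hy hz hc hp.pos hexp hodd' (Set.toFinite _)
    · exact ⟨a₀, ha₀, fun y hy => absurd ⟨y, hy⟩ h1⟩
  refine gd_of_NR hp2 hp0 hfin hT hidx hsur hk (Nq p T hsur (φ b)) ?_ ?_
  · intro htop
    apply hne b hb1
    rw [eq_top_iff]
    intro x _
    rw [← mem_Nq hp2 hsur hk, htop]
    trivial
  · rintro a ⟨ha1, r, s, hr, hrs, hs1, hs2⟩
    have h1 : φ (-r) = a := by rw [phi_neg hS.neg, hr]
    have h2 : Bd φ (-r) := by
      rw [Bd.iff (s := s) (by rw [Units.val_neg]; linear_combination hrs), h1]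
      exact ⟨ha1, hs1, hs2⟩
    have h3 := hbad _ h2
    rw [h1] at h3
    exact h3

/-- small annihilators are blocks -/
theorem blk_of_small (hp2 : p ≠ 2) (hT : pwG F p ≤ T) (hfinT : T.index ≠ 0)
    (hs : Function.Surjective φ) (hk : φ.ker = T)
    (hsm : ∀ a : Fˣ, a ∉ T → T.relIndex (Ns p T a) ≤ p ^ 2) : Blk (Nq p T hs) := by
  have hp : p.Prime := Fact.out
  refine ⟨?_, ?_, ?_⟩
  · intro a b hab
    obtain ⟨x, rfl⟩ := hs a
    obtain ⟨y, rfl⟩ := hs b
    rw [mem_Nq hp2 hs hk] at hab ⊢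
    exact symm_Ns hp2 hab
  · intro a
    obtain ⟨x, rfl⟩ := hs a
    exact (mem_Nq hp2 hs hk).2 (self_mem_Ns hp2 x)
  · intro a b hb hab
    obtain ⟨x, rfl⟩ := hs a
    obtain ⟨y, rfl⟩ := hs b
    have hy : y ∉ T := fun h => hb (by rwa [← hk] at h)
    rw [mem_Nq hp2 hs hk] at hab
    intro z hz
    obtain ⟨w, rfl⟩ := hs z
    rw [mem_Nq hp2 hs hk] at hz ⊢
    -- `y ∈ N(x)`, `w ∈ N(y)`, to show `w ∈ N(x)`
    by_cases hx : x ∈ T
    · exact fun c hc => Sym.van hc hx w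
    by_cases hyx : y ∈ T ⊔ Subgroup.zpowers x
    · obtain ⟨t, ht, g, hg, hgt⟩ := Subgroup.mem_sup.1 hyx
      obtain ⟨i, rfl⟩ := Subgroup.mem_zpowers_iff.1 hg
      intro c hc
      have h1 := hz c hc
      rw [← hgt, hc.1, Sym.van hc ht, zero_add] at h1
      have h2 : ∀ j : ℤ, c (x ^ j) w = (j : ZMod p) * c x w := by
        intro j
        let f : Fˣ →* Multiplicative (ZMod p) :=
          { toFun := fun x => Multiplicative.ofAdd (c x w)
            map_one' := by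
              have := hc.1 1 1 w
              rw [one_mul] at this
              have h0 : c 1 w = 0 := by simpa using this
              rw [h0]; rfl
            map_mul' := fun a b => by rw [hc.1]; rfl }
        have h3 := map_zpow f x j
        have h4 : c (x ^ j) w = j • c x w := congrArg Multiplicative.toAdd h3
        rw [h4, zsmul_eq_mul]
      rw [h2, mul_eq_zero] at h1
      rcases h1 with h1 | h1
      · exfalso
        apply hy
        rw [ZMod.intCast_zmod_eq_zero_iff_dvd] at h1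
        obtain ⟨j, rfl⟩ := h1
        rw [← hgt]
        refine mul_mem ht (hT ⟨x ^ j, ?_⟩)
        change (x ^ j) ^ p = _
        rw [← zpow_natCast, ← zpow_mul, mul_comm]
      · exact h1
    · -- `N(y)` is generated by `x` and `y`
      have hle : pwG F p ≤ T ⊔ Subgroup.zpowers x := hT.trans le_sup_left
      have h1 := relIndex_adj hT hx
      have h2 := relIndex_adj hle hyx
      set T₂ := T ⊔ Subgroup.zpowers x ⊔ Subgroup.zpowers y with hT₂
      have h3 : T.relIndex T₂ = p * p := by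
        have := Subgroup.relIndex_mul_relIndex T (T ⊔ Subgroup.zpowers x) T₂ le_sup_left le_sup_left
        rw [← this, h1, h2]
      have h4 : T₂ ≤ Ns p T y := by
        refine sup_le (sup_le (le_Ns hp2 y) ?_) ?_
        · rw [Subgroup.zpowers_le]
          exact symm_Ns hp2 hab
        · rw [Subgroup.zpowers_le]
          exact self_mem_Ns hp2 y
      have h5 : T₂ ≤ Ns p T x := by
        refine sup_le (sup_le (le_Ns hp2 x) ?_) ?_
        · rw [Subgroup.zpowers_le]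
          exact self_mem_Ns hp2 x
        · rw [Subgroup.zpowers_le]
          exact hab
      have h6 := Subgroup.relIndex_mul_relIndex T T₂ (Ns p T y) (le_sup_left.trans le_sup_left) h4
      have h7 := hsm y hy
      have h8 : T.relIndex (Ns p T y) ≠ 0 := by
        intro h0
        apply hfinT
        have := Subgroup.relIndex_mul_index (le_Ns hp2 y : T ≤ Ns p T y)
        rw [h0, zero_mul] at this
        exact this.symm
      rw [← h6, h3, pow_two] at h7
      rw [← h6] at h8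
      have h9 : T₂.relIndex (Ns p T y) = 1 := by
        have h10 : T₂.relIndex (Ns p T y) ≠ 0 := fun h => h8 (by rw [h, mul_zero])
        have h11 : T₂.relIndex (Ns p T y) ≤ 1 :=
          Nat.le_of_mul_le_mul_left (by rw [mul_one]; exact h7) (mul_pos hp.pos hp.pos)
        omega
      exact h5 ((Subgroup.relIndex_eq_one.1 h9) hz)

end

end Pool.Agent.V7H55.ET
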