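import Mathlib
import Pool.Agent.V7H55.ET.Exist

set_option autoImplicit false

/-!
# Counting symbols along chains of subgroups
-/

namespace Pool.Agent.V7H55.ET

open Pool.Agent.Y920.EP
open Pool.Agent.R675.TP (Blk TSys Bd no_two)

section

variable {p : ℕ} [Fact p.Prime] {F : Type} [Field F]

lemma two_mul_tri (j : ℕ) : (j + 1) * (j + 1 - 1) / 2 = j * (j - 1) / 2 + j := by
  have h : (j + 1) * (j + 1 - 1) = j * (j - 1) + 2 * j := by
    rcases j with - | j
    · rfl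
    · simp only [Nat.add_sub_cancel]; ring
  rw [h, Nat.add_mul_div_left _ _ two_pos]

/-- **The chain below a valuation ring.** -/
theorem chain (hp2 : p ≠ 2) (hp0 : (p : F) ≠ 0) {B : Subgroup Fˣ} (hB : pwG F p ≤ B) (k : ℕ)
    (hmax : ∀ T' : Subgroup Fˣ, B ≤ T' → Gd p T' → T'.index ≤ p ^ k) {T' : Subgroup Fˣ}
    (hg : Gd p T') (hk : T'.index = p ^ k) (j : ℕ) :
    ∀ T₀ : Subgroup Fˣ, B ≤ T₀ → T₀ ≤ T' → T₀.index = p ^ (k + j) →
      Nat.card (Sym p T₀) ≤ p ^ (j * (j - 1) / 2) * Nat.card (Sym p T') := by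
  have hp : p.Prime := Fact.out
  induction j with
  | zero =>
    intro T₀ hB₀ hle hidx
    have h1 := Subgroup.relIndex_mul_index hle
    rw [hk, hidx, add_zero] at h1
    have h2 : T₀.relIndex T' = 1 := by
      have h3 : 0 < p ^ k := pow_pos hp.pos _
      nlinarith
    have h4 : T₀ = T' := le_antisymm hle (Subgroup.relIndex_eq_one.1 h2)
    rw [h4]
    simp
  | succ j ih =>
    intro T₀ hB₀ hle hidx
    have hT₀ : pwG F p ≤ T₀ := hB.trans hB₀
    have hfin : T₀.index ≠ 0 := by rw [hidx]; exact (pow_pos hp.pos _).ne'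
    have hnot : ¬ Gd p T₀ := by
      intro h
      have h1 := hmax T₀ hB₀ h
      rw [hidx] at h1
      have h2 := (Nat.pow_le_pow_iff_right hp.one_lt).1 h1
      omega
    obtain ⟨O, hO1, hO2, hO3⟩ := hg
    obtain ⟨a, haT, ha, hrep⟩ := key hp hp0 hT₀ hfin hle hnot hO1 hO2 hO3
    have hidx1 := index_adj hT₀ ha (m := k + j) (by rw [hidx]; rfl)
    have htop : Ns p T₀ a ⊔ T' = ⊤ := by
      rw [eq_top_iff]
      intro b _
      obtain ⟨c, w, hw, hwb⟩ := hrep b
      have h1 : w ∈ Ns p T₀ a := one_sub_mem_Ns hw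
      have e : b = w * (w * b⁻¹)⁻¹ := by
        rw [mul_inv, inv_inv, mul_inv_cancel_left]
      rw [e]
      exact Subgroup.mul_mem_sup h1 (inv_mem hwb)
    have h1 := index_Ns_le hp2 hle haT htop (m := j) (k := k) (by rw [hidx1, add_comm]) hk
    have h2 := card_Sym_le hp2 hT₀ hfin a
    have h3 := ih (T₀ ⊔ Subgroup.zpowers a) (hB₀.trans le_sup_left)
      (sup_le hle ((Subgroup.zpowers_le).2 haT)) hidx1
    refine h2.trans ((Nat.mul_le_mul h3 h1).trans (le_of_eq ?_))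
    rw [two_mul_tri, pow_add]
    ring

/-- if there is no valuation ring, some annihilator is large: both bounds -/
theorem exists_step (hp2 : p ≠ 2) (hζ : ∃ ζ : F, IsPrimitiveRoot ζ p)
    (hfin : (pwG F p).index ≠ 0) {T : Subgroup Fˣ} (hT : pwG F p ≤ T) {m : ℕ}
    (hm : T.index = p ^ m) (hm2 : 2 ≤ m) (hnot : ¬ Gd p T) :
    ∃ a, a ∉ T ∧ (Ns p T a).index ≤ p ^ min (m - 3) (4 * m / 5 + 1) := by
  have hp : p.Prime := Fact.out
  have hp0 : (p : F) ≠ 0 := by
    obtain ⟨ζ, hζ⟩ := hζ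
    have : NeZero p := ⟨hp.ne_zero⟩
    exact hζ.neZero'.ne
  have hidx : ¬ T.index ∣ p := by
    intro h
    rw [hm] at h
    have h1 := Nat.le_of_dvd hp.pos h
    have h2 : p ^ 2 ≤ p ^ m := Nat.pow_le_pow_right hp.pos hm2
    have h3 := hp.two_le
    nlinarith
  have hfinT : T.index ≠ 0 := by rw [hm]; exact (pow_pos hp.pos _).ne'
  -- the orders of the annihilators
  have hord : ∀ a : Fˣ, ∃ d : ℕ, T.relIndex (Ns p T a) = p ^ d ∧ d ≤ m ∧
      (Ns p T a).index = p ^ (m - d) := by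
    intro a
    have h1 := Subgroup.relIndex_mul_index (le_Ns (T := T) hp2 a)
    rw [hm] at h1
    obtain ⟨d, hd, h2⟩ := (Nat.dvd_prime_pow hp).1 (Dvd.intro _ h1)
    refine ⟨d, h2, hd, ?_⟩
    rw [h2] at h1
    have h3 : p ^ m = p ^ d * p ^ (m - d) := by rw [← pow_add]; congr 1; omega
    rw [h3] at h1
    exact Nat.eq_of_mul_eq_mul_left (pow_pos hp.pos d) h1
  choose d hd1 hd2 hd3 using hord
  -- the largest annihilator
  obtain ⟨a₀, ha₀⟩ : ∃ a : Fˣ, a ∉ T := by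
    by_contra hc
    push Not at hc
    apply hidx
    rw [Subgroup.index_eq_one.2 (eq_top_iff.2 fun x _ => hc x)]
    exact one_dvd _
  obtain ⟨a, ha, hmax⟩ : ∃ a, a ∉ T ∧ ∀ b, b ∉ T → d b ≤ d a := by
    by_contra hc
    push Not at hc
    have : ∀ i : ℕ, ∃ a, a ∉ T ∧ i ≤ d a := by
      intro i
      induction i with
      | zero => exact ⟨a₀, ha₀, Nat.zero_le _⟩
      | succ i ih =>
        obtain ⟨a, ha, h1⟩ := ih
        obtain ⟨b, hb, h2⟩ := hc a ha
        exact ⟨b, hb, by omega⟩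
    obtain ⟨a, ha, h1⟩ := this (m + 1)
    have := hd2 a
    omega
  refine ⟨a, ha, ?_⟩
  rw [hd3 a]
  refine Nat.pow_le_pow_right hp.pos (le_min ?_ ?_)
  · -- `m - d ≤ m - 3`
    by_contra hc
    rw [not_le] at hc
    have hd : d a ≤ 2 ∧ d a < m ∨ m = d a := by omega
    rcases hd with ⟨hd, hdm⟩ | hd
    · apply hnot
      obtain ⟨A, _, φ, hs, hk⟩ := exists_quot F T
      refine gd_of_blk hp2 hp0 hfin hT hidx hs hk (blk_of_small hp2 hT hfinT hs hk ?_) ?_
      · intro b hb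
        rw [hd1 b]
        exact Nat.pow_le_pow_right hp.pos ((hmax b hb).trans hd)
      · intro b hb htop
        have h1 := hd3 b
        rw [htop, Subgroup.index_top] at h1
        have h2 := hmax b hb
        exact absurd h1.symm (Nat.one_lt_pow (by omega) hp.one_lt).ne'
    · omega
  · -- `5 (m - d) ≤ 4 m + 5`
    have h1 := exists_large hp2 hζ hfin hT hidx hnot (p ^ d a) (Nat.one_le_pow _ _ hp.pos)
      (fun b hb => by rw [hd1 b]; exact Nat.pow_le_pow_right hp.pos (hmax b hb))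
    have h3 : 3 ≤ p := by
      have := hp.two_le
      omega
    have h4 : 78 < p ^ 4 := by
      have : 3 ^ 4 ≤ p ^ 4 := Nat.pow_le_pow_left h3 4
      omega
    have h5 : p ^ m < p ^ (6 + 5 * d a) := by
      rw [← hm]
      refine h1.trans_lt ?_
      have e : p ^ (6 + 5 * d a) = p ^ 4 * p ^ 2 * (p ^ d a) ^ 5 := by
        rw [← pow_mul, ← pow_add, ← pow_add]
        congr 1
        ring
      rw [e]
      refine Nat.mul_lt_mul_of_pos_right ?_ (pow_pos (pow_pos hp.pos _) _)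
      exact Nat.mul_lt_mul_of_pos_right h4 (pow_pos hp.pos _)
    have h6 := (Nat.pow_lt_pow_iff_right hp.one_lt).1 h5
    omega

/-- **Fields without valuation rings have few symbols.** -/
theorem few (hp2 : p ≠ 2) (hζ : ∃ ζ : F, IsPrimitiveRoot ζ p) (hfin : (pwG F p).index ≠ 0)
    {B : Subgroup Fˣ} (hB : pwG F p ≤ B) (k : ℕ) (hk : 2 ≤ k)
    (hno : ∀ T' : Subgroup Fˣ, B ≤ T' → Gd p T' → T'.index < p ^ k) (g : ℕ → ℕ)
    (hg0 : (k - 1) * (k - 1 - 1) / 2 ≤ g (k - 1))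
    (hg : ∀ m, k ≤ m → g (m - 1) + min (m - 3) (4 * m / 5 + 1) ≤ g m) (j : ℕ) :
    ∀ T₀ : Subgroup Fˣ, B ≤ T₀ → T₀.index = p ^ (k - 1 + j) →
      Nat.card (Sym p T₀) ≤ p ^ g (k - 1 + j) := by
  have hp : p.Prime := Fact.out
  induction j with
  | zero =>
    intro T₀ hB₀ hidx
    rw [add_zero] at hidx ⊢
    exact (card_Sym_triv hp2 (k - 1) T₀ (hB.trans hB₀) hidx).trans
      (Nat.pow_le_pow_right hp.pos hg0)
  | succ j ih =>
    intro T₀ hB₀ hidx
    have hT₀ : pwG F p ≤ T₀ := hB.trans hB₀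
    have hfin₀ : T₀.index ≠ 0 := by rw [hidx]; exact (pow_pos hp.pos _).ne'
    have hnot : ¬ Gd p T₀ := by
      intro h
      have h1 := hno T₀ hB₀ h
      rw [hidx] at h1
      have h2 := (Nat.pow_lt_pow_iff_right hp.one_lt).1 h1
      omega
    obtain ⟨a, ha, h1⟩ := exists_step hp2 hζ hfin hT₀ hidx (by omega) hnot
    have hidx1 := index_adj hT₀ ha (m := k - 1 + j) (by rw [hidx]; rfl)
    have h2 := card_Sym_le hp2 hT₀ hfin₀ a
    have h3 := ih (T₀ ⊔ Subgroup.zpowers a) (hB₀.trans le_sup_left) hidx1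
    refine h2.trans ((Nat.mul_le_mul h3 h1).trans ?_)
    rw [← pow_add]
    refine Nat.pow_le_pow_right hp.pos ?_
    have h4 := hg (k - 1 + (j + 1)) (by omega)
    have e : k - 1 + (j + 1) - 1 = k - 1 + j := by omega
    rw [e] at h4
    exact h4

/-- the exponent in the bound for fields without valuation rings -/
def bnd (k n : ℕ) : ℕ := (k - 1) * (k - 2) / 2 + ∑ m ∈ Finset.Icc k n, min (m - 3) (4 * m / 5 + 1)

theorem few_bnd (hp2 : p ≠ 2) (hζ : ∃ ζ : F, IsPrimitiveRoot ζ p) (hfin : (pwG F p).index ≠ 0)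
    {B : Subgroup Fˣ} (hB : pwG F p ≤ B) {k n : ℕ} (hk : 2 ≤ k) (hkn : k ≤ n)
    (hno : ∀ T' : Subgroup Fˣ, B ≤ T' → Gd p T' → T'.index < p ^ k) (hn : B.index = p ^ n) :
    Nat.card (Sym p B) ≤ p ^ bnd k n := by
  have h := few hp2 hζ hfin hB k hk hno (fun m => bnd k m) ?_ ?_ (n + 1 - k) B le_rfl (by
    rw [hn]; congr 1; omega)
  · have e : k - 1 + (n + 1 - k) = n := by omega
    rw [e] at h
    exact h
  · change _ ≤ bnd k (k - 1)
    unfold bnd
    rw [Finset.Icc_eq_empty (by omega), Finset.sum_empty, add_zero]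
    exact le_of_eq rfl
  · intro m hm
    change bnd k (m - 1) + _ ≤ bnd k m
    unfold bnd
    obtain ⟨i, rfl⟩ : ∃ i, m = i + 1 := ⟨m - 1, by omega⟩
    rw [Nat.add_sub_cancel, Finset.sum_Icc_succ_top hm, ← add_assoc]

end

end Pool.Agent.V7H55.ET
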