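import Mathlib
import Pool.Agent.V7H55.ET.Count

set_option autoImplicit false

/-!
# Arithmetic of the bounds
-/

namespace Pool.Agent.V7H55.ET

lemma sum_le_aux {k : ℕ} (hk : 1 ≤ k) (j : ℕ) :
    5 * (∑ m ∈ Finset.Icc k (k - 1 + j), min (m - 3) (4 * m / 5 + 1)) + 2 * (k - 1) * k + 5 * k ≤
      2 * (k - 1 + j) * (k - 1 + j + 1) + 5 * (k - 1 + j + 1) := by
  induction j with
  | zero =>
    rw [add_zero, Finset.Icc_eq_empty (by omega), Finset.sum_empty, Nat.sub_add_cancel hk]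
    omega
  | succ j ih =>
    have e : k - 1 + (j + 1) = k - 1 + j + 1 := by omega
    rw [e, Finset.sum_Icc_succ_top (by omega)]
    set m := k - 1 + j + 1 with hm
    have h1 : 5 * min (m - 3) (4 * m / 5 + 1) ≤ 4 * m + 5 := by
      have := min_le_right (m - 3) (4 * m / 5 + 1)
      omega
    have h2 : 2 * m * (m + 1) = 2 * (k - 1 + j) * m + 4 * m := by
      have : k - 1 + j = m - 1 := by omega
      rw [this]
      obtain ⟨i, hi⟩ : ∃ i, m = i + 1 := ⟨m - 1, by omega⟩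
      rw [hi, Nat.add_sub_cancel]
      ring
    rw [h2]
    linarith

lemma bnd_le {k n : ℕ} (hk : 2 ≤ k) (hkn : k ≤ n) :
    10 * bnd k n + 21 * k ≤ 4 * n ^ 2 + 14 * n + 20 + k ^ 2 := by
  have h := sum_le_aux (k := k) (by omega) (n + 1 - k)
  have e : k - 1 + (n + 1 - k) = n := by omega
  rw [e] at h
  unfold bnd
  have h1 : 2 * ((k - 1) * (k - 2) / 2) ≤ (k - 1) * (k - 2) := Nat.mul_div_le _ _
  obtain ⟨i, rfl⟩ : ∃ i, k = i + 2 := ⟨k - 2, by omega⟩
  simp only [Nat.add_sub_cancel, show i + 2 - 1 = i + 1 by omega] at h h1 ⊢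
  nlinarith

lemma bnd_two (n : ℕ) (hn : 2 ≤ n) : bnd 2 n ≤ (n - 2) * (n - 3) / 2 := by
  unfold bnd
  induction n, hn using Nat.le_induction with
  | base => decide
  | succ n hn ih =>
    rw [Finset.sum_Icc_succ_top (by omega), ← add_assoc]
    refine (Nat.add_le_add ih (min_le_left _ _)).trans (le_of_eq ?_)
    rcases Nat.lt_or_ge n 3 with h | h
    · interval_cases n
      rfl
    · obtain ⟨i, rfl⟩ : ∃ i, n = i + 3 := ⟨n - 3, by omega⟩
      have e1 : i + 3 - 2 = i + 1 := by omega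
      have e2 : i + 3 - 3 = i := by omega
      have e3 : i + 3 + 1 - 2 = i + 2 := by omega
      have e4 : i + 3 + 1 - 3 = i + 1 := by omega
      rw [e1, e2, e3, e4]
      have : (i + 2) * (i + 1) = (i + 1) * i + (i + 1) * 2 := by ring
      rw [this, Nat.add_mul_div_right _ _ two_pos]

lemma small_cases : ∀ n < 80, 6 ≤ n → 12 * bnd (max 2 ((n + 9) / 10)) n < 5 * n ^ 2 ∧
    6 * n * (n - 1) < 5 * n ^ 2 + 12 * (max 2 ((n + 9) / 10)) * (n - max 2 ((n + 9) / 10)) := by
  decide +kernel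

lemma exists_k {n s : ℕ} (h1 : 5 * n ^ 2 ≤ 12 * s) (h2 : 2 * s ≤ n * (n - 1)) (hs : 1 ≤ s) :
    ∃ k, 2 ≤ k ∧ 2 * k ≤ n ∧ bnd k n < s ∧ n * (n - 1) / 2 < s + k * (n - k) := by
  have hn : 6 ≤ n := by
    by_contra hc
    have : n ≤ 5 := by omega
    interval_cases n <;> omega
  refine ⟨max 2 ((n + 9) / 10), le_max_left _ _, by omega, ?_, ?_⟩
  · rcases Nat.lt_or_ge n 80 with h | h
    · have := (small_cases n h hn).1
      omega
    · have e : max 2 ((n + 9) / 10) = (n + 9) / 10 := by omega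
      rw [e]
      obtain ⟨k, hk⟩ : ∃ k, k = (n + 9) / 10 := ⟨_, rfl⟩
      rw [← hk]
      have hk1 : n ≤ 10 * k := by omega
      have hk2 : 10 * k ≤ n + 9 := by omega
      have h3 := bnd_le (k := k) (n := n) (by omega) (by omega)
      have h4 : 100 * k ^ 2 ≤ (n + 9) ^ 2 := by nlinarith
      have h5 : 120 * bnd k n < 120 * s := by nlinarith
      omega
  · rcases Nat.lt_or_ge n 80 with h | h
    · have h3 := (small_cases n h hn).2
      rw [Nat.div_lt_iff_lt_mul two_pos]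
      have h4 : 6 * (n * (n - 1)) < 6 * ((s + max 2 ((n + 9) / 10) * (n - max 2 ((n + 9) / 10))) * 2) := by
        nlinarith
      omega
    · have e : max 2 ((n + 9) / 10) = (n + 9) / 10 := by omega
      rw [e]
      obtain ⟨k, hk⟩ : ∃ k, k = (n + 9) / 10 := ⟨_, rfl⟩
      rw [← hk]
      have hk1 : n ≤ 10 * k := by omega
      have hk2 : 10 * k ≤ n + 9 := by omega
      rw [Nat.div_lt_iff_lt_mul two_pos]
      obtain ⟨j, rfl⟩ : ∃ j, n = k + j := ⟨n - k, by omega⟩
      rw [Nat.add_sub_cancel_left]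
      have h3 : (k + j) * (k + j - 1) + (k + j) = (k + j) ^ 2 := by
        obtain ⟨i, hi⟩ : ∃ i, k + j = i + 1 := ⟨k + j - 1, by omega⟩
        rw [hi, Nat.add_sub_cancel]
        ring
      have hj : j ≤ 9 * k := by omega
      have hj2 : 9 * k ≤ j + 9 := by omega
      nlinarith

end Pool.Agent.V7H55.ET
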