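import Mathlib
import Pool.Agent.V7H55.ET.Arith

set_option autoImplicit false

/-!
# Fields with many symbols
-/

namespace Pool.Agent.V7H55.ET

open Pool.Agent.Y920.EP

section

variable {p : ℕ} [Fact p.Prime] {F : Type} [Field F]

/-- `p ∈ O*` and `O* T ≠ F*` -/
structure Adm (p : ℕ) {F : Type} [Field F] (T : Subgroup Fˣ) (O : ValuationSubring F) : Prop where
  inv_mem : (p : F)⁻¹ ∈ O
  ne_top : O.unitGroup ⊔ T ≠ ⊤

/-- `(1 + m) T` -/
def near {F : Type} [Field F] (O : ValuationSubring F) (T : Subgroup Fˣ) : Subgroup Fˣ :=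
  O.principalUnitGroup ⊔ T

lemma near_one {O : ValuationSubring F} {T : Subgroup Fˣ} {x : F} (hx : x ∈ O) (hx' : x⁻¹ ∉ O) :
    ∃ t ∈ near O T, (t : F) = 1 + x := by
  have hx0 : x ≠ 0 := by
    rintro rfl
    exact hx' (by rw [inv_zero]; exact O.zero_mem)
  have hv : O.valuation ((Units.mk0 x hx0 : Fˣ) : F) < 1 :=
    Pool.Agent.Y232.EP.lt_one hx0 hx'
  refine ⟨oneAdd (Units.mk0 x hx0) hv, Subgroup.mem_sup_left ?_, val_oneAdd _ _⟩
  rw [ValuationSubring.mem_principalUnitGroup_iff, val_oneAdd, add_sub_cancel_left]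
  exact hv

omit [Fact p.Prime] in
lemma Adm.gd {O : ValuationSubring F} {T : Subgroup Fˣ} (h : Adm p T O) : Gd p (near O T) := by
  refine ⟨O, h.inv_mem, fun x hx hx' => near_one hx hx', fun htop => h.ne_top ?_⟩
  rw [eq_top_iff, ← htop]
  unfold near
  rw [← sup_assoc]
  exact sup_le (sup_le le_sup_left (O.principal_units_le_units.trans le_sup_left)) le_sup_right

omit [Fact p.Prime] in
/-- a subgroup with a valuation ring contains `(1 + m) B` -/
lemma Gd.adm {B T : Subgroup Fˣ} (hB : B ≤ T) (h : Gd p T) :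
    ∃ O : ValuationSubring F, Adm p B O ∧ near O B ≤ T := by
  obtain ⟨O, h1, h2, h3⟩ := h
  refine ⟨O, ⟨h1, fun htop => h3 ?_⟩, ?_⟩
  · rw [eq_top_iff, ← htop]
    exact sup_le_sup_left hB _
  · refine sup_le ?_ hB
    intro u hu
    rw [ValuationSubring.mem_principalUnitGroup_iff] at hu
    by_cases h0 : (u : F) - 1 = 0
    · have : u = 1 := Units.ext (by rw [Units.val_one]; linear_combination h0)
      rw [this]
      exact one_mem _
    · obtain ⟨t, ht, ht1⟩ := h2 _ ((O.valuation_le_one_iff _).1 hu.le)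
        (Pool.Agent.Y232.EP.of_lt_one h0 hu)
      have : u = t := Units.ext (by rw [ht1]; ring)
      rw [this]
      exact ht

lemma index_le {S T : Subgroup Fˣ} (h : S ≤ T) (hS : S.index ≠ 0) : T.index ≤ S.index :=
  Nat.le_of_dvd (Nat.pos_of_ne_zero hS) (Subgroup.index_dvd_of_le h)

/-- **The bound for the valuation ring with the smallest `(1 + m) B`.** -/
theorem bound (hp2 : p ≠ 2) (hp0 : (p : F) ≠ 0) {B : Subgroup Fˣ} (hB : pwG F p ≤ B)
    {O : ValuationSubring F} (hO : Adm p B O)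
    (hmax : ∀ O' : ValuationSubring F, Adm p B O' → (near O' B).index ≤ (near O B).index)
    {n t : ℕ} (ht : t ≤ n) (hn : B.index = p ^ n) (hidx : (near O B).index = p ^ (n - t)) :
    Nat.card (Sym p B) ≤ p ^ (t * (t - 1) / 2) * Nat.card (Sym p (near O B)) := by
  have hp : p.Prime := Fact.out
  have hfin : B.index ≠ 0 := by rw [hn]; exact (pow_pos hp.pos _).ne'
  refine chain hp2 hp0 hB (n - t) ?_ hO.gd hidx t B le_rfl le_sup_right (by
    rw [hn]; congr 1; omega)
  intro T' hBT' hT'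
  obtain ⟨O', hO', hle⟩ := hT'.adm hBT'
  rw [← hidx]
  refine (index_le hle ?_).trans (hmax O' hO')
  intro h0
  apply hfin
  have h1 : (near O' B).index ∣ B.index := Subgroup.index_dvd_of_le le_sup_right
  rw [h0] at h1
  exact Nat.eq_zero_of_zero_dvd h1

/-- the numerical form -/
theorem bound_num (hp2 : p ≠ 2) (hp0 : (p : F) ≠ 0) {B : Subgroup Fˣ} (hB : pwG F p ≤ B)
    {O : ValuationSubring F} (hO : Adm p B O)
    (hmax : ∀ O' : ValuationSubring F, Adm p B O' → (near O' B).index ≤ (near O B).index)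
    {n t s : ℕ} (ht : t ≤ n) (hn : B.index = p ^ n) (hidx : (near O B).index = p ^ (n - t))
    (hs : p ^ s ≤ Nat.card (Sym p B)) : s + t * (n - t) ≤ n * (n - 1) / 2 := by
  have hp : p.Prime := Fact.out
  have h1 := bound hp2 hp0 hB hO hmax ht hn hidx
  have h2 := card_Sym_triv hp2 (n - t) (near O B) (hB.trans le_sup_right) hidx
  have h3 : p ^ s ≤ p ^ (t * (t - 1) / 2 + (n - t) * (n - t - 1) / 2) := by
    rw [pow_add]
    exact hs.trans (h1.trans (Nat.mul_le_mul_left _ h2))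
  have h4 := (Nat.pow_le_pow_iff_right hp.one_lt).1 h3
  obtain ⟨j, rfl⟩ : ∃ j, n = t + j := ⟨n - t, by omega⟩
  rw [Nat.add_sub_cancel_left] at h4 ⊢
  have h5 : 2 * (t * (t - 1) / 2) ≤ t * (t - 1) := Nat.mul_div_le _ _
  have h6 : 2 * (j * (j - 1) / 2) ≤ j * (j - 1) := Nat.mul_div_le _ _
  rw [Nat.le_div_iff_mul_le two_pos]
  have h7 : t * (t - 1) + t = t * t := by
    rcases t with - | i
    · rfl
    · rw [Nat.add_sub_cancel]; ring
  have h8 : j * (j - 1) + j = j * j := by
    rcases j with - | i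
    · rfl
    · rw [Nat.add_sub_cancel]; ring
  have h9 : (t + j) * (t + j - 1) + (t + j) = (t + j) * (t + j) := by
    rcases Nat.eq_zero_or_pos (t + j) with h | h
    · rw [h]
    · obtain ⟨i, hi⟩ : ∃ i, t + j = i + 1 := ⟨t + j - 1, by omega⟩
      rw [hi, Nat.add_sub_cancel]; ring
  nlinarith

/-- if `1 + m` is not contained in `B`, some annihilator has small index -/
theorem exists_ann (hp2 : p ≠ 2) (hp0 : (p : F) ≠ 0) {B : Subgroup Fˣ} (hB : pwG F p ≤ B)
    {O : ValuationSubring F} (hO : Adm p B O)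
    (hmax : ∀ O' : ValuationSubring F, Adm p B O' → (near O' B).index ≤ (near O B).index)
    {n t : ℕ} (ht : t ≤ n) (ht1 : 1 ≤ t) (hn : B.index = p ^ n)
    (hidx : (near O B).index = p ^ (n - t)) :
    ∃ a, a ∈ near O B ∧ a ∉ B ∧ (Ns p B a).index ≤ p ^ (t - 1) := by
  have hp : p.Prime := Fact.out
  have hfin : B.index ≠ 0 := by rw [hn]; exact (pow_pos hp.pos _).ne'
  have hnot : ¬ Gd p B := by
    intro h
    obtain ⟨O', hO', hle⟩ := h.adm le_rfl
    have h1 : (near O' B).index ∣ B.index := Subgroup.index_dvd_of_le le_sup_right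
    have h2 : B.index ≤ (near O' B).index := by
      refine index_le hle fun h0 => hfin ?_
      rw [h0] at h1
      exact Nat.eq_zero_of_zero_dvd h1
    have h3 := h2.trans (hmax O' hO')
    rw [hn, hidx] at h3
    have h4 := (Nat.pow_le_pow_iff_right hp.one_lt).1 h3
    omega
  obtain ⟨O₁, h1, h2, h3⟩ := hO.gd
  obtain ⟨a, haT, ha, hrep⟩ := key hp hp0 hB hfin (le_sup_right : B ≤ near O B) hnot h1 h2 h3
  refine ⟨a, haT, ha, ?_⟩
  have hidx1 := index_adj hB ha (m := n - 1) (by rw [hn]; congr 1; omega)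
  refine index_Ns_le hp2 (le_sup_right : B ≤ near O B) haT ?_ (m := t - 1) (k := n - t) (by
    rw [hidx1]; congr 1; omega) hidx
  rw [eq_top_iff]
  intro b _
  obtain ⟨c, w, hw, hwb⟩ := hrep b
  have h1 : w ∈ Ns p B a := one_sub_mem_Ns hw
  have e : b = w * (w * b⁻¹)⁻¹ := by
    rw [mul_inv, inv_inv, mul_inv_cancel_left]
  rw [e]
  exact Subgroup.mul_mem_sup h1 (inv_mem hwb)

/-- there is a valuation ring with the smallest `(1 + m) B` -/
theorem exists_max {B : Subgroup Fˣ} {n k : ℕ} (hn : B.index = p ^ n)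
    (hex : ∃ O : ValuationSubring F, Adm p B O ∧ p ^ k ≤ (near O B).index) :
    ∃ (O : ValuationSubring F) (t : ℕ), Adm p B O ∧
      (∀ O' : ValuationSubring F, Adm p B O' → (near O' B).index ≤ (near O B).index) ∧
      t + k ≤ n ∧ (near O B).index = p ^ (n - t) := by
  have hp : p.Prime := Fact.out
  have hle : ∀ O : ValuationSubring F, (near O B).index ∣ p ^ n := by
    intro O
    rw [← hn]
    exact Subgroup.index_dvd_of_le le_sup_right
  obtain ⟨O₀, hO₀, hk⟩ := hex
  obtain ⟨O, hO, hmax⟩ : ∃ O : ValuationSubring F, Adm p B O ∧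
      ∀ O' : ValuationSubring F, Adm p B O' → (near O' B).index ≤ (near O B).index := by
    by_contra hc
    push Not at hc
    have : ∀ i : ℕ, ∃ O : ValuationSubring F, Adm p B O ∧ i ≤ (near O B).index := by
      intro i
      induction i with
      | zero => exact ⟨O₀, hO₀, Nat.zero_le _⟩
      | succ i ih =>
        obtain ⟨O, hO, h1⟩ := ih
        obtain ⟨O', hO', h2⟩ := hc O hO
        exact ⟨O', hO', by omega⟩
    obtain ⟨O, hO, h1⟩ := this (p ^ n + 1)
    have := Nat.le_of_dvd (pow_pos hp.pos n) (hle O)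
    omega
  obtain ⟨i, hi, h1⟩ := (Nat.dvd_prime_pow hp).1 (hle O)
  have h2 := hk.trans (hmax O₀ hO₀)
  rw [h1] at h2
  have h3 := (Nat.pow_le_pow_iff_right hp.one_lt).1 h2
  refine ⟨O, n - i, hO, hmax, by omega, ?_⟩
  rw [h1]
  congr 1
  omega

/-- **Existence.** -/
theorem exists_val (hp2 : p ≠ 2) (hζ : ∃ ζ : F, IsPrimitiveRoot ζ p)
    (hfin : (pwG F p).index ≠ 0) {B : Subgroup Fˣ} (hB : pwG F p ≤ B) {k n s : ℕ} (hk : 2 ≤ k)
    (hkn : k ≤ n) (hn : B.index = p ^ n) (hs : p ^ s ≤ Nat.card (Sym p B))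
    (hbig : bnd k n < s) :
    ∃ O : ValuationSubring F, Adm p B O ∧ p ^ k ≤ (near O B).index := by
  have hp : p.Prime := Fact.out
  by_contra hc
  push Not at hc
  have h1 := few_bnd hp2 hζ hfin hB hk hkn (fun T' hT' hg => ?_) hn
  · have h2 := (Nat.pow_le_pow_iff_right hp.one_lt).1 (hs.trans h1)
    omega
  · obtain ⟨O', hO', hle⟩ := hg.adm hT'
    have h2 := hc O' hO'
    refine lt_of_le_of_lt (index_le hle ?_) h2
    intro h0
    have h1 : (near O' B).index ∣ B.index := Subgroup.index_dvd_of_le le_sup_right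
    rw [h0, hn] at h1
    exact (pow_pos hp.pos n).ne' (Nat.eq_zero_of_zero_dvd h1)

end

end Pool.Agent.V7H55.ET
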