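import Mathlib
import Pool.Agent.V7H55.ET.Main
import Pool.Agent.Results.MP_600e55_nt.SymbolPartitions

set_option autoImplicit false

/-!
# Galois groups
-/

namespace Pool.Agent.V7H55.ET

open Pool.Agent.Y920.EP
open Pool.Agent.Results.MP_600e55_nt.SymbolPartitions (powers IsMaximalPExtension
  IsDecompositionGroup ConclusionOfQ1)

/-- the conclusion of Q1 from a valuation ring whose one-units are `p`-th powers -/
theorem conclusion {p : ℕ} [Fact p.Prime] (hp2 : p ≠ 2) {F : Type} [Field F]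
    (hζ : ∃ ζ : F, IsPrimitiveRoot ζ p) {O : ValuationSubring F} (hpO : (p : F)⁻¹ ∈ O)
    (hle : O.principalUnitGroup ≤ powers F p) (hne : O.unitGroup ⊔ powers F p ≠ ⊤)
    (K : IntermediateField F (AlgebraicClosure F)) (hK : IsMaximalPExtension p K) :
    IsDecompositionGroup (⊤ : Subgroup (↥K ≃ₐ[F] ↥K)) ∧ ConclusionOfQ1 p K := by
  have hp : p.Prime := Fact.out
  have hG : AllG := ⟨Pool.Agent.Y86.EP.t_KUM, Pool.Agent.Y279.EP.t_UP,
    Pool.Agent.Y925.EP.t_TOWER', Pool.Agent.Y419.EP.t_INERT', Pool.Agent.Y469.EP.t_MAX'⟩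
  have hpF : (p : F) ≠ 0 := by
    obtain ⟨ζ, hζ⟩ := hζ
    have : NeZero p := ⟨hp.ne_zero⟩
    exact hζ.neZero'.ne
  have hone : ∀ x : F, x ∈ O → x⁻¹ ∉ O → ∃ y : F, y ^ p = 1 + x := by
    intro x hx hx'
    obtain ⟨t, ht, e⟩ := near_one (T := powers F p) hx hx'
    have ht' : t ∈ powers F p := (sup_le hle le_rfl : near O (powers F p) ≤ powers F p) ht
    obtain ⟨y, rfl⟩ := ht'
    exact ⟨y, by rw [← e]; rfl⟩
  obtain ⟨c, hc⟩ : ∃ c : Fˣ, c ∉ O.unitGroup ⊔ powers F p := by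
    by_contra hc
    push Not at hc
    exact hne (eq_top_iff.2 fun c _ => hc c)
  have hD : DecInert F K := decInert hG p hp hp2 F hζ O ⟨hpO, hpF, hone⟩ ⟨c, ?_⟩ K hK
  · refine ⟨?_, efratP p F K hD⟩
    obtain ⟨Γ, hΓ, w, hw, σ, hσ, hσw⟩ := hD
    exact ⟨Γ, hΓ, w, fun τ => ⟨fun _ x => hw τ x, fun _ => trivial⟩, σ, trivial, hσ, hσw⟩
  · rintro f ⟨h6, h7⟩
    apply hc
    have h8 : c * f ^ p ∈ O.unitGroup := Pool.Agent.R675.TP.mem_unitGroup_of h6 h7
    have h9 : f ^ p ∈ powers F p := ⟨f, rfl⟩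
    have h10 := mul_mem (show c * f ^ p ∈ O.unitGroup ⊔ powers F p from
      Subgroup.mem_sup_left h8)
      (inv_mem (show f ^ p ∈ O.unitGroup ⊔ powers F p from Subgroup.mem_sup_right h9))
    rwa [mul_inv_cancel_right] at h10

end Pool.Agent.V7H55.ET
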