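import Mathlib
import Pool.Agent.V7H55.ET.Main

set_option autoImplicit false

/-!
# Valuation rings with the smallest `(1 + m) T` among their overrings
-/

namespace Pool.Agent.V7H55.ET

open Pool.Agent.Y920.EP
open Pool.Agent.Y232.EP (lt_one of_lt_one)

section

variable {F : Type} [Field F] {p : ℕ} {O : ValuationSubring F} {T : Subgroup Fˣ}

/-- `O` is admissible, and `(1 + m') T = (1 + m) T` for all admissible overrings `O'` -/
structure Tight (p : ℕ) {F : Type} [Field F] (T : Subgroup Fˣ) (O : ValuationSubring F) : Prop where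
  adm : Adm p T O
  eq : ∀ O' : ValuationSubring F, O ≤ O' → Adm p T O' → near O' T = near O T

lemma near_anti {O' : ValuationSubring F} (h : O ≤ O') : near O' T ≤ near O T :=
  sup_le_sup_right (ValuationSubring.principalUnitGroup_le_principalUnitGroup.2 h) _

lemma eq_of_index {S S' : Subgroup Fˣ} (h : S ≤ S') (h0 : S.index ≠ 0)
    (h1 : S.index ≤ S'.index) : S = S' := by
  have h2 : S.relIndex S' * S'.index = S.index := Subgroup.relIndex_mul_index h
  have h3 : S'.index ≤ S.index := index_le h h0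
  have h4 : S'.index = S.index := le_antisymm h3 h1
  rw [h4] at h2
  have h5 : S.relIndex S' = 1 :=
    Nat.eq_of_mul_eq_mul_right (Nat.pos_of_ne_zero h0) (by rw [h2, one_mul])
  exact le_antisymm h (Subgroup.relIndex_eq_one.1 h5)

lemma index_near_ne (hfin : T.index ≠ 0) : (near O T).index ≠ 0 := by
  intro h
  have h1 : (near O T).index ∣ T.index := Subgroup.index_dvd_of_le le_sup_right
  rw [h] at h1
  exact hfin (Nat.eq_zero_of_zero_dvd h1)

/-- every admissible ring has a tight overring -/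
theorem exists_tight (hfin : T.index ≠ 0) (hO : Adm p T O) :
    ∃ O₁ : ValuationSubring F, O ≤ O₁ ∧ Tight p T O₁ := by
  by_contra hc
  push Not at hc
  have : ∀ i : ℕ, ∃ O' : ValuationSubring F, O ≤ O' ∧ Adm p T O' ∧ i ≤ (near O' T).index := by
    intro i
    induction i with
    | zero => exact ⟨O, le_rfl, hO, Nat.zero_le _⟩
    | succ i ih =>
      obtain ⟨O', h1, h2, h3⟩ := ih
      have h4 : ¬ Tight p T O' := hc O' h1
      have h5 : ∃ O'' : ValuationSubring F, O' ≤ O'' ∧ Adm p T O'' ∧ near O'' T ≠ near O' T := by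
        by_contra hc'
        push Not at hc'
        exact h4 ⟨h2, hc'⟩
      obtain ⟨O'', h6, h7, h8⟩ := h5
      refine ⟨O'', h1.trans h6, h7, ?_⟩
      by_contra h9
      apply h8
      exact eq_of_index (near_anti h6) (index_near_ne hfin) (by omega)
  obtain ⟨O', -, -, h⟩ := this (T.index + 1)
  have h1 : (near O' T).index ≤ T.index := index_le le_sup_right hfin
  omega

/-- elements of `1 + m` are in `(1 + m) T` -/
lemma mem_near {u : Fˣ} (h : O.valuation ((u : F) - 1) < 1) : u ∈ near O T := by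
  apply Subgroup.mem_sup_left
  rw [ValuationSubring.mem_principalUnitGroup_iff]
  exact h

/-- all classes modulo `T` contain elements that are not thin for `T'` -/
lemma exists_rep' (hp : p.Prime) (hp0 : (p : F) ≠ 0) (hT : pwG F p ≤ T) (hO : Tight p T O)
    {T' : Subgroup Fˣ} (hTT' : T ≤ T') (hT' : ¬ near O T ≤ T') (b : Fˣ) :
    ∃ γ : Fˣ, NT O T' γ ∧ γ * b⁻¹ ∈ T := by
  have hpO := hO.adm.inv_mem
  have hTp' : pwG F p ≤ T' := hT.trans hTT'
  have hex : ∃ z, NT O T' z := by
    by_contra hc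
    push Not at hc
    apply hT'
    refine sup_le ?_ hTT'
    intro u hu
    rw [ValuationSubring.mem_principalUnitGroup_iff] at hu
    by_cases h0 : (u : F) - 1 = 0
    · have : u = 1 := Units.ext (by rw [Units.val_one]; linear_combination h0)
      rw [this]
      exact one_mem _
    · have hth : Thin O T' (Units.mk0 _ h0) := by
        by_contra hth
        exact hc (Units.mk0 _ h0) ⟨hu, hth⟩
      exact hth u le_rfl
  obtain ⟨z₀, hz₀⟩ := hex
  set M := den hpO hp0 hTp' with hM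
  have hMO : ∀ a ∈ M, (a : F) ∈ O := fun a ha => (O.valuation_le_one_iff _).1 (den_le ha)
  have hle : O.toSubring ≤ loc O M hMO := by
    intro x hx
    exact ⟨1, M.one_mem, by rw [Units.val_one, one_mul]; exact hx⟩
  set O' := ValuationSubring.ofLE O (loc O M hMO) hle with hO'
  have hOO' : O ≤ O' := hle
  have htop : O'.unitGroup ⊔ T = ⊤ := by
    by_contra hne'
    have h1 := hO.eq O' hOO' ⟨hle hpO, hne'⟩
    apply hT'
    rw [← h1]
    refine sup_le ?_ hTT'
    intro u hu
    rw [ValuationSubring.mem_principalUnitGroup_iff] at hu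
    by_cases h0 : (u : F) - 1 = 0
    · have : u = 1 := Units.ext (by rw [Units.val_one]; linear_combination h0)
      rw [this]
      exact one_mem _
    · have hx' : ((u : F) - 1)⁻¹ ∉ O' := of_lt_one h0 hu
      have h3 : ((u : F) - 1)⁻¹ ∉ O := fun h4 => hx' (hle h4)
      have hv : O.valuation ((Units.mk0 _ h0 : Fˣ) : F) < 1 := lt_one h0 h3
      have hth : Thin O T' (Units.mk0 _ h0) := by
        by_contra hth
        apply hx'
        refine ⟨Units.mk0 _ h0, Or.inr ⟨hv, hth⟩, ?_⟩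
        rw [Units.val_mk0, mul_inv_cancel₀ h0]
        exact O.one_mem
      exact hth u le_rfl
  have hb : b ∈ O'.unitGroup ⊔ T := by rw [htop]; trivial
  obtain ⟨g, hg, t, ht, rfl⟩ := Subgroup.mem_sup.1 hb
  have h1 : (g : F) ∈ O' := (ValuationSubring.valuation_le_one_iff _ _).1 (le_of_eq hg)
  have h2 : ((g⁻¹ : Fˣ) : F) ∈ O' := (ValuationSubring.valuation_le_one_iff _ _).1
    (le_of_eq (inv_mem hg : g⁻¹ ∈ O'.unitGroup))
  obtain ⟨n, hnM, hn⟩ : ∃ n ∈ M, (n : F) * g ∈ O := h1
  obtain ⟨m, hmM, hm⟩ : ∃ m ∈ M, (m : F) * ((g⁻¹ : Fˣ) : F) ∈ O := h2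
  rw [← O.valuation_le_one_iff, map_mul] at hn hm
  set s : Fˣ := n * (m * z₀) with hs
  have hsN : NT O T' s := (hz₀.mul_den hmM).mul_den hnM
  obtain ⟨q, hq⟩ : ∃ q, p = q + 1 := ⟨p - 1, by have := hp.pos; omega⟩
  have hsp : NT O T' (s ^ p) := by rw [hq]; exact hsN.pow hpO hp0 hTp' q
  have hmsp : NT O T' (m * s ^ p) := hsp.mul_den hmM
  have hvm := v_pos (O := O) m
  have hvg := v_pos (O := O) g
  refine ⟨g * s ^ p, ⟨?_, fun hth => ?_⟩, ?_⟩
  · -- the value
    have h3 : O.valuation (s : F) ≤ O.valuation (n : F) := by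
      rw [hs, Units.val_mul, map_mul]
      refine mul_le_of_le_one_right' ?_
      rw [Units.val_mul, map_mul]
      exact mul_le_one' (den_le hmM) hz₀.1.le
    rw [Units.val_mul, Units.val_pow_eq_pow_val, map_mul, map_pow, hq, pow_succ',
      ← mul_assoc]
    have h4 : O.valuation (g : F) * O.valuation (s : F) ≤ 1 := by
      refine (mul_le_mul' le_rfl h3).trans ?_
      rw [mul_comm]
      exact hn
    have hq0 : q ≠ 0 := by
      rintro rfl
      have := hp.two_le
      omega
    exact lt_of_le_of_lt (mul_le_of_le_one_left' h4) (pow_lt_one₀ zero_le hsN.1 hq0)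
  · apply hmsp.2
    refine hth.mono ?_
    rw [Units.val_mul, Units.val_mul, map_mul, map_mul]
    refine mul_le_mul' ?_ le_rfl
    rw [Units.val_inv_eq_inv_val, map_inv₀, ← div_eq_mul_inv] at hm
    exact (div_le_one₀ hvg).1 hm
  · have h5 : s ^ p ∈ T := hT ⟨s, rfl⟩
    have e : g * s ^ p * (g * t)⁻¹ = s ^ p * t⁻¹ := by
      rw [mul_inv]
      calc g * s ^ p * (g⁻¹ * t⁻¹) = (g * g⁻¹) * (s ^ p * t⁻¹) := by
            rw [mul_mul_mul_comm]
        _ = s ^ p * t⁻¹ := by rw [mul_inv_cancel, one_mul]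
    rw [e]
    exact mul_mem h5 (inv_mem ht)

/-- the group `1 + z O`, for `z ∈ m` -/
def ball (O : ValuationSubring F) (z : Fˣ) (hz : O.valuation (z : F) < 1) : Subgroup Fˣ where
  carrier := {u | O.valuation ((u : F) - 1) ≤ O.valuation (z : F)}
  mul_mem' := by
    intro a b ha hb
    have ha1 : O.valuation (a : F) = 1 := v_eq_of_sub_one (lt_of_le_of_lt ha hz)
    have e : ((a * b : Fˣ) : F) - 1 = a * ((b : F) - 1) + ((a : F) - 1) := by push_cast; ring
    rw [Set.mem_ofPred_eq, e]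
    refine (Valuation.map_add _ _ _).trans (max_le ?_ ha)
    rw [map_mul, ha1, one_mul]
    exact hb
  one_mem' := by
    rw [Set.mem_ofPred_eq, Units.val_one, sub_self, map_zero]
    exact zero_le
  inv_mem' := by
    intro a ha
    have ha1 : O.valuation (a : F) = 1 := v_eq_of_sub_one (lt_of_le_of_lt ha hz)
    have e : ((a⁻¹ : Fˣ) : F) - 1 = - (((a : F) - 1) * ((a⁻¹ : Fˣ) : F)) := by
      rw [Units.val_inv_eq_inv_val]
      have := a.ne_zero
      field_simp
      ring
    rw [Set.mem_ofPred_eq, e, Valuation.map_neg, map_mul, Units.val_inv_eq_inv_val, map_inv₀, ha1,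
      inv_one, mul_one]
    exact ha

/-- `z ∈ m` and `(1 + z O) T = (1 + m) T` -/
def Deep (O : ValuationSubring F) (T : Subgroup Fˣ) (z : Fˣ) : Prop :=
  ∃ hz : O.valuation (z : F) < 1, near O T ≤ ball O z hz ⊔ T

lemma Deep.lt {z : Fˣ} (h : Deep O T z) : O.valuation (z : F) < 1 := h.1

lemma ball_mono {z z' : Fˣ} (hz : O.valuation (z : F) < 1) (hz' : O.valuation (z' : F) < 1)
    (h : O.valuation (z : F) ≤ O.valuation (z' : F)) : ball O z hz ≤ ball O z' hz' := by
  intro u hu
  exact le_trans (show O.valuation ((u : F) - 1) ≤ O.valuation (z : F) from hu) h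

/-- deep elements are not thin -/
lemma Deep.nt {z : Fˣ} (h : Deep O T z) {T' : Subgroup Fˣ} (hTT' : T ≤ T')
    (hT' : ¬ near O T ≤ T') : NT O T' z :=
  ⟨h.1, fun hth => hT' (h.2.trans (sup_le (fun u hu => hth u hu) hTT'))⟩

/-- one group decides -/
lemma exists_crit (hfin : T.index ≠ 0) (hne : ¬ near O T ≤ T) :
    ∃ T' : Subgroup Fˣ, T ≤ T' ∧ ¬ near O T ≤ T' ∧ ∀ z, NT O T' z → Deep O T z := by
  by_cases hex : ∃ (z : Fˣ) (hz : O.valuation (z : F) < 1), ¬ near O T ≤ ball O z hz ⊔ T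
  · -- the smallest index
    let P : ℕ → Prop := fun i => ∃ (z : Fˣ) (hz : O.valuation (z : F) < 1),
      ¬ near O T ≤ ball O z hz ⊔ T ∧ (ball O z hz ⊔ T).index = i
    have hP : ∃ i, P i := by
      obtain ⟨z, hz, h⟩ := hex
      exact ⟨_, z, hz, h, rfl⟩
    classical
    obtain ⟨z, hz, h1, h2⟩ := Nat.find_spec hP
    have hmin := fun (i : ℕ) (hi : P i) => Nat.find_min' hP hi
    refine ⟨ball O z hz ⊔ T, le_sup_right, h1, ?_⟩
    rintro z' ⟨hz', hnt⟩
    by_contra hd
    have hd' : ¬ near O T ≤ ball O z' hz' ⊔ T := fun h => hd ⟨hz', h⟩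
    apply hnt
    have hfin' : (ball O z hz ⊔ T).index ≠ 0 := by
      intro h
      have h3 : (ball O z hz ⊔ T).index ∣ T.index := Subgroup.index_dvd_of_le le_sup_right
      rw [h] at h3
      exact hfin (Nat.eq_zero_of_zero_dvd h3)
    intro u hu
    rcases le_total (O.valuation (z' : F)) (O.valuation (z : F)) with h | h
    · exact Subgroup.mem_sup_left (ball_mono hz' hz h hu)
    · have h3 : ball O z hz ⊔ T ≤ ball O z' hz' ⊔ T := sup_le_sup_right (ball_mono hz hz' h) _
      have h4 := eq_of_index h3 hfin' (by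
        rw [h2]
        exact hmin _ ⟨z', hz', hd', rfl⟩)
      rw [h4]
      exact Subgroup.mem_sup_left hu
  · push Not at hex
    exact ⟨T, le_rfl, hne, fun z hz => ⟨hz.1, hex z hz.1⟩⟩

lemma Deep.mul (hp0 : (p : F) ≠ 0) (hpO : (p : F)⁻¹ ∈ O) (hT : pwG F p ≤ T)
    (hfin : T.index ≠ 0) (hne : ¬ near O T ≤ T) {z z' : Fˣ} (h : Deep O T z) (h' : Deep O T z') :
    Deep O T (z * z') := by
  obtain ⟨T', h1, h2, h3⟩ := exists_crit hfin hne
  exact h3 _ ((h.nt h1 h2).mul hpO hp0 (hT.trans h1) (h'.nt h1 h2))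

/-- all classes contain deep elements -/
theorem exists_deep (hp : p.Prime) (hp0 : (p : F) ≠ 0) (hT : pwG F p ≤ T)
    (hfin : T.index ≠ 0) (hO : Tight p T O) (hne : ¬ near O T ≤ T) (b : Fˣ) :
    ∃ γ : Fˣ, Deep O T γ ∧ γ * b⁻¹ ∈ T := by
  obtain ⟨T', h1, h2, h3⟩ := exists_crit hfin hne
  obtain ⟨γ, h4, h5⟩ := exists_rep' hp hp0 hT hO h1 h2 b
  exact ⟨γ, h3 γ h4, h5⟩

end

end Pool.Agent.V7H55.ET
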