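import Mathlib
import Pool.Agent.V7H55.ET.Tight

set_option autoImplicit false

/-!
# Two incomparable valuation rings
-/

namespace Pool.Agent.V7H55.ET

open Pool.Agent.Y920.EP
open Pool.Agent.Y232.EP (lt_one of_lt_one)

section

variable {F : Type} [Field F] (O₁ O₂ : ValuationSubring F)

/-- products of elements of `O₁` and `O₂` -/
def PP : Set F := {x | ∃ a ∈ O₁, ∃ b ∈ O₂, x = a * b}

variable {O₁ O₂}

lemma PP_left {x : F} (h : x ∈ O₁) : x ∈ PP O₁ O₂ := ⟨x, h, 1, O₂.one_mem, (mul_one x).symm⟩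

lemma PP_right {x : F} (h : x ∈ O₂) : x ∈ PP O₁ O₂ := ⟨1, O₁.one_mem, x, h, (one_mul x).symm⟩

lemma PP_mul {x y : F} (hx : x ∈ PP O₁ O₂) (hy : y ∈ PP O₁ O₂) : x * y ∈ PP O₁ O₂ := by
  obtain ⟨a, ha, b, hb, rfl⟩ := hx
  obtain ⟨a', ha', b', hb', rfl⟩ := hy
  exact ⟨a * a', O₁.mul_mem _ _ ha ha', b * b', O₂.mul_mem _ _ hb hb', by ring⟩

lemma PP_one_add {r s : F} (hr : r ∈ O₁) (hs : s ∈ O₂) : 1 + r * s ∈ PP O₁ O₂ := by
  by_cases h : r * s ∈ O₁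
  · exact PP_left (O₁.add_mem _ _ O₁.one_mem h)
  · have h0 : r * s ≠ 0 := by
      intro h0
      rw [h0] at h
      exact h O₁.zero_mem
    have h1 : (r * s)⁻¹ ∈ O₁ := (O₁.mem_or_inv_mem _).resolve_left h
    refine ⟨r * (1 + (r * s)⁻¹), O₁.mul_mem _ _ hr (O₁.add_mem _ _ O₁.one_mem h1), s, hs, ?_⟩
    have e : r * (1 + (r * s)⁻¹) * s = r * s + r * s * (r * s)⁻¹ := by ring
    rw [e, mul_inv_cancel₀ h0, add_comm]

lemma PP_add' {r t : F} (hr : r ∈ O₁) (ht : t ∈ O₂) : r + t ∈ PP O₁ O₂ := by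
  by_cases h : r ∈ O₂
  · exact PP_right (O₂.add_mem _ _ h ht)
  · have h0 : r ≠ 0 := by
      rintro rfl
      exact h O₂.zero_mem
    have h1 : r⁻¹ ∈ O₂ := (O₂.mem_or_inv_mem _).resolve_left h
    refine ⟨r, hr, 1 + t * r⁻¹, O₂.add_mem _ _ O₂.one_mem (O₂.mul_mem _ _ ht h1), ?_⟩
    field_simp

lemma PP_add {x y : F} (hx : x ∈ PP O₁ O₂) (hy : y ∈ PP O₁ O₂) : x + y ∈ PP O₁ O₂ := by
  by_cases hx0 : x = 0
  · rw [hx0, zero_add]; exact hy
  by_cases hy0 : y = 0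
  · rw [hy0, add_zero]; exact hx
  obtain ⟨a, ha, b, hb, rfl⟩ := hx
  obtain ⟨a', ha', b', hb', rfl⟩ := hy
  have ha0 : a ≠ 0 := left_ne_zero_of_mul hx0
  have hb0 : b ≠ 0 := right_ne_zero_of_mul hx0
  have ha0' : a' ≠ 0 := left_ne_zero_of_mul hy0
  have hb0' : b' ≠ 0 := right_ne_zero_of_mul hy0
  rcases O₁.mem_or_inv_mem (a' / a) with h1 | h1 <;> rcases O₂.mem_or_inv_mem (b' / b) with h2 | h2
  · have e : a * b + a' * b' = a * b * (1 + a' / a * (b' / b)) := by field_simp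
    rw [e]
    exact PP_mul ⟨a, ha, b, hb, rfl⟩ (PP_one_add h1 h2)
  · have e : a * b + a' * b' = a * b' * (a' / a + (b' / b)⁻¹) := by field_simp; ring
    rw [e]
    exact PP_mul ⟨a, ha, b', hb', rfl⟩ (PP_add' h1 h2)
  · have e : a * b + a' * b' = a' * b * ((a' / a)⁻¹ + b' / b) := by field_simp
    rw [e]
    exact PP_mul ⟨a', ha', b, hb, rfl⟩ (PP_add' h1 h2)
  · have e : a * b + a' * b' = a' * b' * (1 + (a' / a)⁻¹ * (b' / b)⁻¹) := by field_simp; ring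
    rw [e]
    exact PP_mul ⟨a', ha', b', hb', rfl⟩ (PP_one_add h1 h2)

variable (O₁ O₂) in
/-- the ring of the products -/
def PR : Subring F where
  carrier := PP O₁ O₂
  mul_mem' := PP_mul
  one_mem' := PP_left O₁.one_mem
  add_mem' := PP_add
  zero_mem' := PP_left O₁.zero_mem
  neg_mem' := by
    rintro x ⟨a, ha, b, hb, rfl⟩
    exact ⟨-a, O₁.neg_mem _ ha, b, hb, by ring⟩

variable (O₁ O₂) in
/-- the valuation ring of the products -/
def PV : ValuationSubring F := ValuationSubring.ofLE O₁ (PR O₁ O₂) (fun _ hx => PP_left hx)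

lemma mem_PV {x : F} : x ∈ PV O₁ O₂ ↔ x ∈ PP O₁ O₂ := Iff.rfl

lemma left_le_PV : O₁ ≤ PV O₁ O₂ := fun _ hx => PP_left hx

lemma right_le_PV : O₂ ≤ PV O₁ O₂ := fun _ hx => PP_right hx

/-- an element which is small for `O₁` and large for `O₂` -/
lemma exists_small (h12 : ¬ O₁ ≤ O₂) (h21 : ¬ O₂ ≤ O₁) {c₁ c₂ : F} (h1 : c₁ ≠ 0) (h2 : c₂ ≠ 0)
    (h : (c₁ * c₂)⁻¹ ∈ PP O₁ O₂) :
    ∃ x : F, x ≠ 0 ∧ O₁.valuation x < O₁.valuation c₁ ∧ O₂.valuation x⁻¹ < O₂.valuation c₂ := by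
  obtain ⟨e₂, he₂, he₂'⟩ : ∃ e, e ∈ O₁ ∧ e ∉ O₂ := Set.not_subset.1 h12
  obtain ⟨e₁, he₁, he₁'⟩ : ∃ e, e ∈ O₂ ∧ e ∉ O₁ := Set.not_subset.1 h21
  have h0₁ : e₁ ≠ 0 := by rintro rfl; exact he₁' O₁.zero_mem
  have h0₂ : e₂ ≠ 0 := by rintro rfl; exact he₂' O₂.zero_mem
  obtain ⟨a, ha, b, hb, hab⟩ := PP_mul (PP_mul (PP_right (O₁ := O₁) he₁) (PP_left (O₂ := O₂) he₂)) h
  have hne : e₁ * e₂ * (c₁ * c₂)⁻¹ ≠ 0 :=
    mul_ne_zero (mul_ne_zero h0₁ h0₂) (inv_ne_zero (mul_ne_zero h1 h2))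
  have ha0 : a ≠ 0 := by rintro rfl; rw [zero_mul] at hab; exact hne hab
  have hb0 : b ≠ 0 := by rintro rfl; rw [mul_zero] at hab; exact hne hab
  have hv₁ : O₁.valuation e₁⁻¹ < 1 := by
    have := lt_one (O := O₁) (inv_ne_zero h0₁) (by rw [inv_inv]; exact he₁')
    exact this
  have hv₂ : O₂.valuation e₂⁻¹ < 1 := by
    have := lt_one (O := O₂) (inv_ne_zero h0₂) (by rw [inv_inv]; exact he₂')
    exact this
  refine ⟨c₁ * e₁⁻¹ * a, mul_ne_zero (mul_ne_zero h1 (inv_ne_zero h0₁)) ha0, ?_, ?_⟩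
  · rw [map_mul, map_mul, mul_assoc]
    have h3 : O₁.valuation e₁⁻¹ * O₁.valuation a < 1 :=
      mul_lt_one_of_lt_of_le hv₁ ((O₁.valuation_le_one_iff _).2 ha)
    exact mul_lt_of_lt_one_right (zero_lt_iff.2 ((Valuation.ne_zero_iff _).2 h1)) h3
  · have e : (c₁ * e₁⁻¹ * a)⁻¹ = c₂ * (e₂⁻¹ * b) := by
      have h4 : e₁ * e₂ = a * b * (c₁ * c₂) := by
        rw [← hab, mul_assoc, inv_mul_cancel₀ (mul_ne_zero h1 h2), mul_one]
      rw [inv_eq_iff_eq_inv]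
      field_simp
      linear_combination -h4
    rw [e, map_mul, map_mul]
    have h3 : O₂.valuation e₂⁻¹ * O₂.valuation b < 1 :=
      mul_lt_one_of_lt_of_le hv₂ ((O₂.valuation_le_one_iff _).2 hb)
    exact mul_lt_of_lt_one_right (zero_lt_iff.2 ((Valuation.ne_zero_iff _).2 h2)) h3

/-- **Approximation.** -/
theorem unit_PV_le (h12 : ¬ O₁ ≤ O₂) (h21 : ¬ O₂ ≤ O₁) :
    (PV O₁ O₂).unitGroup ≤ O₁.principalUnitGroup ⊔ O₂.principalUnitGroup := by
  intro u hu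
  have hu1 : (u : F) ∈ PP O₁ O₂ :=
    mem_PV.1 ((ValuationSubring.valuation_le_one_iff _ _).1 (le_of_eq hu))
  have hu2 : ((u⁻¹ : Fˣ) : F) ∈ PP O₁ O₂ := mem_PV.1
    ((ValuationSubring.valuation_le_one_iff _ _).1 (le_of_eq (inv_mem hu : u⁻¹ ∈ (PV O₁ O₂).unitGroup)))
  rw [Units.val_inv_eq_inv_val] at hu2
  have hu0 := u.ne_zero
  by_cases h1 : (u : F) = 1
  · have : u = 1 := Units.ext h1
    rw [this]
    exact one_mem _
  have hu10 : (u : F) - 1 ≠ 0 := sub_ne_zero.2 h1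
  have hsub : (u : F) - 1 ∈ PP O₁ O₂ := by
    have := PP_add hu1 (PP_left (O₂ := O₂) (O₁.neg_mem _ O₁.one_mem))
    rwa [← sub_eq_add_neg] at this
  -- the bounds
  obtain ⟨c₁, hc₁, hc₁i, hc₁1, hc₁u⟩ : ∃ c : F, c ≠ 0 ∧ c⁻¹ ∈ PP O₁ O₂ ∧ O₁.valuation c ≤ 1 ∧
      O₁.valuation (c * (u - 1)) ≤ 1 := by
    by_cases h : (u : F) - 1 ∈ O₁
    · exact ⟨1, one_ne_zero, by rw [inv_one]; exact PP_left O₁.one_mem, by rw [map_one],
        by rw [one_mul]; exact (O₁.valuation_le_one_iff _).2 h⟩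
    · have h' : ((u : F) - 1)⁻¹ ∈ O₁ := (O₁.mem_or_inv_mem _).resolve_left h
      exact ⟨((u : F) - 1)⁻¹, inv_ne_zero hu10, by rw [inv_inv]; exact hsub,
        (O₁.valuation_le_one_iff _).2 h', by rw [inv_mul_cancel₀ hu10, map_one]⟩
  obtain ⟨c₂, hc₂, hc₂i, hc₂1, hc₂u⟩ : ∃ c : F, c ≠ 0 ∧ c⁻¹ ∈ PP O₁ O₂ ∧ O₂.valuation c ≤ 1 ∧
      O₂.valuation (c * ((u - 1) * (u : F)⁻¹)) ≤ 1 := by
    by_cases h : ((u : F) - 1) * (u : F)⁻¹ ∈ O₂
    · exact ⟨1, one_ne_zero, by rw [inv_one]; exact PP_left O₁.one_mem, by rw [map_one],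
        by rw [one_mul]; exact (O₂.valuation_le_one_iff _).2 h⟩
    · have h0 : ((u : F) - 1) * (u : F)⁻¹ ≠ 0 := mul_ne_zero hu10 (inv_ne_zero hu0)
      have h' : (((u : F) - 1) * (u : F)⁻¹)⁻¹ ∈ O₂ := (O₂.mem_or_inv_mem _).resolve_left h
      exact ⟨_, inv_ne_zero h0, by rw [inv_inv]; exact PP_mul hsub hu2,
        (O₂.valuation_le_one_iff _).2 h', by rw [inv_mul_cancel₀ h0, map_one]⟩
  obtain ⟨x, hx0, hx1, hx2⟩ := exists_small h12 h21 hc₁ hc₂ (by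
    rw [mul_inv]
    exact PP_mul hc₁i hc₂i)
  have hx1' : O₁.valuation x < 1 := lt_of_lt_of_le hx1 hc₁1
  have hx2' : O₂.valuation x⁻¹ < 1 := lt_of_lt_of_le hx2 hc₂1
  have h1x : (1 : F) + x ≠ 0 := by
    intro h0
    have h3 := v_one_add hx1'
    rw [h0, map_zero] at h3
    exact zero_ne_one h3
  have hv1x : O₁.valuation (1 + x) = 1 := v_one_add hx1'
  have hv2x : O₂.valuation (1 + x)⁻¹ = O₂.valuation x⁻¹ := by
    have h3 : O₂.valuation (1 + x⁻¹) = 1 := v_one_add hx2'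
    have e : 1 + x = x * (1 + x⁻¹) := by field_simp; ring
    rw [e, mul_inv, map_mul, map_inv₀ _ (1 + x⁻¹), h3, inv_one, mul_one]
  -- the element `v`
  set v : F := 1 + (u - 1) * (x / (1 + x)) with hv
  have hd1 : O₁.valuation (v - 1) < 1 := by
    have e : v - 1 = (x / c₁) * (c₁ * (u - 1)) / (1 + x) := by
      rw [hv]
      field_simp
      ring
    rw [e, map_div₀, hv1x, div_one, map_mul, map_div₀]
    refine mul_lt_one_of_lt_of_le ?_ hc₁u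
    rw [div_lt_one₀ (zero_lt_iff.2 ((Valuation.ne_zero_iff _).2 hc₁))]
    exact hx1
  have hd2 : O₂.valuation (v * (u : F)⁻¹ - 1) < 1 := by
    have e : v * (u : F)⁻¹ - 1 = - ((1 + x)⁻¹ * c₂⁻¹ * (c₂ * ((u - 1) * (u : F)⁻¹))) := by
      rw [hv]
      field_simp
      ring
    rw [e, Valuation.map_neg, map_mul, map_mul, hv2x, map_inv₀ _ c₂, ← div_eq_mul_inv]
    refine mul_lt_one_of_lt_of_le ?_ hc₂u
    rw [div_lt_one₀ (zero_lt_iff.2 ((Valuation.ne_zero_iff _).2 hc₂))]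
    exact hx2
  have hv0 : v ≠ 0 := by
    intro h0
    have h3 : O₁.valuation (1 + (v - 1)) = 1 := v_one_add hd1
    rw [add_sub_cancel, h0, map_zero] at h3
    exact zero_ne_one h3
  set V : Fˣ := Units.mk0 v hv0 with hV
  have hV1 : V ∈ O₁.principalUnitGroup := by
    rw [ValuationSubring.mem_principalUnitGroup_iff]
    exact hd1
  have hV2 : V * u⁻¹ ∈ O₂.principalUnitGroup := by
    rw [ValuationSubring.mem_principalUnitGroup_iff, Units.val_mul, Units.val_inv_eq_inv_val]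
    exact hd2
  have e : u = V * (V * u⁻¹)⁻¹ := by
    rw [mul_inv, inv_inv, mul_inv_cancel_left]
  rw [e]
  exact Subgroup.mul_mem_sup hV1 (inv_mem hV2)

variable {p : ℕ} {T : Subgroup Fˣ}

/-- `O` is admissible with minimal `(1 + m) T` -/
structure Mini (p : ℕ) {F : Type} [Field F] (T : Subgroup Fˣ) (O : ValuationSubring F) : Prop where
  adm : Adm p T O
  eq : ∀ O' : ValuationSubring F, Adm p T O' → near O' T ≤ near O T → near O' T = near O T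

lemma Mini.tight {O : ValuationSubring F} (h : Mini p T O) : Tight p T O :=
  ⟨h.adm, fun O' h1 h2 => h.eq O' h2 (near_anti h1)⟩

theorem exists_mini {O : ValuationSubring F} (hfin : T.index ≠ 0) (hO : Adm p T O) :
    ∃ O₁ : ValuationSubring F, near O₁ T ≤ near O T ∧ Mini p T O₁ := by
  by_contra hc
  push Not at hc
  have : ∀ i : ℕ, ∃ O' : ValuationSubring F, near O' T ≤ near O T ∧ Adm p T O' ∧
      i ≤ (near O' T).index := by
    intro i
    induction i with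
    | zero => exact ⟨O, le_rfl, hO, Nat.zero_le _⟩
    | succ i ih =>
      obtain ⟨O', h1, h2, h3⟩ := ih
      have h4 : ¬ Mini p T O' := hc O' h1
      have h5 : ∃ O'' : ValuationSubring F, Adm p T O'' ∧ near O'' T ≤ near O' T ∧
          near O'' T ≠ near O' T := by
        by_contra hc'
        push Not at hc'
        exact h4 ⟨h2, hc'⟩
      obtain ⟨O'', h6, h7, h8⟩ := h5
      refine ⟨O'', h7.trans h1, h6, ?_⟩
      by_contra h9
      apply h8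
      exact eq_of_index h7 (index_near_ne hfin) (by omega)
  obtain ⟨O', -, -, h⟩ := this (T.index + 1)
  have h1 : (near O' T).index ≤ T.index := index_le le_sup_right hfin
  omega

/-- **Independence.** -/
theorem sup_near (h₁ : Mini p T O₁) (h₂ : Mini p T O₂) (hne : near O₁ T ≠ near O₂ T) :
    near O₁ T ⊔ near O₂ T = ⊤ := by
  have h12 : ¬ O₁ ≤ O₂ := fun h => hne (h₁.eq O₂ h₂.adm (near_anti h)).symm
  have h21 : ¬ O₂ ≤ O₁ := fun h => hne (h₂.eq O₁ h₁.adm (near_anti h))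
  have htop : (PV O₁ O₂).unitGroup ⊔ T = ⊤ := by
    by_contra hc
    have hadm : Adm p T (PV O₁ O₂) := ⟨left_le_PV h₁.adm.inv_mem, hc⟩
    have e1 := h₁.eq _ hadm (near_anti left_le_PV)
    have e2 := h₂.eq _ hadm (near_anti right_le_PV)
    exact hne (e1.symm.trans e2)
  rw [eq_top_iff, ← htop]
  refine sup_le ((unit_PV_le h12 h21).trans ?_) (le_sup_of_le_left le_sup_right)
  exact sup_le_sup le_sup_left le_sup_left

end

end Pool.Agent.V7H55.ET
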