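import Mathlib
import Pool.Agent.V7H55.ET.Clo

set_option autoImplicit false

/-!
# Norms from a compositum of extensions by `p`-th roots of elements close to `1`
-/

open IntermediateField Polynomial

namespace Pool.Agent.V7H55.ET

section val

variable {M : Type} [Field M] {W : ValuationSubring M}

/-- products of elements of `1 + d W` -/
lemma near_prod {ι : Type} {s : Finset ι} {f : ι → M} {d : M} (hd : W.valuation d < 1)
    (h : ∀ i ∈ s, W.valuation (f i - 1) ≤ W.valuation d) :
    W.valuation (∏ i ∈ s, f i - 1) ≤ W.valuation d := by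
  classical
  induction s using Finset.induction_on with
  | empty =>
    rw [Finset.prod_empty, sub_self, map_zero]
    exact zero_le
  | insert i s hi ih =>
    have h1 := h i (Finset.mem_insert_self i s)
    have h2 := ih fun j hj => h j (Finset.mem_insert_of_mem hj)
    rw [Finset.prod_insert hi]
    have e : f i * ∏ j ∈ s, f j - 1 = f i * (∏ j ∈ s, f j - 1) + (f i - 1) := by ring
    rw [e]
    refine (Valuation.map_add _ _ _).trans (max_le ?_ h1)
    rw [map_mul, val_one_of (lt_of_le_of_lt h1 hd), one_mul]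
    exact h2

/-- a product with one small factor -/
lemma small_prod {ι : Type} {s : Finset ι} {f : ι → M} {d : M} {i : ι} (hi : i ∈ s)
    (h : ∀ j ∈ s, W.valuation (f j) ≤ 1) (h1 : W.valuation (f i) ≤ W.valuation d) :
    W.valuation (∏ j ∈ s, f j) ≤ W.valuation d := by
  classical
  rw [← Finset.mul_prod_erase s f hi, map_mul, map_prod]
  refine (mul_le_mul' h1 (Finset.prod_le_one' fun j hj => h j (Finset.mem_of_mem_erase hj))).trans ?_
  rw [mul_one]

variable (p : ℕ)

/-- `(1 + α + ... + α^(p-1)) / p` -/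
def ee (α : M) : M := (p : M)⁻¹ * ∑ i ∈ Finset.range p, α ^ i

variable {p}

lemma val_geom_le {α : M} (h : W.valuation α ≤ 1) (n : ℕ) :
    W.valuation (∑ i ∈ Finset.range n, α ^ i) ≤ 1 := by
  refine Valuation.map_sum_le _ fun i _ => ?_
  rw [map_pow]
  exact pow_le_one₀ zero_le h

lemma val_pow_sub {α : M} (h : W.valuation α ≤ 1) (n : ℕ) :
    W.valuation (α ^ n - 1) ≤ W.valuation (α - 1) := by
  rw [← geom_sum_mul α n, map_mul]
  exact mul_le_of_le_one_left' (val_geom_le h n)

lemma ee_near (hpW : W.valuation (p : M) = 1) {α : M} (h : W.valuation (α - 1) < 1) :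
    W.valuation (ee p α - 1) ≤ W.valuation (α - 1) := by
  have hp0 : (p : M) ≠ 0 := by
    intro h0
    rw [h0, map_zero] at hpW
    exact zero_ne_one hpW
  have e : ee p α - 1 = (p : M)⁻¹ * ∑ i ∈ Finset.range p, (α ^ i - 1) := by
    rw [Finset.sum_sub_distrib, Finset.sum_const, Finset.card_range, nsmul_eq_mul, mul_one, mul_sub,
      inv_mul_cancel₀ hp0]
    rfl
  rw [e, map_mul, map_inv₀, hpW, inv_one, one_mul]
  exact Valuation.map_sum_le _ fun i _ => val_pow_sub (val_one_of h).le i

lemma ee_le (hpW : W.valuation (p : M) = 1) {α : M} (h : W.valuation α ≤ 1) :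
    W.valuation (ee p α) ≤ 1 := by
  unfold ee
  rw [map_mul, map_inv₀, hpW, inv_one, one_mul]
  exact val_geom_le h p

lemma val_eq_one_of_pow {p : ℕ} (hp : p ≠ 0) {x : M} (h : W.valuation (x ^ p) = 1) :
    W.valuation x = 1 := by
  rw [map_pow] at h
  rcases lt_trichotomy (W.valuation x) 1 with h1 | h1 | h1
  · exact absurd h (pow_lt_one₀ zero_le h1 hp).ne
  · exact h1
  · exact absurd h (one_lt_pow₀ h1 hp).ne'

lemma ee_far (hp : p.Prime) (hpW : W.valuation (p : M) = 1) {α β : M}
    (h : W.valuation (α - 1) < 1) (hβ : β ^ p = α ^ p) (hne : β ≠ α) :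
    W.valuation (ee p β) ≤ W.valuation (α - 1) := by
  have hα0 := ne_zero_of h
  have hα1 := val_one_of h
  have hβ1 : W.valuation β = 1 := val_eq_one_of_pow hp.ne_zero (by rw [hβ, map_pow, hα1, one_pow])
  have hfar : W.valuation (β - 1) = 1 := by
    refine le_antisymm ((Valuation.map_sub _ _ _).trans (max_le hβ1.le (by rw [map_one]))) ?_
    by_contra hc
    rw [not_le] at hc
    have h1 : (β * α⁻¹) ^ p = 1 := by
      rw [mul_pow, hβ, inv_pow, mul_inv_cancel₀ (pow_ne_zero _ hα0)]
    have h2 := root_one hpW h1 (near_mul hc (near_inv h))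
    rw [mul_inv_eq_one₀ hα0] at h2
    exact hne h2
  have h3 : ee p β * (β - 1) = (p : M)⁻¹ * (α ^ p - 1) := by
    unfold ee
    rw [mul_assoc, geom_sum_mul, hβ]
  have h4 := congrArg W.valuation h3
  rw [map_mul, hfar, mul_one, map_mul, map_inv₀, hpW, inv_one, one_mul] at h4
  rw [h4]
  exact val_pow_sub hα1.le p

end val

section nrm

variable {F M : Type} [Field F] [Field M] [Algebra F M]

/-- **The norm.** -/
lemma norm_near {p : ℕ} (hp : p.Prime) [FiniteDimensional F M] [IsGalois F M]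
    {W : ValuationSubring M} (hpW : W.valuation (p : M) = 1) (s : Finset M)
    (hs : ∀ α ∈ s, ∃ a : F, α ^ p = algebraMap F M a)
    (hgen : ∀ σ : M ≃ₐ[F] M, (∀ α ∈ s, σ α = α) → σ = 1) {g ρ : Fˣ}
    (hg : W.valuation (algebraMap F M g) ≤ 1) (hρ : W.valuation (algebraMap F M ρ) < 1)
    (hα : ∀ α ∈ s, W.valuation (α - 1) ≤ W.valuation (algebraMap F M (g * ρ : Fˣ))) :
    ∃ y : M, y ≠ 0 ∧
      W.valuation (algebraMap F M (Algebra.norm F y) / algebraMap F M g - 1) < 1 := by
  have hg0 : algebraMap F M g ≠ 0 := (_root_.map_ne_zero _).2 g.ne_zero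
  have hgρ : W.valuation (algebraMap F M (g * ρ : Fˣ)) < 1 := by
    rw [Units.val_mul, map_mul, map_mul]
    exact lt_of_le_of_lt (mul_le_of_le_one_left' hg) hρ
  have hgρle : W.valuation (algebraMap F M (g * ρ : Fˣ)) ≤ W.valuation (algebraMap F M ρ) := by
    rw [Units.val_mul, map_mul, map_mul]
    exact mul_le_of_le_one_left' hg
  set ε : M := ∏ α ∈ s, ee p α with hε
  have hε1 : W.valuation (ε - 1) ≤ W.valuation (algebraMap F M (g * ρ : Fˣ)) :=
    near_prod hgρ fun α h => (ee_near hpW (lt_of_le_of_lt (hα α h) hgρ)).trans (hα α h)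
  have hε2 : ∀ σ : M ≃ₐ[F] M, σ ≠ 1 →
      W.valuation (σ ε) ≤ W.valuation (algebraMap F M (g * ρ : Fˣ)) := by
    intro σ hσ
    have h1 : ∃ α ∈ s, σ α ≠ α := by
      by_contra hc
      push Not at hc
      exact hσ (hgen σ hc)
    obtain ⟨α, hαs, hne⟩ := h1
    have hpow : ∀ α ∈ s, (σ α) ^ p = α ^ p := by
      intro α h
      obtain ⟨a, ha⟩ := hs α h
      rw [← map_pow, ha, σ.commutes]
    have hmap : ∀ α : M, σ (ee p α) = ee p (σ α) := by
      intro α
      unfold ee
      rw [map_mul, map_inv₀, map_natCast, map_sum]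
      congr 1
      exact Finset.sum_congr rfl fun i _ => map_pow _ _ _
    rw [hε, map_prod]
    refine small_prod (f := fun α => σ (ee p α)) hαs ?_ ?_
    · intro β hβ
      rw [hmap]
      refine ee_le hpW (le_of_eq ?_)
      apply val_eq_one_of_pow hp.ne_zero
      rw [hpow β hβ, map_pow, val_one_of (lt_of_le_of_lt (hα β hβ) hgρ), one_pow]
    · rw [hmap]
      exact (ee_far hp hpW (lt_of_le_of_lt (hα α hαs) hgρ) (hpow α hαs) hne).trans (hα α hαs)
  set y : M := 1 - (1 - algebraMap F M g) * ε with hy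
  have hy1 : W.valuation (y / algebraMap F M g - 1) ≤ W.valuation (algebraMap F M ρ) := by
    have e : y / algebraMap F M g - 1 = (1 - ε) / algebraMap F M g + (ε - 1) := by
      rw [hy]
      field_simp
      ring
    rw [e]
    refine (Valuation.map_add _ _ _).trans (max_le ?_ (hε1.trans hgρle))
    have h0 : W.valuation (algebraMap F M g) ≠ 0 := (Valuation.ne_zero_iff _).2 hg0
    rw [map_div₀, ← Valuation.map_neg, neg_sub, div_le_iff₀ (zero_lt_iff.2 h0)]
    refine hε1.trans (le_of_eq ?_)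
    rw [Units.val_mul, map_mul, map_mul, mul_comm]
  have hy2 : ∀ σ : M ≃ₐ[F] M, σ ≠ 1 →
      W.valuation (σ y - 1) ≤ W.valuation (algebraMap F M ρ) := by
    intro σ hσ
    have e : σ y - 1 = - ((1 - algebraMap F M g) * σ ε) := by
      rw [hy, map_sub, map_mul, map_sub, map_one, σ.commutes]
      ring
    rw [e, Valuation.map_neg, map_mul]
    refine (mul_le_of_le_one_left' ?_).trans ((hε2 σ hσ).trans hgρle)
    exact (Valuation.map_sub _ _ _).trans (max_le (by rw [map_one]) hg)
  have hy0 : y ≠ 0 := by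
    intro h
    have h1 := ne_zero_of (lt_of_le_of_lt hy1 hρ)
    rw [h, zero_div] at h1
    exact h1 rfl
  refine ⟨y, hy0, ?_⟩
  classical
  rw [Algebra.norm_eq_prod_automorphisms, ← Finset.mul_prod_erase Finset.univ _
    (Finset.mem_univ (1 : M ≃ₐ[F] M)), AlgEquiv.one_apply, mul_div_right_comm]
  refine near_mul (lt_of_le_of_lt hy1 hρ) ?_
  refine lt_of_le_of_lt (near_prod hρ fun σ hσ => hy2 σ (Finset.ne_of_mem_erase hσ)) hρ

/-- norms from a field which contains a `p`-th root of `a` -/
lemma norm_mem {p : ℕ} (hp : p.Prime) [FiniteDimensional F M] {α : M} {a : Fˣ}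
    (hα : α ^ p = algebraMap F M a) (ha : a ∉ Pool.Agent.Y920.EP.pwG F p) {y : M} (hy : y ≠ 0)
    {w : Fˣ} (hw : (w : F) = Algebra.norm F y) : w ∈ Pool.Agent.Y920.EP.nmG p a := by
  have hirr : Irreducible (X ^ p - C (a : F)) := by
    apply X_pow_sub_C_irreducible_of_prime hp
    intro b hb
    apply ha
    have hb0 : b ≠ 0 := by
      rintro rfl
      rw [zero_pow hp.ne_zero] at hb
      exact a.ne_zero hb.symm
    exact ⟨Units.mk0 b hb0, Units.ext hb⟩
  have hmin : minpoly F α = X ^ p - C (a : F) := by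
    symm
    apply minpoly.eq_of_irreducible_of_monic hirr
    · rw [map_sub, map_pow, aeval_X, aeval_C, hα, sub_self]
    · exact monic_X_pow_sub_C _ hp.ne_zero
  have hint : IsIntegral F α := Algebra.IsIntegral.isIntegral α
  unfold Pool.Agent.Y920.EP.nmG
  rw [← hmin]
  set y₁ : F⟮α⟯ := Algebra.norm F⟮α⟯ y with hy₁
  have hy₁0 : y₁ ≠ 0 := by
    rw [hy₁]
    exact Algebra.norm_ne_zero_iff.2 hy
  set z : AdjoinRoot (minpoly F α) := (adjoinRootEquivAdjoin F hint).symm y₁ with hz
  have hzu : IsUnit z := (hy₁0.isUnit).map (adjoinRootEquivAdjoin F hint).symm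
  refine ⟨hzu.unit, Units.ext ?_⟩
  rw [Units.coe_map, IsUnit.unit_spec]
  change Algebra.norm F z = (w : F)
  rw [hz, Algebra.norm_eq_of_algEquiv (adjoinRootEquivAdjoin F hint).symm, hy₁, Algebra.norm_norm,
    hw]

end nrm

end Pool.Agent.V7H55.ET
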