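import Mathlib
import Pool.Agent.V7H55.ET.Nrm
import Pool.Agent.V7H55.ET.Tight

set_option autoImplicit false

/-!
# The orthogonal complement of `(1 + m) T`
-/

open IntermediateField

namespace Pool.Agent.V7H55.ET

open Pool.Agent.Y920.EP (pwG nmG)
open Pool.Agent.Y469.EP (Tw)

section

variable {F : Type} [Field F] {p : ℕ} {O : ValuationSubring F} {T : Subgroup Fˣ}

lemma val_mono {K : Type} [Field K] [Algebra F K] {W : ValuationSubring K}
    (hW : W.comap (algebraMap F K) = O) {x y : F} (hy : y ≠ 0)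
    (h : O.valuation x ≤ O.valuation y) :
    W.valuation (algebraMap F K x) ≤ W.valuation (algebraMap F K y) := by
  have hy' : O.valuation y ≠ 0 := (Valuation.ne_zero_iff _).2 hy
  have h1 : x / y ∈ O := by
    rw [← O.valuation_le_one_iff, map_div₀]
    exact (div_le_one₀ (zero_lt_iff.2 hy')).2 h
  rw [← hW, ValuationSubring.mem_comap, map_div₀, ← W.valuation_le_one_iff, map_div₀] at h1
  exact (div_le_one₀ (zero_lt_iff.2 ((Valuation.ne_zero_iff _).2 ((map_ne_zero _).2 hy)))).1 h1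

lemma val_p {K : Type} [Field K] [Algebra F K] {W : ValuationSubring K}
    (hW : W.comap (algebraMap F K) = O) (hpO : (p : F)⁻¹ ∈ O) (hp0 : (p : F) ≠ 0) :
    W.valuation (p : K) = 1 := by
  have h1 : (p : K) ∈ W := natCast_mem W p
  have h2 : (p : K)⁻¹ ∈ W := by
    rw [← hW, ValuationSubring.mem_comap, map_inv₀, map_natCast] at hpO
    exact hpO
  refine le_antisymm ((W.valuation_le_one_iff _).2 h1) ?_
  have h3 := (W.valuation_le_one_iff _).2 h2
  rw [map_inv₀] at h3
  have hp0' : (p : K) ≠ 0 := by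
    intro h
    apply hp0
    apply (algebraMap F K).injective
    rwa [map_natCast, map_zero]
  exact (inv_le_one₀ (zero_lt_iff.2 ((Valuation.ne_zero_iff _).2 hp0'))).1 h3

lemma val_root {K : Type} [Field K] {W : ValuationSubring K} (hpW : W.valuation (p : K) = 1)
    {α : K} (h : W.valuation (α - 1) < 1) : W.valuation (α ^ p - 1) = W.valuation (α - 1) := by
  have hp0 : (p : K) ≠ 0 := by
    intro h0
    rw [h0, map_zero] at hpW
    exact zero_ne_one hpW
  have h1 : W.valuation (ee p α) = 1 := val_one_of (lt_of_le_of_lt (ee_near hpW h) h)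
  have h2 : ∑ i ∈ Finset.range p, α ^ i = p * ee p α := by
    unfold ee
    rw [← mul_assoc, mul_inv_cancel₀ hp0, one_mul]
  rw [← geom_sum_mul α p, h2, map_mul, map_mul, hpW, h1, one_mul, one_mul]

/-- **The orthogonal complement.** Every class modulo `(1 + m) T` contains an element which is a norm
from `F(c^(1/p))` for a system of representatives `c` of `(1 + m) T` modulo `T`. -/
theorem orth (hp : p.Prime) {ζ : F} (hζ : IsPrimitiveRoot ζ p) (hT : pwG F p ≤ T)
    (hfin : T.index ≠ 0) (hO : Tight p T O) (b : Fˣ) :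
    ∃ w : Fˣ, w * b⁻¹ ∈ near O T ∧ ∀ c ∈ near O T, c ∉ T → ∃ c', c' * c⁻¹ ∈ T ∧ w ∈ nmG p c' := by
  by_cases hne : near O T ≤ T
  · exact ⟨b, by rw [mul_inv_cancel]; exact one_mem _, fun c hc hc' => absurd (hne hc) hc'⟩
  have : NeZero p := ⟨hp.ne_zero⟩
  have hp0 : (p : F) ≠ 0 := hζ.neZero'.ne
  have hpO := hO.adm.inv_mem
  obtain ⟨g, hg, hgb⟩ := exists_deep hp hp0 hT hfin hO hne b
  have hgg := hg.mul hp0 hpO hT hfin hne hg
  have hfi : T.FiniteIndex := ⟨hfin⟩
  have hfq : Finite (Fˣ ⧸ T) := inferInstance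
  have hft : Fintype (Fˣ ⧸ T) := Fintype.ofFinite _
  -- representatives close to `1`
  have hrep : ∀ q : Fˣ ⧸ T, ∃ a : Fˣ, O.valuation ((a : F) - 1) ≤ O.valuation ((g * g : Fˣ) : F) ∧
      (q.out ∈ near O T → a * q.out⁻¹ ∈ T) := by
    intro q
    by_cases hq : q.out ∈ near O T
    · obtain ⟨hlt, hle⟩ := hgg
      obtain ⟨u, hu, t, ht, hut⟩ := Subgroup.mem_sup.1 (hle hq)
      refine ⟨u, hu, fun _ => ?_⟩
      rw [← hut, mul_inv, mul_inv_cancel_left]
      exact inv_mem ht
    · refine ⟨1, ?_, fun h => absurd h hq⟩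
      rw [Units.val_one, sub_self, map_zero]
      exact zero_le
  choose a ha1 ha2 using hrep
  -- the roots
  set Ω := AlgebraicClosure F with hΩ
  obtain ⟨W₀, hW₀⟩ := Pool.Agent.Y620.ET.t_EXTV F Ω O
  have hpW₀ : W₀.valuation (p : Ω) = 1 := val_p hW₀ hpO hp0
  have hζΩ : IsPrimitiveRoot (algebraMap F Ω ζ) p := hζ.map_of_injective (algebraMap F Ω).injective
  have haW : ∀ q, W₀.valuation (algebraMap F Ω (a q) - 1) ≤
      W₀.valuation (algebraMap F Ω ((g * g : Fˣ) : F)) := by
    intro q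
    have := val_mono hW₀ (g * g : Fˣ).ne_zero (ha1 q)
    rwa [map_sub, map_one] at this
  have hggW : W₀.valuation (algebraMap F Ω ((g * g : Fˣ) : F)) < 1 := by
    rw [← val_comap, hW₀]
    exact hgg.lt
  have hroot : ∀ q, ∃ α : Ω, α ^ p = algebraMap F Ω (a q) ∧ W₀.valuation (α - 1) < 1 := by
    intro q
    obtain ⟨α₀, hα₀⟩ := IsAlgClosed.exists_pow_nat_eq (algebraMap F Ω (a q : F)) hp.pos
    obtain ⟨i, hi⟩ := exists_root_near (W := W₀) hp hζΩ (α := α₀) (by
      rw [hα₀]
      exact lt_of_le_of_lt (haW q) hggW)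
    refine ⟨_, ?_, hi⟩
    rw [mul_pow, ← pow_mul, mul_comm i p, pow_mul, hζΩ.pow_eq_one, one_pow, one_mul, hα₀]
  choose α₀ hα₀p hα₀1 using hroot
  classical
  set s₀ : Finset Ω := Finset.univ.image α₀ with hs₀
  obtain ⟨hfd, hgal, -⟩ := Tw_adjoin (Ω := Ω) hp hζ s₀ (by
    intro y hy
    rw [hs₀, Finset.mem_image] at hy
    obtain ⟨q, -, rfl⟩ := hy
    exact ⟨a q, hα₀p q⟩)
  set M := adjoin F (s₀ : Set Ω) with hM
  have := hfd
  have := hgal
  set W := W₀.comap (algebraMap M Ω) with hWdef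
  have hW : W.comap (algebraMap F M) = O := by
    rw [hWdef, ValuationSubring.comap_comap, ← hW₀]
    rfl
  have hmem : ∀ q, α₀ q ∈ M := fun q => IntermediateField.subset_adjoin F _ (by
    rw [hs₀, Finset.mem_coe]
    exact Finset.mem_image_of_mem _ (Finset.mem_univ q))
  let α : Fˣ ⧸ T → M := fun q => ⟨α₀ q, hmem q⟩
  have hαp : ∀ q, (α q) ^ p = algebraMap F M (a q) := fun q => Subtype.ext (hα₀p q)
  have hpW : W.valuation (p : M) = 1 := val_p hW hpO hp0
  have hα1 : ∀ q, W.valuation (α q - 1) < 1 := by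
    intro q
    rw [hWdef, val_comap, map_sub, map_one]
    exact hα₀1 q
  obtain ⟨y, hy0, hy⟩ := norm_near hp (W := W) hpW (Finset.univ.image α) (by
      intro β hβ
      obtain ⟨q, -, rfl⟩ := Finset.mem_image.1 hβ
      exact ⟨a q, hαp q⟩) (by
      intro σ hσ
      ext ⟨x, hx⟩
      have key : σ ⟨x, hx⟩ = ⟨x, hx⟩ := by
        refine IntermediateField.adjoin_induction F
          (p := fun x hx => σ ⟨x, hx⟩ = (⟨x, hx⟩ : M)) ?_ ?_ ?_ ?_ ?_ hx
        · intro x hx
          rw [hs₀, Finset.mem_coe, Finset.mem_image] at hx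
          obtain ⟨q, -, rfl⟩ := hx
          exact hσ (α q) (Finset.mem_image_of_mem _ (Finset.mem_univ q))
        · intro x
          exact σ.commutes x
        · intro x y hx hy h1 h2
          exact (map_add σ ⟨x, hx⟩ ⟨y, hy⟩).trans (by rw [h1, h2])
        · intro x hx h1
          exact (map_inv₀ σ ⟨x, hx⟩).trans (by rw [h1])
        · intro x y hx hy h1 h2
          exact (map_mul σ ⟨x, hx⟩ ⟨y, hy⟩).trans (by rw [h1, h2])
      rw [key]
      rfl) (g := g) (ρ := g) (le_of_lt (by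
        rw [← val_comap, hW]
        exact hg.lt)) (by
        rw [← val_comap, hW]
        exact hg.lt) (by
      intro β hβ
      obtain ⟨q, -, rfl⟩ := Finset.mem_image.1 hβ
      rw [← val_root hpW (hα1 q), hαp q]
      have := val_mono hW (g * g : Fˣ).ne_zero (ha1 q)
      rwa [map_sub, map_one] at this)
  have hw0 : Algebra.norm F y ≠ 0 := Algebra.norm_ne_zero_iff.2 hy0
  refine ⟨Units.mk0 _ hw0, ?_, ?_⟩
  · have h1 : Units.mk0 _ hw0 * g⁻¹ ∈ near O T := by
      apply mem_near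
      have h2 : ((Units.mk0 (Algebra.norm F y) hw0 * g⁻¹ : Fˣ) : F) - 1 =
          Algebra.norm F y / g - 1 := by
        rw [Units.val_mul, Units.val_mk0, Units.val_inv_eq_inv_val, div_eq_mul_inv]
      rw [h2, ← hW, val_comap, map_sub, map_div₀, map_one]
      exact hy
    have h3 := mul_mem h1 ((le_sup_right : T ≤ near O T) hgb)
    have e : Units.mk0 (Algebra.norm F y) hw0 * g⁻¹ * (g * b⁻¹) =
        Units.mk0 (Algebra.norm F y) hw0 * b⁻¹ := by
      rw [mul_assoc, inv_mul_cancel_left]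
    rwa [e] at h3
  · intro c hc hcT
    set q : Fˣ ⧸ T := QuotientGroup.mk c with hq
    have h1 : q.out⁻¹ * c ∈ T := by
      rw [← QuotientGroup.eq, QuotientGroup.out_eq']
    have h2 : q.out ∈ near O T := by
      have e : q.out = c * (q.out⁻¹ * c)⁻¹ := by
        rw [mul_inv, inv_inv, mul_comm q.out, mul_inv_cancel_left]
      rw [e]
      exact mul_mem hc (inv_mem ((le_sup_right : T ≤ near O T) h1))
    have h3 : a q * c⁻¹ ∈ T := by
      have h4 := mul_mem (ha2 q h2) (inv_mem h1)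
      have e : a q * q.out⁻¹ * (q.out⁻¹ * c)⁻¹ = a q * c⁻¹ := by
        rw [mul_inv, inv_inv, mul_assoc, inv_mul_cancel_left]
      rwa [e] at h4
    refine ⟨a q, h3, ?_⟩
    refine norm_mem hp (hαp q) ?_ hy0 (Units.val_mk0 hw0)
    intro h5
    apply hcT
    have h6 := mul_mem (inv_mem h3) (hT h5)
    have e : (a q * c⁻¹)⁻¹ * a q = c := by
      rw [mul_inv, inv_inv, mul_comm (a q)⁻¹, inv_mul_cancel_right]
    rwa [e] at h6

end

end Pool.Agent.V7H55.ET
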