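import Mathlib
import Pool.Agent.V7H55.ET.Orth
import Pool.Agent.Y349.EP.Symm

set_option autoImplicit false

/-!
# Norms from `F(x^(1/p))` and valuations
-/

open IntermediateField Polynomial

namespace Pool.Agent.V7H55.ET

open Pool.Agent.Y920.EP (pwG nmG)
open Pool.Agent.Y469.EP (Tw Tw_root)

section poly

variable {F N : Type} [Field F] [Field N] [Algebra F N] {p : ℕ} {O : ValuationSubring F}
  {W : ValuationSubring N}

lemma aeval_eq_sum {P : F[X]} (hP : P.natDegree < p) (δ : N) :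
    aeval δ P = ∑ i ∈ Finset.range p, algebraMap F N (P.coeff i) * δ ^ i := by
  rw [aeval_eq_sum_range' hP]
  exact Finset.sum_congr rfl fun i _ => Algebra.smul_def _ _

lemma val_root_eq (hp : p.Prime) {γ δ : N} (h : γ ^ p = δ ^ p) : W.valuation γ = W.valuation δ := by
  have h1 : W.valuation γ ^ p = W.valuation δ ^ p := by rw [← map_pow, h, map_pow]
  exact (pow_left_inj₀ zero_le zero_le hp.ne_zero).1 h1

/-- `x ∉ O* F*^p`: the terms of `P(x^(1/p))` have different values -/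
lemma ram_ne (hp : p.Prime) (hW : W.comap (algebraMap F N) = O) {x : Fˣ}
    (hx : x ∉ O.unitGroup ⊔ pwG F p) {γ : N} (hγ : γ ^ p = algebraMap F N x) {a b : F}
    (ha : a ≠ 0) (hb : b ≠ 0) {i j : ℕ} (hij : i < j) (hj : j < p) :
    W.valuation (algebraMap F N a * γ ^ i) ≠ W.valuation (algebraMap F N b * γ ^ j) := by
  intro h
  apply hx
  obtain ⟨d, rfl⟩ : ∃ d, j = i + d := ⟨j - i, by omega⟩
  have hd : 0 < d := by omega
  have hγ0 : γ ≠ 0 := by
    rintro rfl
    rw [zero_pow hp.ne_zero] at hγ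
    exact (_root_.map_ne_zero (algebraMap F N)).2 x.ne_zero hγ.symm
  have hvγ : W.valuation γ ≠ 0 := (Valuation.ne_zero_iff _).2 hγ0
  have h1 : W.valuation (algebraMap F N a) = W.valuation (algebraMap F N b) * W.valuation γ ^ d := by
    rw [map_mul, map_mul, map_pow, map_pow, pow_add] at h
    have h2 : W.valuation γ ^ i ≠ 0 := pow_ne_zero _ hvγ
    apply mul_right_cancel₀ h2
    rw [h, mul_assoc, mul_comm (W.valuation γ ^ d)]
  -- the element `x^d (b/a)^p` is a unit
  have h3 : W.valuation (algebraMap F N ((x : F) ^ d * (b / a) ^ p)) = 1 := by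
    have ha' : W.valuation (algebraMap F N a) ≠ 0 :=
      (Valuation.ne_zero_iff _).2 ((_root_.map_ne_zero _).2 ha)
    have h4 : W.valuation (algebraMap F N x) = W.valuation γ ^ p := by rw [← hγ, map_pow]
    rw [map_mul, map_mul, map_pow, map_pow, map_pow, map_pow, map_div₀, map_div₀, h4, ← pow_mul,
      mul_comm p d, pow_mul, ← mul_pow, mul_div_assoc', mul_comm _ (W.valuation (algebraMap F N b)),
      ← h1, div_self ha', one_pow]
  have hunit : ∀ f : Fˣ, W.valuation (algebraMap F N f) = 1 → f ∈ O.unitGroup := by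
    intro f hf
    have h5 : (f : F) ∈ O := by
      rw [← hW, ValuationSubring.mem_comap]
      exact (W.valuation_le_one_iff _).1 hf.le
    have h6 : (f : F)⁻¹ ∈ O := by
      rw [← hW, ValuationSubring.mem_comap, map_inv₀, ← W.valuation_le_one_iff, map_inv₀, hf,
        inv_one]
    rw [ValuationSubring.mem_unitGroup_iff]
    refine le_antisymm ((O.valuation_le_one_iff _).2 h5) ?_
    have h7 := (O.valuation_le_one_iff _).2 h6
    rw [map_inv₀] at h7
    exact (inv_le_one₀ (zero_lt_iff.2 ((Valuation.ne_zero_iff _).2 f.ne_zero))).1 h7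
  have h5 : x ^ d * (Units.mk0 b hb / Units.mk0 a ha) ^ p ∈ O.unitGroup := by
    apply hunit
    have e : ((x ^ d * (Units.mk0 b hb / Units.mk0 a ha) ^ p : Fˣ) : F) =
        (x : F) ^ d * (b / a) ^ p := by
      push_cast
      rfl
    rw [e]
    exact h3
  have h6 : x ^ d ∈ O.unitGroup ⊔ pwG F p := by
    have h7 : ((Units.mk0 b hb / Units.mk0 a ha) ^ p)⁻¹ ∈ pwG F p := inv_mem ⟨_, rfl⟩
    have h8 := Subgroup.mul_mem_sup h5 h7
    rwa [mul_inv_cancel_right] at h8
  have h7 : x ^ p ∈ O.unitGroup ⊔ pwG F p := Subgroup.mem_sup_right ⟨x, rfl⟩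
  -- Bezout
  have hcop : Nat.Coprime d p := by
    rw [Nat.coprime_comm, Nat.Prime.coprime_iff_not_dvd hp]
    intro h8
    have := Nat.le_of_dvd hd h8
    omega
  have h8 : (x : Fˣ) ^ (1 : ℤ) ∈ O.unitGroup ⊔ pwG F p := by
    have h9 : (1 : ℤ) = d * Nat.gcdA d p + p * Nat.gcdB d p := by
      have := Nat.gcd_eq_gcd_ab d p
      rw [hcop] at this
      exact_mod_cast this
    rw [h9, zpow_add, zpow_mul, zpow_mul, zpow_natCast, zpow_natCast]
    exact mul_mem (zpow_mem h6 _) (zpow_mem h7 _)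
  rwa [zpow_one] at h8

/-- the dominating term -/
lemma ram_dom (hp : p.Prime) (hW : W.comap (algebraMap F N) = O) {x : Fˣ}
    (hx : x ∉ O.unitGroup ⊔ pwG F p) {γ : N} (hγ : γ ^ p = algebraMap F N x) {P : F[X]}
    (hP : P.natDegree < p) (hP0 : P ≠ 0) :
    ∃ i < p, P.coeff i ≠ 0 ∧ ∀ δ : N, δ ^ p = algebraMap F N x →
      W.valuation (aeval δ P / (algebraMap F N (P.coeff i) * δ ^ i) - 1) < 1 := by
  obtain ⟨i, hi, hmax⟩ := Finset.exists_max_image (Finset.range p)
    (fun i => W.valuation (algebraMap F N (P.coeff i) * γ ^ i)) ⟨0, Finset.mem_range.2 hp.pos⟩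
  have hγ0 : γ ≠ 0 := by
    rintro rfl
    rw [zero_pow hp.ne_zero] at hγ
    exact (_root_.map_ne_zero (algebraMap F N)).2 x.ne_zero hγ.symm
  have hPi : P.coeff i ≠ 0 := by
    intro h0
    have h1 : P.coeff P.natDegree ≠ 0 := by
      rw [coeff_natDegree]
      exact leadingCoeff_ne_zero.2 hP0
    have h2 := hmax P.natDegree (Finset.mem_range.2 hP)
    rw [h0, map_zero, zero_mul, map_zero] at h2
    have h3 := le_antisymm h2 zero_le
    rw [Valuation.zero_iff, mul_eq_zero] at h3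
    rcases h3 with h3 | h3
    · exact h1 ((map_eq_zero _).1 h3)
    · exact pow_ne_zero _ hγ0 h3
  refine ⟨i, Finset.mem_range.1 hi, hPi, ?_⟩
  intro δ hδ
  have hvδ : W.valuation δ = W.valuation γ := val_root_eq hp (by rw [hδ, hγ])
  have hδ0 : δ ≠ 0 := by
    rintro rfl
    rw [map_zero] at hvδ
    exact hγ0 ((Valuation.zero_iff _).1 hvδ.symm)
  have hval : ∀ (a : F) (j : ℕ), W.valuation (algebraMap F N a * δ ^ j) =
      W.valuation (algebraMap F N a * γ ^ j) := by
    intro a j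
    rw [map_mul, map_mul, map_pow, map_pow, hvδ]
  have hden : algebraMap F N (P.coeff i) * δ ^ i ≠ 0 :=
    mul_ne_zero ((_root_.map_ne_zero _).2 hPi) (pow_ne_zero _ hδ0)
  have e : aeval δ P / (algebraMap F N (P.coeff i) * δ ^ i) - 1 =
      ∑ j ∈ (Finset.range p).erase i,
        algebraMap F N (P.coeff j) * δ ^ j / (algebraMap F N (P.coeff i) * δ ^ i) := by
    rw [aeval_eq_sum hP, ← Finset.add_sum_erase _ _ hi, add_div, div_self hden,
      add_sub_cancel_left, Finset.sum_div]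
  rw [e]
  refine Valuation.map_sum_lt _ one_ne_zero fun j hj => ?_
  have hji : j ≠ i := Finset.ne_of_mem_erase hj
  have hjp : j < p := Finset.mem_range.1 (Finset.mem_of_mem_erase hj)
  by_cases hPj : P.coeff j = 0
  · rw [hPj, map_zero, zero_mul, zero_div, map_zero]
    exact zero_lt_one
  · rw [map_div₀, div_lt_one₀ (zero_lt_iff.2 ((Valuation.ne_zero_iff _).2 hden)), hval, hval]
    refine lt_of_le_of_ne (hmax j (Finset.mem_range.2 hjp)) ?_
    rcases lt_or_gt_of_ne hji with h | h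
    · exact ram_ne hp hW hx hγ hPj hPi h (Finset.mem_range.1 hi)
    · exact (ram_ne hp hW hx hγ hPi hPj h hjp).symm

/-- residues that are not `p`-th powers -/
lemma unr_one (hp : p.Prime) (hW : W.comap (algebraMap F N) = O) {x : Fˣ}
    (hxO : x ∈ O.unitGroup) (hx : x ∉ near O (pwG F p)) {P : F[X]}
    (hP : P.natDegree < p) (hP0 : P ≠ 0) :
    ∃ j, P.coeff j ≠ 0 ∧ ∀ δ : N, δ ^ p = algebraMap F N x →
      W.valuation (aeval δ P / algebraMap F N (P.coeff j)) = 1 := by
  obtain ⟨j, hj, hmax⟩ := Finset.exists_max_image (Finset.range p)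
    (fun i => O.valuation (P.coeff i)) ⟨0, Finset.mem_range.2 hp.pos⟩
  have hPj : P.coeff j ≠ 0 := by
    intro h0
    have h1 : P.coeff P.natDegree ≠ 0 := by
      rw [coeff_natDegree]
      exact leadingCoeff_ne_zero.2 hP0
    have h2 := hmax P.natDegree (Finset.mem_range.2 hP)
    rw [h0, map_zero] at h2
    exact h1 ((Valuation.zero_iff _).1 (le_antisymm h2 zero_le))
  refine ⟨j, hPj, ?_⟩
  have hvj : O.valuation (P.coeff j) ≠ 0 := (Valuation.ne_zero_iff _).2 hPj
  have hmem : ∀ i, P.coeff i / P.coeff j ∈ O := by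
    intro i
    by_cases hi : i < p
    · rw [← O.valuation_le_one_iff, map_div₀]
      exact (div_le_one₀ (zero_lt_iff.2 hvj)).2 (hmax i (Finset.mem_range.2 hi))
    · rw [coeff_eq_zero_of_natDegree_lt (by omega), zero_div]
      exact O.zero_mem
  set P' : F[X] := P * C (P.coeff j)⁻¹ with hP'
  have hP'c : ∀ i, P'.coeff i = P.coeff i / P.coeff j := by
    intro i
    rw [hP', coeff_mul_C, div_eq_mul_inv]
  have hP'd : P'.natDegree < p := by
    refine lt_of_le_of_lt natDegree_mul_le ?_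
    rw [natDegree_C, add_zero]
    exact hP
  obtain ⟨Q, hQ, hQd⟩ := exists_natDegree_eq_of_mem_lifts (f := O.subtype) (p := P') (by
    rw [lifts_iff_coeff_lifts]
    intro i
    exact ⟨⟨_, hmem i⟩, (hP'c i).symm⟩)
  have hQj : Q.coeff j = 1 := by
    apply Subtype.ext
    have h1 := congrArg (fun R : F[X] => R.coeff j) hQ
    simp only [coeff_map, hP'c, div_self hPj] at h1
    exact h1
  -- the residue field
  set k := IsLocalRing.ResidueField O with hk
  set r : O →+* k := IsLocalRing.residue O with hr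
  have hxm : (x : F) ∈ O := (O.valuation_le_one_iff _).1 (le_of_eq hxO)
  set xO : O := ⟨x, hxm⟩ with hxOd
  have hirr : Irreducible (X ^ p - C (r xO)) := by
    apply X_pow_sub_C_irreducible_of_prime hp
    intro b hb
    obtain ⟨c, rfl⟩ := IsLocalRing.residue_surjective b
    apply hx
    have h1 : r (c ^ p - xO) = 0 := by rw [map_sub, map_pow, hb, sub_self]
    rw [hr, IsLocalRing.residue_eq_zero_iff] at h1
    have h2 : O.valuation ((c : F) ^ p - x) < 1 := by
      have h3 := (ValuationSubring.valuation_lt_one_iff O (c ^ p - xO)).1 h1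
      exact h3
    have hvx : O.valuation (x : F) = 1 := hxO
    have h3 : O.valuation ((c : F) ^ p / x - 1) < 1 := by
      have e : (c : F) ^ p / x - 1 = ((c : F) ^ p - x) / x := by
        rw [sub_div, div_self x.ne_zero]
      rw [e, map_div₀, hvx, div_one]
      exact h2
    have hc0 : (c : F) ≠ 0 := by
      intro h0
      rw [h0, zero_pow hp.ne_zero, zero_div, zero_sub, Valuation.map_neg, map_one] at h3
      exact lt_irrefl _ h3
    have h4 : (Units.mk0 (c : F) hc0) ^ p * x⁻¹ ∈ near O (pwG F p) := by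
      apply mem_near
      have e : (((Units.mk0 (c : F) hc0) ^ p * x⁻¹ : Fˣ) : F) = (c : F) ^ p / x := by
        rw [Units.val_mul, Units.val_pow_eq_pow_val, Units.val_mk0, Units.val_inv_eq_inv_val,
          div_eq_mul_inv]
      rw [e]
      exact h3
    have h5 : (Units.mk0 (c : F) hc0) ^ p ∈ near O (pwG F p) := Subgroup.mem_sup_right ⟨_, rfl⟩
    have h6 := mul_mem (inv_mem h4) h5
    rwa [mul_inv, inv_inv, mul_comm _ x, inv_mul_cancel_right] at h6
  have hQ0 : Q.map r ≠ 0 := by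
    intro h0
    have h1 := congrArg (fun R : k[X] => R.coeff j) h0
    simp only [coeff_map, hQj, map_one, coeff_zero] at h1
    exact one_ne_zero h1
  have hcop : IsCoprime (X ^ p - C (r xO)) (Q.map r) := by
    rw [hirr.coprime_iff_not_dvd]
    intro hdvd
    refine hQ0 (eq_zero_of_dvd_of_natDegree_lt hdvd ?_)
    rw [natDegree_X_pow_sub_C]
    exact lt_of_le_of_lt (natDegree_map_le) (by rw [hQd]; exact hP'd)
  obtain ⟨A, B, hAB⟩ := hcop
  obtain ⟨A', rfl⟩ := map_surjective r IsLocalRing.residue_surjective A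
  obtain ⟨B', rfl⟩ := map_surjective r IsLocalRing.residue_surjective B
  set R : O[X] := A' * (X ^ p - C xO) + B' * Q - 1 with hR
  have hR0 : R.map r = 0 := by
    rw [hR, Polynomial.map_sub, Polynomial.map_add, Polynomial.map_mul, Polynomial.map_mul,
      Polynomial.map_sub, Polynomial.map_pow, map_X, map_C, Polynomial.map_one, hAB, sub_self]
  intro δ hδ
  have hδ1 : W.valuation δ = 1 := by
    apply val_eq_one_of_pow hp.ne_zero
    rw [hδ]
    have h1 : (x : F) ∈ O := hxm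
    have h2 : (x : F)⁻¹ ∈ O := by
      rw [← O.valuation_le_one_iff, map_inv₀]
      exact le_of_eq (by rw [show O.valuation (x : F) = 1 from hxO, inv_one])
    rw [← hW, ValuationSubring.mem_comap, ← W.valuation_le_one_iff] at h1 h2
    rw [map_inv₀, map_inv₀] at h2
    refine le_antisymm h1 ?_
    exact (inv_le_one₀ (zero_lt_iff.2 ((Valuation.ne_zero_iff _).2
      ((_root_.map_ne_zero _).2 x.ne_zero)))).1 h2
  let ι : O →+* N := (algebraMap F N).comp O.subtype
  have hιle : ∀ a : O, W.valuation (ι a) ≤ 1 := by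
    intro a
    have hWm : ∀ y : F, y ∈ O → algebraMap F N y ∈ W := by
      intro y hy
      rw [← hW] at hy
      exact hy
    exact (W.valuation_le_one_iff _).2 (hWm a a.2)
  have hιlt : ∀ a : O, r a = 0 → W.valuation (ι a) < 1 := by
    intro a ha
    rw [hr, IsLocalRing.residue_eq_zero_iff] at ha
    have h3 := (ValuationSubring.valuation_lt_one_iff O a).1 ha
    have h4 : (W.comap (algebraMap F N)).valuation (a : F) < 1 := by rw [hW]; exact h3
    exact val_comap.1 h4
  have hev : ∀ S : O[X], W.valuation (eval₂ ι δ S) ≤ 1 := by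
    intro S
    rw [eval₂_eq_sum_range]
    refine Valuation.map_sum_le _ fun i _ => ?_
    rw [map_mul, map_pow, hδ1, one_pow, mul_one]
    exact hιle _
  have hRev : W.valuation (eval₂ ι δ R) < 1 := by
    rw [eval₂_eq_sum_range]
    refine Valuation.map_sum_lt _ one_ne_zero fun i _ => ?_
    rw [map_mul, map_pow, hδ1, one_pow, mul_one]
    apply hιlt
    have h1 := congrArg (fun S : k[X] => S.coeff i) hR0
    simpa only [coeff_map, coeff_zero] using h1
  have hRe : eval₂ ι δ R = eval₂ ι δ B' * eval₂ ι δ Q - 1 := by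
    rw [hR, eval₂_sub, eval₂_add, eval₂_mul, eval₂_mul, eval₂_sub, eval₂_pow, eval₂_X, eval₂_C,
      eval₂_one, hδ]
    have : ι xO = algebraMap F N x := rfl
    rw [this, sub_self, mul_zero, zero_add]
  have h1 : W.valuation (eval₂ ι δ B' * eval₂ ι δ Q) = 1 := by
    apply val_one_of
    rw [← hRe]
    exact hRev
  have h2 : W.valuation (eval₂ ι δ Q) = 1 := by
    rw [map_mul] at h1
    refine le_antisymm (hev Q) ?_
    rw [← h1]
    exact mul_le_of_le_one_left' (hev B')
  have h3 : eval₂ ι δ Q = aeval δ P / algebraMap F N (P.coeff j) := by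
    have h4 : eval₂ ι δ Q = aeval δ P' := by
      rw [← hQ, aeval_def, eval₂_map]
    rw [h4, hP', map_mul, aeval_C, map_inv₀, div_eq_mul_inv]
  rw [← h3]
  exact h2

end poly

section norms

variable {F : Type} [Field F] {p : ℕ} {O : ValuationSubring F}

lemma minpoly_root (hp : p.Prime) {Ω : Type} [Field Ω] [Algebra F Ω] {x : Fˣ} (hx : x ∉ pwG F p)
    {β : Ω} (hβ : β ^ p = algebraMap F Ω x) : minpoly F β = X ^ p - C (x : F) := by
  symm
  apply minpoly.eq_of_irreducible_of_monic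
  · apply X_pow_sub_C_irreducible_of_prime hp
    intro b hb
    apply hx
    have hb0 : b ≠ 0 := by
      rintro rfl
      rw [zero_pow hp.ne_zero] at hb
      exact x.ne_zero hb.symm
    exact ⟨Units.mk0 b hb0, Units.ext hb⟩
  · rw [map_sub, map_pow, aeval_X, aeval_C, hβ, sub_self]
  · exact monic_X_pow_sub_C _ hp.ne_zero

/-- norms as norms of polynomials in the root -/
lemma nm_rep (hp : p.Prime) {Ω : Type} [Field Ω] [Algebra F Ω] {x : Fˣ} (hx : x ∉ pwG F p)
    {β : Ω} (hβ : β ^ p = algebraMap F Ω x) {y : Fˣ} (hy : y ∈ nmG p x) :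
    ∃ P : F[X], P.natDegree < p ∧ P ≠ 0 ∧
      Algebra.norm F (aeval (AdjoinSimple.gen F β) P) = (y : F) := by
  have hmin := minpoly_root hp hx hβ
  have hint : IsIntegral F β := ⟨X ^ p - C (x : F), monic_X_pow_sub_C _ hp.ne_zero, by
    rw [eval₂_sub, eval₂_pow, eval₂_X, eval₂_C, hβ, sub_self]⟩
  unfold nmG at hy
  rw [← hmin] at hy
  obtain ⟨z, hz⟩ := hy
  have hz' : Algebra.norm F (z : AdjoinRoot (minpoly F β)) = (y : F) := by
    have := congrArg (fun u : Fˣ => (u : F)) hz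
    exact this
  obtain ⟨P₀, hP₀⟩ := AdjoinRoot.mk_surjective (z : AdjoinRoot (minpoly F β))
  set P := P₀ %ₘ minpoly F β with hP
  have hmon : (minpoly F β).Monic := minpoly.monic hint
  have hmkP : AdjoinRoot.mk (minpoly F β) P = (z : AdjoinRoot (minpoly F β)) := by
    rw [← hP₀, AdjoinRoot.mk_eq_mk, hP, modByMonic_eq_sub_mul_div, sub_sub_cancel_left]
    exact (dvd_neg.2 (dvd_mul_right _ _))
  have hP0 : P ≠ 0 := by
    intro h0
    rw [h0, map_zero] at hmkP
    have h1 := hz'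
    rw [← hmkP] at h1
    have : Nontrivial (AdjoinRoot (minpoly F β)) := by
      have := Fact.mk (minpoly.irreducible hint)
      infer_instance
    exact z.ne_zero hmkP.symm
  refine ⟨P, ?_, hP0, ?_⟩
  · have h1 := natDegree_lt_natDegree hP0 (degree_modByMonic_lt P₀ hmon)
    rwa [hmin, natDegree_X_pow_sub_C] at h1
  · have he : adjoinRootEquivAdjoin F hint (AdjoinRoot.mk (minpoly F β) P) =
        aeval (AdjoinSimple.gen F β) P := by
      rw [← adjoinRootEquivAdjoin_apply_root F hint, Polynomial.aeval_algHom_apply,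
        AdjoinRoot.aeval_eq]
    rw [← hz', ← Algebra.norm_eq_of_algEquiv (adjoinRootEquivAdjoin F hint), ← hmkP, he]

lemma norm_gen (hp : p.Prime) (hp2 : p ≠ 2) {Ω : Type} [Field Ω] [Algebra F Ω] {x : Fˣ}
    (hx : x ∉ pwG F p) {β : Ω} (hβ : β ^ p = algebraMap F Ω x) :
    Algebra.norm F (AdjoinSimple.gen F β) = (x : F) := by
  have hmin := minpoly_root hp hx hβ
  have hint : IsIntegral F β := ⟨X ^ p - C (x : F), monic_X_pow_sub_C _ hp.ne_zero, by
    rw [eval₂_sub, eval₂_pow, eval₂_X, eval₂_C, hβ, sub_self]⟩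
  rw [← adjoinRootEquivAdjoin_apply_root F hint, Algebra.norm_eq_of_algEquiv]
  have h1 := Pool.Agent.Y349.EP.norm_sub_root (F := F) hp.pos (x : F) 0
  rw [map_zero, zero_sub, zero_pow hp.ne_zero, zero_sub] at h1
  have hodd : Odd p := hp.odd_of_ne_two hp2
  have h2 : Algebra.norm F (-(AdjoinRoot.root (X ^ p - C (x : F)))) =
      - Algebra.norm F (AdjoinRoot.root (X ^ p - C (x : F))) := by
    have h3 : (-(AdjoinRoot.root (X ^ p - C (x : F)))) =
        algebraMap F (AdjoinRoot (X ^ p - C (x : F))) (-1) * AdjoinRoot.root _ := by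
      rw [map_neg, map_one, neg_one_mul]
    rw [h3, map_mul, Pool.Agent.Y349.EP.norm_scalar hp.pos, hodd.neg_one_pow, neg_one_mul]
  rw [h2] at h1
  rw [hmin]
  exact neg_injective h1

/-- the norm of `a γ^i` -/
lemma norm_term (hp : p.Prime) (hp2 : p ≠ 2) {Ω : Type} [Field Ω] [Algebra F Ω] {x : Fˣ}
    (hx : x ∉ pwG F p) {β : Ω} (hβ : β ^ p = algebraMap F Ω x) (a : F) (i : ℕ) :
    Algebra.norm F (algebraMap F F⟮β⟯ a * AdjoinSimple.gen F β ^ i) = a ^ p * (x : F) ^ i := by
  have hmin := minpoly_root hp hx hβ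
  have hint : IsIntegral F β := ⟨X ^ p - C (x : F), monic_X_pow_sub_C _ hp.ne_zero, by
    rw [eval₂_sub, eval₂_pow, eval₂_X, eval₂_C, hβ, sub_self]⟩
  rw [map_mul, map_pow, norm_gen hp hp2 hx hβ, Algebra.norm_algebraMap,
    IntermediateField.adjoin.finrank hint, hmin, natDegree_X_pow_sub_C]

/-- **Norms from a ramified extension.** -/
theorem nm_ram (hp : p.Prime) (hp2 : p ≠ 2) {ζ : F} (hζ : IsPrimitiveRoot ζ p) {x : Fˣ}
    (hx : x ∉ O.unitGroup ⊔ pwG F p) : nmG p x ≤ Subgroup.zpowers x ⊔ near O (pwG F p) := by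
  intro y hy
  have hxp : x ∉ pwG F p := fun h => hx (Subgroup.mem_sup_right h)
  obtain ⟨β, hβ⟩ : ∃ β : AlgebraicClosure F, β ^ p = algebraMap F _ (x : F) :=
    IsAlgClosed.exists_pow_nat_eq _ hp.pos
  obtain ⟨hfd, hgal, -⟩ := Tw_root hp hζ β (x : F) hβ
  have := hfd
  have := hgal
  obtain ⟨W, hW⟩ := Pool.Agent.Y620.ET.t_EXTV F F⟮β⟯ O
  set γ : F⟮β⟯ := AdjoinSimple.gen F β with hγd
  have hγ : γ ^ p = algebraMap F F⟮β⟯ (x : F) := Subtype.ext (by
    rw [hγd]
    exact hβ)
  obtain ⟨P, hP, hP0, hPy⟩ := nm_rep hp hxp hβ hy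
  obtain ⟨i, hi, hPi, hdom⟩ := ram_dom hp hW hx hγ hP hP0
  have hγ0 : γ ≠ 0 := by
    rintro h0
    rw [h0, zero_pow hp.ne_zero] at hγ
    exact (_root_.map_ne_zero (algebraMap F F⟮β⟯)).2 x.ne_zero hγ.symm
  have hden : algebraMap F F⟮β⟯ (P.coeff i) * γ ^ i ≠ 0 :=
    mul_ne_zero ((_root_.map_ne_zero _).2 hPi) (pow_ne_zero _ hγ0)
  have hnd := norm_term hp hp2 hxp hβ (P.coeff i) i
  rw [← hγd] at hnd
  -- the quotient
  have hq : W.valuation (algebraMap F F⟮β⟯ (Algebra.norm F (aeval γ P /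
      (algebraMap F F⟮β⟯ (P.coeff i) * γ ^ i))) - 1) < 1 := by
    rw [Algebra.norm_eq_prod_automorphisms]
    have h1 : ∀ σ : F⟮β⟯ ≃ₐ[F] F⟮β⟯, W.valuation (σ (aeval γ P /
        (algebraMap F F⟮β⟯ (P.coeff i) * γ ^ i)) - 1) < 1 := by
      intro σ
      have hσP : σ (aeval γ P) = aeval (σ γ) P := (Polynomial.aeval_algHom_apply σ γ P).symm
      rw [map_div₀, map_mul, map_pow, σ.commutes, hσP]
      refine hdom (σ γ) ?_
      rw [← map_pow, hγ, σ.commutes]
    exact Finset.prod_induction (fun σ : F⟮β⟯ ≃ₐ[F] F⟮β⟯ => σ (aeval γ P /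
        (algebraMap F F⟮β⟯ (P.coeff i) * γ ^ i))) (fun z => W.valuation (z - 1) < 1)
      (fun a b => near_mul) (by rw [sub_self, map_zero]; exact zero_lt_one) (fun σ _ => h1 σ)
  have hnq : Algebra.norm F (aeval γ P / (algebraMap F F⟮β⟯ (P.coeff i) * γ ^ i)) =
      (y : F) / (P.coeff i ^ p * (x : F) ^ i) := by
    rw [eq_div_iff (mul_ne_zero (pow_ne_zero _ hPi) (pow_ne_zero _ x.ne_zero)), ← hnd, ← map_mul,
      div_mul_cancel₀ _ hden, hPy]
  rw [hnq, ← map_one (algebraMap F F⟮β⟯), ← map_sub, ← val_comap, hW] at hq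
  set f : Fˣ := Units.mk0 _ hPi with hf
  have h1 : y * (f ^ p * x ^ i)⁻¹ ∈ near O (pwG F p) := by
    apply mem_near
    have e : ((y * (f ^ p * x ^ i)⁻¹ : Fˣ) : F) = (y : F) / (P.coeff i ^ p * (x : F) ^ i) := by
      rw [Units.val_mul, Units.val_inv_eq_inv_val, Units.val_mul, Units.val_pow_eq_pow_val,
        Units.val_pow_eq_pow_val, hf, Units.val_mk0, div_eq_mul_inv]
    rw [e]
    exact hq
  have h2 : f ^ p * x ^ i ∈ Subgroup.zpowers x ⊔ near O (pwG F p) :=
    mul_mem (Subgroup.mem_sup_right (Subgroup.mem_sup_right ⟨f, rfl⟩))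
      (Subgroup.mem_sup_left (Subgroup.npow_mem_zpowers x i))
  have h3 := mul_mem (Subgroup.mem_sup_right h1 : _ ∈ Subgroup.zpowers x ⊔ near O (pwG F p)) h2
  rwa [inv_mul_cancel_right] at h3

/-- **Norms from an unramified extension.** -/
theorem nm_unr (hp : p.Prime) {ζ : F} (hζ : IsPrimitiveRoot ζ p) {x : Fˣ}
    (hxO : x ∈ O.unitGroup) (hx : x ∉ near O (pwG F p)) :
    nmG p x ≤ O.unitGroup ⊔ pwG F p := by
  intro y hy
  have hxp : x ∉ pwG F p := fun h => hx (Subgroup.mem_sup_right h)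
  obtain ⟨β, hβ⟩ : ∃ β : AlgebraicClosure F, β ^ p = algebraMap F _ (x : F) :=
    IsAlgClosed.exists_pow_nat_eq _ hp.pos
  obtain ⟨hfd, hgal, -⟩ := Tw_root hp hζ β (x : F) hβ
  have := hfd
  have := hgal
  obtain ⟨W, hW⟩ := Pool.Agent.Y620.ET.t_EXTV F F⟮β⟯ O
  set γ : F⟮β⟯ := AdjoinSimple.gen F β with hγd
  have hγ : γ ^ p = algebraMap F F⟮β⟯ (x : F) := Subtype.ext (by
    rw [hγd]
    exact hβ)
  obtain ⟨P, hP, hP0, hPy⟩ := nm_rep hp hxp hβ hy
  obtain ⟨j, hPj, hone⟩ := unr_one hp hW hxO hx hP hP0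
  have hint : IsIntegral F β := ⟨X ^ p - C (x : F), monic_X_pow_sub_C _ hp.ne_zero, by
    rw [eval₂_sub, eval₂_pow, eval₂_X, eval₂_C, hβ, sub_self]⟩
  have hPj' : algebraMap F F⟮β⟯ (P.coeff j) ≠ 0 := (_root_.map_ne_zero _).2 hPj
  have hq : W.valuation (algebraMap F F⟮β⟯ (Algebra.norm F (aeval γ P /
      algebraMap F F⟮β⟯ (P.coeff j)))) = 1 := by
    rw [Algebra.norm_eq_prod_automorphisms]
    refine Finset.prod_induction (fun σ : F⟮β⟯ ≃ₐ[F] F⟮β⟯ => σ (aeval γ P /
        algebraMap F F⟮β⟯ (P.coeff j))) (fun z => W.valuation z = 1)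
      (fun a b ha hb => by rw [map_mul, ha, hb, one_mul]) (map_one _) (fun σ _ => ?_)
    have hσP : σ (aeval γ P) = aeval (σ γ) P := (Polynomial.aeval_algHom_apply σ γ P).symm
    rw [map_div₀, σ.commutes, hσP]
    refine hone (σ γ) ?_
    rw [← map_pow, hγ, σ.commutes]
  have hnq : Algebra.norm F (aeval γ P / algebraMap F F⟮β⟯ (P.coeff j)) =
      (y : F) / P.coeff j ^ p := by
    have h1 : Algebra.norm F (algebraMap F F⟮β⟯ (P.coeff j)) = P.coeff j ^ p := by
      rw [Algebra.norm_algebraMap, IntermediateField.adjoin.finrank hint, minpoly_root hp hxp hβ,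
        natDegree_X_pow_sub_C]
    rw [eq_div_iff (pow_ne_zero _ hPj), ← h1, ← map_mul, div_mul_cancel₀ _ hPj', hPy]
  rw [hnq] at hq
  set f : Fˣ := Units.mk0 _ hPj with hf
  have h1 : y * (f ^ p)⁻¹ ∈ O.unitGroup := by
    have e : ((y * (f ^ p)⁻¹ : Fˣ) : F) = (y : F) / P.coeff j ^ p := by
      rw [Units.val_mul, Units.val_inv_eq_inv_val, Units.val_pow_eq_pow_val, hf, Units.val_mk0,
        div_eq_mul_inv]
    rw [← e] at hq
    have hWm : ∀ z : F, algebraMap F F⟮β⟯ z ∈ W → z ∈ O := by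
      intro z hz
      rw [← hW]
      exact hz
    have h5 := hWm _ ((W.valuation_le_one_iff _).1 hq.le)
    have h6 := hWm ((y * (f ^ p)⁻¹ : Fˣ) : F)⁻¹ (by
      rw [map_inv₀, ← W.valuation_le_one_iff, map_inv₀, hq, inv_one])
    rw [ValuationSubring.mem_unitGroup_iff]
    refine le_antisymm ((O.valuation_le_one_iff _).2 h5) ?_
    have h7 := (O.valuation_le_one_iff _).2 h6
    rw [map_inv₀] at h7
    exact (inv_le_one₀ (zero_lt_iff.2 ((Valuation.ne_zero_iff _).2 (Units.ne_zero _)))).1 h7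
  have h2 := Subgroup.mul_mem_sup h1 (show f ^ p ∈ pwG F p from ⟨f, rfl⟩)
  rwa [inv_mul_cancel_right] at h2

end norms

end Pool.Agent.V7H55.ET
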