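import Mathlib
import Pool.Agent.V7H55.ET.NmVal
import Pool.Agent.V7H55.ET.Indep

set_option autoImplicit false

/-!
# The orthogonal complement with respect to norms
-/

namespace Pool.Agent.V7H55.ET

open Pool.Agent.Y920.EP (pwG nmG)

section

variable {F : Type} [Field F] {p : ℕ} {O : ValuationSubring F}

/-- the elements that are norms from all the fields `F(c^(1/p))`, `c ∈ B` -/
def perp (p : ℕ) {F : Type} [Field F] (B : Subgroup Fˣ) : Subgroup Fˣ where
  carrier := {x | ∀ c ∈ B, c ∉ pwG F p → x ∈ nmG p c}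
  mul_mem' := fun hx hy c hc h => mul_mem (hx c hc h) (hy c hc h)
  one_mem' := fun c _ _ => one_mem _
  inv_mem' := fun hx c hc h => inv_mem (hx c hc h)

lemma mem_perp {B : Subgroup Fˣ} {x : Fˣ} :
    x ∈ perp p B ↔ ∀ c ∈ B, c ∉ pwG F p → x ∈ nmG p c := Iff.rfl

lemma nmG_congr (hp : p.Prime) {c c' : Fˣ} (h : c' * c⁻¹ ∈ pwG F p) : nmG p c' = nmG p c := by
  obtain ⟨f, hf⟩ := h
  have hf' : f ^ p = c' * c⁻¹ := hf
  have e1 : c' = c * f ^ p := by rw [hf', mul_comm, inv_mul_cancel_right]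
  apply le_antisymm
  · exact Pool.Agent.Y349.EP.nmG_le c f c' (by rw [e1]; push_cast; rfl)
  · refine Pool.Agent.Y349.EP.nmG_le c' f⁻¹ c ?_
    rw [← Units.val_pow_eq_pow_val, ← Units.val_mul, e1, inv_pow, mul_inv_cancel_right]

/-- **The orthogonal complement of a tight ring.** -/
theorem sup_perp (hp : p.Prime) {ζ : F} (hζ : IsPrimitiveRoot ζ p) (hfin : (pwG F p).index ≠ 0)
    (hO : Tight p (pwG F p) O) : near O (pwG F p) ⊔ perp p (near O (pwG F p)) = ⊤ := by
  rw [eq_top_iff]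
  intro x _
  obtain ⟨w, hw, hn⟩ := orth hp hζ le_rfl hfin hO x
  have hwp : w ∈ perp p (near O (pwG F p)) := by
    intro c hc hcp
    obtain ⟨c', h1, h2⟩ := hn c hc hcp
    rwa [nmG_congr hp h1] at h2
  have e : x = (w * x⁻¹)⁻¹ * w := by
    rw [mul_inv, inv_inv, mul_comm w⁻¹, inv_mul_cancel_right]
  rw [e]
  exact Subgroup.mul_mem_sup (inv_mem hw) hwp

lemma pw_mem_nm (hp : p.Prime) (hp2 : p ≠ 2) {x y : Fˣ} (hx : x ∈ pwG F p) : x ∈ nmG p y := by
  obtain ⟨f, rfl⟩ := hx
  exact (Pool.Agent.Y349.EP.t_NG p hp hp2 F).1 y f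

/-- symmetry -/
lemma nm_symm (hp : p.Prime) (hp2 : p ≠ 2) {ζ : F} (hζ : IsPrimitiveRoot ζ p) {a b : Fˣ}
    (ha : a ∉ pwG F p) (h : b ∈ nmG p a) (hb : b ∉ pwG F p) : a ∈ nmG p b :=
  Pool.Agent.Y349.EP.t_SYMM p hp hp2 F ζ hζ a b ha hb h

lemma le_nm_of_perp (hp : p.Prime) (hp2 : p ≠ 2) {ζ : F} (hζ : IsPrimitiveRoot ζ p)
    {B : Subgroup Fˣ} {x : Fˣ} (hx : x ∈ perp p B) (hxp : x ∉ pwG F p) : B ≤ nmG p x := by
  intro c hc
  by_cases hcp : c ∈ pwG F p
  · exact pw_mem_nm hp hp2 hcp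
  · exact nm_symm hp hp2 hζ hcp (hx c hc hcp) hxp

/-- `(1 + m) F*^p ≤ O* F*^p` -/
lemma near_le_units {T : Subgroup Fˣ} : near O T ≤ O.unitGroup ⊔ T :=
  sup_le_sup_right O.principal_units_le_units _

lemma near_ne_top {T : Subgroup Fˣ} (hO : Adm p T O) : near O T ≠ ⊤ := by
  intro h
  apply hO.ne_top
  rw [eq_top_iff, ← h]
  exact near_le_units

/-- **Orthogonality of different complements.** -/
theorem perp_le (hp : p.Prime) (hp2 : p ≠ 2) {ζ : F} (hζ : IsPrimitiveRoot ζ p)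
    {O₁ O₂ : ValuationSubring F} (h₁ : Mini p (pwG F p) O₁) (h₂ : Mini p (pwG F p) O₂)
    (hne : near O₁ (pwG F p) ≠ near O₂ (pwG F p)) (hidx : (near O₁ (pwG F p)).index ≠ p) :
    perp p (near O₂ (pwG F p)) ≤ near O₁ (pwG F p) := by
  have : Fact p.Prime := ⟨hp⟩
  intro y hy
  by_contra hyn
  have hyp : y ∉ pwG F p := fun h => hyn ((le_sup_right : pwG F p ≤ near O₁ (pwG F p)) h)
  have hle := le_nm_of_perp hp hp2 hζ hy hyp
  have htop := sup_near h₁ h₂ hne
  by_cases hyU : y ∈ O₁.unitGroup ⊔ pwG F p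
  · obtain ⟨u, hu, t, ht, rfl⟩ := Subgroup.mem_sup.1 hyU
    have hun : u ∉ near O₁ (pwG F p) := fun h =>
      hyn (mul_mem h ((le_sup_right : pwG F p ≤ near O₁ (pwG F p)) ht))
    have h1 := nm_unr hp hζ hu hun
    have h2 : nmG p (u * t) = nmG p u := nmG_congr hp (by
      rw [mul_comm u t, mul_inv_cancel_right]
      exact ht)
    rw [h2] at hle
    apply h₁.adm.ne_top
    rw [eq_top_iff, ← htop]
    exact sup_le near_le_units (hle.trans h1)
  · have h1 := hle.trans (nm_ram hp hp2 hζ hyU)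
    have h2 : near O₁ (pwG F p) ⊔ Subgroup.zpowers y = ⊤ := by
      rw [eq_top_iff, ← htop, sup_comm (near O₁ _) (Subgroup.zpowers y)]
      exact sup_le le_sup_right h1
    have h3 : (near O₁ (pwG F p)).relIndex (near O₁ (pwG F p) ⊔ Subgroup.zpowers y) = p :=
      relIndex_adj (le_sup_right : pwG F p ≤ near O₁ (pwG F p)) hyn
    rw [h2, Subgroup.relIndex_top_right] at h3
    exact hidx h3

/-! ### Norm residue symbols -/

/-- the functions `c : F* × F* → ℤ/p`, multiplicative in both variables, such that `c(x,y) = 0` if `y`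
is a norm from `F(x^(1/p))` -/
def NSym (p : ℕ) (F : Type) [Field F] : Set (Fˣ → Fˣ → ZMod p) :=
  {c | (∀ a b x : Fˣ, c (a * b) x = c a x + c b x) ∧
    (∀ x a b : Fˣ, c x (a * b) = c x a + c x b) ∧
    ∀ x : Fˣ, x ∉ pwG F p → ∀ y ∈ nmG p x, c x y = 0}

lemma bi_pow_left {c : Fˣ → Fˣ → ZMod p} (h : ∀ a b x : Fˣ, c (a * b) x = c a x + c b x)
    {x : Fˣ} (hx : x ∈ pwG F p) (y : Fˣ) : c x y = 0 := by
  obtain ⟨f, rfl⟩ := hx
  have h1 : ∀ n : ℕ, c (f ^ n) y = n * c f y := by
    intro n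
    induction n with
    | zero =>
      have := h 1 1 y
      rw [one_mul] at this
      have h2 : c 1 y = 0 := by linear_combination -this
      rw [pow_zero, h2, Nat.cast_zero, zero_mul]
    | succ n ih =>
      rw [pow_succ, h, ih]
      push_cast
      ring
  have h2 := h1 p
  rw [CharP.cast_eq_zero, zero_mul] at h2
  exact h2

lemma bi_pow_right {c : Fˣ → Fˣ → ZMod p} (h : ∀ x a b : Fˣ, c x (a * b) = c x a + c x b)
    {x : Fˣ} (hx : x ∈ pwG F p) (y : Fˣ) : c y x = 0 :=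
  bi_pow_left (c := fun a b => c b a) (fun a b z => h z a b) hx y

/-- norm residue symbols are Steinberg symbols -/
lemma NSym.sym [Fact p.Prime] (hp2 : p ≠ 2) {c : Fˣ → Fˣ → ZMod p} (h : c ∈ NSym p F) :
    c ∈ Sym p (pwG F p) := by
  have hp : p.Prime := Fact.out
  obtain ⟨h1, h2, h3⟩ := h
  refine ⟨h1, h2, fun x y hxy => ?_, fun x hx y => bi_pow_left h1 hx y⟩
  by_cases hx : x ∈ pwG F p
  · exact bi_pow_left h1 hx y
  · apply h3 x hx
    have h4 := (Pool.Agent.Y349.EP.t_NG p hp hp2 F).2.1 (-x) y (by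
      rw [Units.val_neg]; linear_combination hxy)
    have h5 : nmG p (-x) = nmG p x := nmG_congr hp (by
      refine ⟨-1, ?_⟩
      have hodd : Odd p := hp.odd_of_ne_two hp2
      change (-1 : Fˣ) ^ p = -x * x⁻¹
      rw [hodd.neg_one_pow, neg_mul, mul_inv_cancel])
    rwa [h5] at h4

/-- the values on the group and its complement -/
lemma NSym.perp_right {c : Fˣ → Fˣ → ZMod p} (h : c ∈ NSym p F)
    {B : Subgroup Fˣ} {b x : Fˣ} (hb : b ∈ B) (hx : x ∈ perp p B) : c b x = 0 := by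
  by_cases hbp : b ∈ pwG F p
  · exact bi_pow_left h.1 hbp x
  · exact h.2.2 b hbp x (hx b hb hbp)

lemma NSym.perp_left [Fact p.Prime] (hp2 : p ≠ 2) {c : Fˣ → Fˣ → ZMod p} (h : c ∈ NSym p F)
    {B : Subgroup Fˣ} {b x : Fˣ} (hb : b ∈ B) (hx : x ∈ perp p B) : c x b = 0 := by
  rw [Sym.anti hp2 (NSym.sym hp2 h) b x, NSym.perp_right h hb hx, neg_zero]

/-- **The decomposition of the symbols.** -/
theorem split [Fact p.Prime] (hp2 : p ≠ 2) {ζ : F} (hζ : IsPrimitiveRoot ζ p)
    (hfin : (pwG F p).index ≠ 0) (hO : Tight p (pwG F p) O) {c : Fˣ → Fˣ → ZMod p}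
    (hc : c ∈ NSym p F) :
    ∃ d ∈ Sym p (near O (pwG F p)), c - d ∈ Sym p (perp p (near O (pwG F p))) := by
  have hp : p.Prime := Fact.out
  set B := near O (pwG F p) with hB
  set A := perp p B with hA
  have htop : B ⊔ A = ⊤ := sup_perp hp hζ hfin hO
  have hpB : pwG F p ≤ B := le_sup_right
  have hpA : pwG F p ≤ A := fun x hx c _ _ => pw_mem_nm hp hp2 hx
  have hdec : ∀ x : Fˣ, ∃ a ∈ A, x * a⁻¹ ∈ B := by
    intro x
    have hx : x ∈ B ⊔ A := by rw [htop]; trivial
    obtain ⟨b, hb, a, ha, rfl⟩ := Subgroup.mem_sup.1 hx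
    exact ⟨a, ha, by rwa [mul_inv_cancel_right]⟩
  choose α hα1 hα2 using hdec
  -- elements of `A ∩ B`
  have hR1 : ∀ r, r ∈ A → r ∈ B → ∀ y, c r y = 0 := by
    intro r hrA hrB y
    have e : y = y * (α y)⁻¹ * α y := by rw [inv_mul_cancel_right]
    rw [e, hc.2.1, NSym.perp_left hp2 hc (hα2 y) hrA, NSym.perp_right hc hrB (hα1 y), add_zero]
  have hR2 : ∀ r, r ∈ A → r ∈ B → ∀ y, c y r = 0 := by
    intro r hrA hrB y
    rw [Sym.anti hp2 (NSym.sym hp2 hc) r y, hR1 r hrA hrB, neg_zero]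
  -- independence of the choice
  have hcongr : ∀ x y x' y' : Fˣ, x' ∈ A → y' ∈ A → x * x'⁻¹ ∈ B → y * y'⁻¹ ∈ B →
      c (α x) (α y) = c x' y' := by
    intro x y x' y' hx' hy' hxB hyB
    have h1 : ∀ z z' : Fˣ, z' ∈ A → z * z'⁻¹ ∈ B → α z * z'⁻¹ ∈ A ∧ α z * z'⁻¹ ∈ B := by
      intro z z' hz' hzB
      refine ⟨mul_mem (hα1 z) (inv_mem hz'), ?_⟩
      have h2 := mul_mem (inv_mem (hα2 z)) hzB
      have e : (z * (α z)⁻¹)⁻¹ * (z * z'⁻¹) = α z * z'⁻¹ := by
        rw [mul_inv, inv_inv, mul_comm z⁻¹, mul_assoc, inv_mul_cancel_left]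
      rwa [e] at h2
    obtain ⟨h2, h3⟩ := h1 x x' hx' hxB
    obtain ⟨h4, h5⟩ := h1 y y' hy' hyB
    have e1 : α x = α x * x'⁻¹ * x' := by rw [inv_mul_cancel_right]
    have e2 : α y = α y * y'⁻¹ * y' := by rw [inv_mul_cancel_right]
    rw [e1, hc.1, hR1 _ h2 h3, zero_add, e2, hc.2.1, hR2 _ h4 h5, zero_add]
  have hone : ∀ u : Fˣ, O.valuation ((u : F) - 1) < 1 → u ∈ B := fun u hu => mem_near hu
  have hst : ∀ x y : Fˣ, (x : F) + y = 1 → c (α x) (α y) = 0 := by
    intro x y hxy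
    have hBl : ∀ z : Fˣ, z ∈ B → ∀ w, c (α z) w = 0 := by
      intro z hz w
      have h1 : α z ∈ B := by
        have h2 := mul_mem (inv_mem (hα2 z)) hz
        have e : (z * (α z)⁻¹)⁻¹ * z = α z := by
          rw [mul_inv, inv_inv, mul_comm z⁻¹, inv_mul_cancel_right]
        rwa [e] at h2
      exact hR1 _ (hα1 z) h1 w
    rcases lt_trichotomy (O.valuation (x : F)) 1 with h | h | h
    · -- `y` is close to `1`
      have h1 : y ∈ B := hone y (by
        have e : (y : F) - 1 = -x := by linear_combination hxy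
        rw [e, Valuation.map_neg]
        exact h)
      rw [Sym.anti hp2 (NSym.sym hp2 hc) (α y) (α x), hBl y h1, neg_zero]
    · rcases lt_or_eq_of_le (show O.valuation (y : F) ≤ 1 by
        have e : (y : F) = 1 - x := by linear_combination hxy
        rw [e]
        exact (Valuation.map_sub _ _ _).trans (max_le (by rw [map_one]) h.le)) with h' | h'
      · have h1 : x ∈ B := hone x (by
          have e : (x : F) - 1 = -y := by linear_combination hxy
          rw [e, Valuation.map_neg]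
          exact h')
        exact hBl x h1 _
      · -- both are units: change `x` by an element of `1 + m`
        obtain ⟨u, hu, t, ht, hut⟩ := Subgroup.mem_sup.1 (show x * (α x)⁻¹ ∈
          O.principalUnitGroup ⊔ pwG F p from hα2 x)
        -- `x u⁻¹ ∈ A`
        have hxA : x * u⁻¹ ∈ A := by
          have e : x * u⁻¹ = t * α x := by
            calc x * u⁻¹ = (x * (α x)⁻¹) * α x * u⁻¹ := by rw [inv_mul_cancel_right]
              _ = u * t * α x * u⁻¹ := by rw [← hut]
              _ = t * α x := by rw [mul_assoc u t, mul_comm u, mul_inv_cancel_right]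
          rw [e]
          exact mul_mem (hpA ht) (hα1 x)
        have hu' : O.valuation (((u⁻¹ : Fˣ) : F) - 1) < 1 := by
          have h1 : u⁻¹ ∈ O.principalUnitGroup := inv_mem hu
          rwa [ValuationSubring.mem_principalUnitGroup_iff] at h1
        have hd : O.valuation ((x : F) - ((x * u⁻¹ : Fˣ) : F)) < 1 := by
          have e : (x : F) - ((x * u⁻¹ : Fˣ) : F) = - (x * (((u⁻¹ : Fˣ) : F) - 1)) := by
            push_cast; ring
          rw [e, Valuation.map_neg, map_mul, h, one_mul]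
          exact hu'
        have hy0 := y.ne_zero
        have hvy0 : O.valuation (y : F) ≠ 0 := (Valuation.ne_zero_iff _).2 hy0
        -- `y' = 1 - x u⁻¹`
        have hyd : O.valuation ((1 - ((x * u⁻¹ : Fˣ) : F)) / y - 1) < 1 := by
          have e : (1 - ((x * u⁻¹ : Fˣ) : F)) / y - 1 = ((x : F) - ((x * u⁻¹ : Fˣ) : F)) / y := by
            rw [div_sub_one hy0]
            congr 1
            linear_combination -hxy
          rw [e, map_div₀, h', div_one]
          exact hd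
        have hy'0 : 1 - ((x * u⁻¹ : Fˣ) : F) ≠ 0 := by
          intro h0
          rw [h0, zero_div, zero_sub, Valuation.map_neg, map_one] at hyd
          exact lt_irrefl _ hyd
        set y' : Fˣ := Units.mk0 _ hy'0 with hy'
        have hyy : y' * y⁻¹ ∈ B := hone _ (by
          have e : ((y' * y⁻¹ : Fˣ) : F) - 1 = (1 - ((x * u⁻¹ : Fˣ) : F)) / y - 1 := by
            rw [Units.val_mul, Units.val_inv_eq_inv_val, hy', Units.val_mk0, div_eq_mul_inv]
          rw [e]
          exact hyd)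
        have h1 : c (x * u⁻¹) y' = 0 := (NSym.sym hp2 hc).2.2.1 _ _ (by
          rw [hy', Units.val_mk0]; ring)
        -- compare
        have h2 : c (α x) (α y) = c (x * u⁻¹) (α y') := by
          refine hcongr x y (x * u⁻¹) (α y') hxA (hα1 y') ?_ ?_
          · rw [mul_inv, inv_inv, mul_inv_cancel_left]
            exact Subgroup.mem_sup_left hu
          · have h3 := mul_mem (inv_mem hyy) (hα2 y')
            have e : (y' * y⁻¹)⁻¹ * (y' * (α y')⁻¹) = y * (α y')⁻¹ := by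
              rw [mul_inv, inv_inv, mul_comm y'⁻¹, mul_assoc, inv_mul_cancel_left]
            rwa [e] at h3
        rw [h2]
        have e : y' = y' * (α y')⁻¹ * α y' := by rw [inv_mul_cancel_right]
        rw [e, hc.2.1, NSym.perp_left hp2 hc (hα2 y') hxA, zero_add] at h1
        exact h1
    · -- `y` is close to `-x`
      have hx0 := x.ne_zero
      have h1 : y * x⁻¹ ∈ B := by
        have h2 : -(y * x⁻¹) ∈ B := hone _ (by
          have e : ((-(y * x⁻¹) : Fˣ) : F) - 1 = - (x : F)⁻¹ := by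
            rw [Units.val_neg, Units.val_mul, Units.val_inv_eq_inv_val]
            field_simp
            linear_combination -hxy
          rw [e, Valuation.map_neg, map_inv₀]
          exact inv_lt_one_of_one_lt₀ h)
        have h3 : (-1 : Fˣ) ∈ B := hpB ⟨-1, by
          have hodd : Odd p := hp.odd_of_ne_two hp2
          change (-1 : Fˣ) ^ p = -1
          exact hodd.neg_one_pow⟩
        have h4 := mul_mem h3 h2
        rwa [neg_one_mul, neg_neg] at h4
      have h2 := hcongr x y (α x) (α x) (hα1 x) (hα1 x) (hα2 x) (by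
        have h3 := mul_mem h1 (hα2 x)
        rwa [mul_assoc, inv_mul_cancel_left] at h3)
      rw [h2]
      exact Sym.self hp2 (NSym.sym hp2 hc) _
  refine ⟨fun x y => c (α x) (α y), ⟨?_, ?_, ?_, ?_⟩, ⟨?_, ?_, ?_, ?_⟩⟩
  · intro a b x
    have h1 := hcongr (a * b) x (α a * α b) (α x) (mul_mem (hα1 a) (hα1 b)) (hα1 x) (by
      rw [mul_inv, mul_mul_mul_comm]
      exact mul_mem (hα2 a) (hα2 b)) (hα2 x)
    change c (α (a * b)) (α x) = c (α a) (α x) + c (α b) (α x)
    rw [h1, hc.1]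
  · intro x a b
    have h1 := hcongr x (a * b) (α x) (α a * α b) (hα1 x) (mul_mem (hα1 a) (hα1 b)) (hα2 x) (by
      rw [mul_inv, mul_mul_mul_comm]
      exact mul_mem (hα2 a) (hα2 b))
    change c (α x) (α (a * b)) = c (α x) (α a) + c (α x) (α b)
    rw [h1, hc.2.1]
  · exact hst
  · intro x hx y
    change c (α x) (α y) = 0
    have h1 : α x ∈ B := by
      have h2 := mul_mem (inv_mem (hα2 x)) hx
      have e : (x * (α x)⁻¹)⁻¹ * x = α x := by
        rw [mul_inv, inv_inv, mul_comm x⁻¹, inv_mul_cancel_right]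
      rwa [e] at h2
    exact hR1 _ (hα1 x) h1 _
  · intro a b x
    change c (a * b) x - c (α (a * b)) (α x) = c a x - c (α a) (α x) + (c b x - c (α b) (α x))
    have h1 := hcongr (a * b) x (α a * α b) (α x) (mul_mem (hα1 a) (hα1 b)) (hα1 x) (by
      rw [mul_inv, mul_mul_mul_comm]
      exact mul_mem (hα2 a) (hα2 b)) (hα2 x)
    rw [h1, hc.1, hc.1]
    ring
  · intro x a b
    change c x (a * b) - c (α x) (α (a * b)) = c x a - c (α x) (α a) + (c x b - c (α x) (α b))
    have h1 := hcongr x (a * b) (α x) (α a * α b) (hα1 x) (mul_mem (hα1 a) (hα1 b)) (hα2 x) (by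
      rw [mul_inv, mul_mul_mul_comm]
      exact mul_mem (hα2 a) (hα2 b))
    rw [h1, hc.2.1, hc.2.1]
    ring
  · intro x y hxy
    change c x y - c (α x) (α y) = 0
    rw [hst x y hxy, (NSym.sym hp2 hc).2.2.1 x y hxy, sub_zero]
  · intro x hx y
    change c x y - c (α x) (α y) = 0
    have h1 := hcongr x y x (α y) hx (hα1 y) (by rw [mul_inv_cancel]; exact one_mem _) (hα2 y)
    have e : c x y = c x (y * (α y)⁻¹ * α y) := by rw [inv_mul_cancel_right]
    rw [h1, e, hc.2.1, NSym.perp_left hp2 hc (hα2 y) hx, zero_add, sub_self]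

end

end Pool.Agent.V7H55.ET
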