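import Mathlib
import Pool.Agent.V7H55.ET.Perp
import Pool.Agent.V7H55.ET.Gal

set_option autoImplicit false

/-!
# Decompositions
-/

namespace Pool.Agent.V7H55.ET

open Pool.Agent.Y920.EP (pwG nmG)

section

variable {F : Type} [Field F] {p : ℕ}

lemma exists_compl_aux [Fact p.Prime] {V : Type} [AddCommGroup V] [Module (ZMod p) V] {q : Fˣ → V}
    (hq : ∀ a b, q (a * b) = q a + q b) (hqs : Function.Surjective q)
    (hq0 : ∀ a, q a = 0 ↔ a ∈ pwG F p) (r : Fˣ) : ∃ A A' : Subgroup Fˣ, pwG F p ≤ A ∧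
    pwG F p ≤ A' ∧ A ⊔ A' = ⊤ ∧ A ⊓ A' = pwG F p ∧ r ∈ A ∧
    ∀ a ∈ A, ∃ j : ℕ, a * (r ^ j)⁻¹ ∈ pwG F p := by
  have hq1 : q 1 = 0 := (hq0 1).2 (one_mem _)
  have hqi : ∀ a, q a⁻¹ = - q a := fun a => by
    have := hq a a⁻¹
    rw [mul_inv_cancel, hq1] at this
    exact (neg_eq_of_add_eq_zero_right this.symm).symm
  obtain ⟨K', hK'⟩ := Submodule.exists_isCompl (Submodule.span (ZMod p) {q r})
  set K := Submodule.span (ZMod p) {q r} with hK
  let sg : Submodule (ZMod p) V → Subgroup Fˣ := fun L =>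
    { carrier := {x | q x ∈ L}
      mul_mem' := fun {a b} ha hb => by
        rw [Set.mem_ofPred_eq] at ha hb ⊢
        rw [hq]
        exact L.add_mem ha hb
      one_mem' := by
        rw [Set.mem_ofPred_eq, hq1]
        exact L.zero_mem
      inv_mem' := fun {a} ha => by
        rw [Set.mem_ofPred_eq] at ha ⊢
        rw [hqi]
        exact L.neg_mem ha }
  have hsg : ∀ L x, x ∈ sg L ↔ q x ∈ L := fun L x => Iff.rfl
  refine ⟨sg K, sg K', ?_, ?_, ?_, ?_, ?_, ?_⟩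
  · intro x hx
    rw [hsg, (hq0 x).2 hx]
    exact K.zero_mem
  · intro x hx
    rw [hsg, (hq0 x).2 hx]
    exact K'.zero_mem
  · rw [eq_top_iff]
    intro x _
    have h1 : q x ∈ K ⊔ K' := by rw [hK'.sup_eq_top]; trivial
    obtain ⟨k, hk, k', hk', hkk⟩ := Submodule.mem_sup.1 h1
    obtain ⟨a, ha⟩ := hqs k
    have e : x = a * (a⁻¹ * x) := by rw [mul_inv_cancel_left]
    rw [e]
    refine Subgroup.mul_mem_sup ?_ ?_
    · rw [hsg, ha]
      exact hk
    · rw [hsg, hq, hqi, ha, ← hkk, neg_add_cancel_left]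
      exact hk'
  · ext x
    rw [Subgroup.mem_inf, hsg, hsg, ← hq0, ← Submodule.mem_inf, hK'.inf_eq_bot, Submodule.mem_bot]
  · rw [hsg]
    exact Submodule.subset_span rfl
  · intro a ha
    rw [hsg, hK, Submodule.mem_span_singleton] at ha
    obtain ⟨z, hz⟩ := ha
    refine ⟨z.val, ?_⟩
    rw [← hq0, hq, hqi, ← hz]
    have h1 : ∀ n : ℕ, q (r ^ n) = n • q r := by
      intro n
      induction n with
      | zero => rw [pow_zero, hq1, zero_smul]
      | succ n ih => rw [pow_succ, hq, ih, succ_nsmul]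
    rw [h1, ← Nat.cast_smul_eq_nsmul (ZMod p), ZMod.natCast_zmod_val, add_neg_cancel]

/-- complements in `F*/F*^p` -/
lemma exists_compl (hp : p.Prime) (r : Fˣ) : ∃ A A' : Subgroup Fˣ, pwG F p ≤ A ∧ pwG F p ≤ A' ∧
    A ⊔ A' = ⊤ ∧ A ⊓ A' = pwG F p ∧ r ∈ A ∧ ∀ a ∈ A, ∃ j : ℕ, a * (r ^ j)⁻¹ ∈ pwG F p := by
  have : Fact p.Prime := ⟨hp⟩
  let iG : AddCommGroup (Additive (Fˣ ⧸ pwG F p)) := inferInstance
  have hz : ∀ x : Additive (Fˣ ⧸ pwG F p), p • x = 0 := fun x => by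
    obtain ⟨a, ha⟩ := QuotientGroup.mk_surjective (Additive.toMul x)
    have h1 : p • x = Additive.ofMul ((QuotientGroup.mk a : Fˣ ⧸ pwG F p) ^ p) := by
      rw [ha]
      rfl
    rw [h1, ofMul_eq_zero, ← QuotientGroup.mk_pow, QuotientGroup.eq_one_iff]
    exact ⟨a, rfl⟩
  let iM : Module (ZMod p) (Additive (Fˣ ⧸ pwG F p)) := AddCommGroup.zmodModule hz
  refine exists_compl_aux (V := Additive (Fˣ ⧸ pwG F p))
    (q := fun a => Additive.ofMul (QuotientGroup.mk a)) (fun a b => rfl) ?_ ?_ r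
  · intro x
    obtain ⟨a, ha⟩ := QuotientGroup.mk_surjective (Additive.toMul x)
    exact ⟨a, congrArg Additive.ofMul ha⟩
  · intro a
    rw [ofMul_eq_zero, QuotientGroup.eq_one_iff]

lemma exists_index_pow {T : Subgroup Fˣ} (hp : p.Prime) (hpT : pwG F p ≤ T) (hfin : T.index ≠ 0) :
    ∃ n, T.index = p ^ n := by
  have : Fact p.Prime := ⟨hp⟩
  have : T.FiniteIndex := ⟨hfin⟩
  have h1 : IsPGroup p (Fˣ ⧸ T) := by
    intro x
    obtain ⟨a, rfl⟩ := QuotientGroup.mk_surjective x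
    refine ⟨1, ?_⟩
    rw [pow_one, ← QuotientGroup.mk_pow, QuotientGroup.eq_one_iff]
    exact hpT ⟨a, rfl⟩
  exact IsPGroup.iff_card.1 h1

/-- **Indecomposable fields.** -/
theorem indec (hp : p.Prime) (hp2 : p ≠ 2) {ζ : F} (hζ : IsPrimitiveRoot ζ p)
    (hfin : (pwG F p).index ≠ 0)
    (hind : ∀ A A' : Subgroup Fˣ, pwG F p ≤ A → pwG F p ≤ A' → A ⊔ A' = ⊤ → A ⊓ A' = pwG F p →
      (∀ a ∈ A, a ∉ pwG F p → A' ≤ nmG p a) → A = pwG F p ∨ A' = pwG F p)
    {O : ValuationSubring F} (hO : Adm p (pwG F p) O) :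
    ∃ O₁ : ValuationSubring F, Adm p (pwG F p) O₁ ∧ near O₁ (pwG F p) ≤ pwG F p := by
  obtain ⟨O₁, hle, hmini⟩ := exists_mini hfin hO
  refine ⟨O₁, hmini.adm, ?_⟩
  by_contra hne
  set B := near O₁ (pwG F p) with hB
  have hpB : pwG F p ≤ B := le_sup_right
  have hpP : pwG F p ≤ perp p B := fun x hx c _ _ => pw_mem_nm hp hp2 hx
  have htop : B ⊔ perp p B = ⊤ := sup_perp hp hζ hfin hmini.tight
  have hBtop : B ≠ ⊤ := near_ne_top hmini.adm
  by_cases hR : B ⊓ perp p B ≤ pwG F p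
  · have h1 := hind B (perp p B) hpB hpP htop (le_antisymm hR (le_inf hpB hpP))
      (fun a ha hap x hx => hx a ha hap)
    rcases h1 with h1 | h1
    · exact hne h1.le
    · rw [h1, sup_eq_left.2 hpB] at htop
      exact hBtop htop
  · obtain ⟨r, hr, hrp⟩ := Set.not_subset.1 hR
    obtain ⟨hrB, hrP⟩ := Subgroup.mem_inf.1 hr
    have hrtop : nmG p r = ⊤ := by
      rw [eq_top_iff, ← htop]
      exact sup_le (le_nm_of_perp hp hp2 hζ hrP hrp) (fun x hx => hx r hrB hrp)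
    obtain ⟨A, A', h1, h2, h3, h4, h5, h6⟩ := exists_compl hp r
    have h7 := hind A A' h1 h2 h3 h4 (by
      intro a ha hap x _
      by_cases hxp : x ∈ pwG F p
      · exact pw_mem_nm hp hp2 hxp
      · refine nm_symm hp hp2 hζ hxp ?_ hap
        obtain ⟨j, hj⟩ := h6 a ha
        have hrx : r ∈ nmG p x := nm_symm hp hp2 hζ hrp (by rw [hrtop]; trivial) hxp
        have h8 := mul_mem (pw_mem_nm hp hp2 hj : _ ∈ nmG p x) (pow_mem hrx j)
        rwa [inv_mul_cancel_right] at h8)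
    rcases h7 with h7 | h7
    · rw [h7] at h5
      exact hrp h5
    · rw [h7, sup_eq_left.2 h1] at h3
      apply hBtop
      rw [eq_top_iff, ← h3]
      intro a ha
      obtain ⟨j, hj⟩ := h6 a ha
      have h8 := mul_mem (hpB hj) (pow_mem hrB j)
      rwa [inv_mul_cancel_right] at h8

/-- the set of the minimal groups `(1 + m) F*^p` -/
def BB (F : Type) [Field F] (p : ℕ) : Set (Subgroup Fˣ) :=
  {B | ∃ O : ValuationSubring F, Mini p (pwG F p) O ∧ near O (pwG F p) = B}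

lemma finite_BB (hfin : (pwG F p).index ≠ 0) : (BB F p).Finite := by
  have : (pwG F p).FiniteIndex := ⟨hfin⟩
  have h1 : Finite (Fˣ ⧸ pwG F p) := inferInstance
  have h2 : Finite (Subgroup (Fˣ ⧸ pwG F p)) := inferInstance
  refine Set.Finite.of_finite_image
    (f := fun B : Subgroup Fˣ => B.map (QuotientGroup.mk' (pwG F p))) (Set.toFinite _) ?_
  rintro B ⟨O, -, rfl⟩ B' ⟨O', -, rfl⟩ h
  have h3 : ∀ O : ValuationSubring F, ((near O (pwG F p)).map (QuotientGroup.mk' (pwG F p))).comap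
      (QuotientGroup.mk' (pwG F p)) = near O (pwG F p) := fun O =>
    Subgroup.comap_map_eq_self (by rw [QuotientGroup.ker_mk']; exact le_sup_right)
  rw [← h3 O, ← h3 O']
  exact congrArg (Subgroup.comap (QuotientGroup.mk' (pwG F p))) h

/-- no symbols on cyclic groups -/
lemma Sym.index_p [Fact p.Prime] (hp2 : p ≠ 2) {T : Subgroup Fˣ} (hT : pwG F p ≤ T)
    (hidx : T.index = p) {c : Fˣ → Fˣ → ZMod p} (hc : c ∈ Sym p T) : c = 0 := by
  have h1 := card_Sym_triv (p := p) hp2 1 T hT (by rw [hidx, pow_one])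
  have h2 : (1 * (1 - 1) / 2) = 0 := rfl
  rw [h2, pow_zero] at h1
  have hfin : T.index ≠ 0 := by rw [hidx]; exact (Fact.out : p.Prime).ne_zero
  have := finite_Sym (p := p) hp2 hfin
  have h3 : Subsingleton (Sym p T) := Finite.card_le_one_iff_subsingleton.1 h1
  exact congrArg (fun z : Sym p T => (z : Fˣ → Fˣ → ZMod p))
    (h3.elim (⟨c, hc⟩ : Sym p T) 0)

/-- symbols vanishing on `B` vanish on the complements of the other groups -/
lemma Sym.of_BB [Fact p.Prime] (hp2 : p ≠ 2) {ζ : F} (hζ : IsPrimitiveRoot ζ p)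
    {B B' : Subgroup Fˣ} (hB : B ∈ BB F p) (hB' : B' ∈ BB F p) (hne : B ≠ B')
    {c : Fˣ → Fˣ → ZMod p} (hc : c ∈ Sym p B) {x : Fˣ} (hx : x ∈ perp p B') (y : Fˣ) :
    c x y = 0 := by
  have hp : p.Prime := Fact.out
  obtain ⟨O, hO, rfl⟩ := hB
  obtain ⟨O', hO', rfl⟩ := hB'
  by_cases hidx : (near O (pwG F p)).index = p
  · rw [Sym.index_p hp2 le_sup_right hidx hc]
    rfl
  · exact Sym.van hc (perp_le hp hp2 hζ hO hO' hne hidx hx) y

/-- **The decomposition of `K₂/p`.** -/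
theorem split_all [Fact p.Prime] (hp2 : p ≠ 2) {ζ : F} (hζ : IsPrimitiveRoot ζ p)
    (hfin : (pwG F p).index ≠ 0) (s : Finset (Subgroup Fˣ)) (hs : ∀ B, B ∈ s ↔ B ∈ BB F p)
    {c : Fˣ → Fˣ → ZMod p} (hc : c ∈ NSym p F) :
    ∃ d : Subgroup Fˣ → Fˣ → Fˣ → ZMod p, (∀ B ∈ s, d B ∈ Sym p B) ∧
      c - ∑ B ∈ s, d B ∈ Sym p (pwG F p ⊔ ⨆ B ∈ s, perp p B) := by
  classical
  have h1 : ∀ B ∈ s, ∃ d ∈ Sym p B, c - d ∈ Sym p (perp p B) := by
    intro B hB
    obtain ⟨O, hO, rfl⟩ := (hs B).1 hB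
    exact split hp2 hζ hfin hO.tight hc
  let d : Subgroup Fˣ → Fˣ → Fˣ → ZMod p := fun B => if h : B ∈ s then (h1 B h).choose else 0
  have hd1 : ∀ B ∈ s, d B ∈ Sym p B := by
    intro B hB
    simp only [d, dif_pos hB]
    exact (h1 B hB).choose_spec.1
  have hd2 : ∀ B ∈ s, c - d B ∈ Sym p (perp p B) := by
    intro B hB
    simp only [d, dif_pos hB]
    exact (h1 B hB).choose_spec.2
  have hle : ∀ B ∈ s, Sym p B ≤ Sym p (pwG F p) := by
    intro B hB e he
    obtain ⟨O, hO, rfl⟩ := (hs B).1 hB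
    exact ⟨he.1, he.2.1, he.2.2.1, fun x hx y => he.2.2.2 x (Subgroup.mem_sup_right hx) y⟩
  have hmem : c - ∑ B ∈ s, d B ∈ Sym p (pwG F p) :=
    (Sym p (pwG F p)).sub_mem (NSym.sym hp2 hc)
      ((Sym p (pwG F p)).sum_mem fun B hB => hle B hB (hd1 B hB))
  refine ⟨d, hd1, hmem.1, hmem.2.1, hmem.2.2.1, ?_⟩
  -- the elements on the left of which it vanishes
  let S : Subgroup Fˣ :=
    { carrier := {x | ∀ y, (c - ∑ B ∈ s, d B) x y = 0}
      mul_mem' := fun {x x'} hx hx' y => by rw [hmem.1, hx, hx', add_zero]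
      one_mem' := fun y => (Sym.isSymbol hmem).one_left y
      inv_mem' := fun {x} hx y => by rw [(Sym.isSymbol hmem).inv_left, hx, neg_zero] }
  have hS : pwG F p ⊔ ⨆ B ∈ s, perp p B ≤ S := by
    refine sup_le (fun x hx y => Sym.van hmem hx y) (iSup₂_le fun B hB x hx y => ?_)
    have h2 : (c - ∑ B ∈ s, d B) = (c - d B) - ∑ B' ∈ s.erase B, d B' := by
      rw [← Finset.add_sum_erase s d hB, sub_sub]
    rw [h2]
    change (c - d B) x y - (∑ B' ∈ s.erase B, d B') x y = 0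
    rw [Sym.van (hd2 B hB) hx, Finset.sum_apply, Finset.sum_apply, zero_sub, neg_eq_zero]
    refine Finset.sum_eq_zero fun B' hB' => ?_
    have hB's := Finset.mem_of_mem_erase hB'
    exact Sym.of_BB hp2 hζ ((hs B').1 hB's) ((hs B).1 hB) (Finset.ne_of_mem_erase hB')
      (hd1 B' hB's) hx y
  exact fun x hx y => hS hx y

/-- uniqueness -/
theorem split_unique [Fact p.Prime] (hp2 : p ≠ 2) {ζ : F} (hζ : IsPrimitiveRoot ζ p)
    (hfin : (pwG F p).index ≠ 0) (s : Finset (Subgroup Fˣ)) (hs : ∀ B, B ∈ s ↔ B ∈ BB F p)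
    {d : Subgroup Fˣ → Fˣ → Fˣ → ZMod p} (hd : ∀ B ∈ s, d B ∈ Sym p B)
    {e : Fˣ → Fˣ → ZMod p} (he : e ∈ Sym p (pwG F p ⊔ ⨆ B ∈ s, perp p B))
    (h0 : ∑ B ∈ s, d B + e = 0) : e = 0 ∧ ∀ B ∈ s, d B = 0 := by
  classical
  have hp : p.Prime := Fact.out
  have hd0 : ∀ B ∈ s, d B = 0 := by
    intro B hB
    obtain ⟨O, hO, hOB⟩ := (hs B).1 hB
    have htop : B ⊔ perp p B = ⊤ := by
      rw [← hOB]
      exact sup_perp hp hζ hfin hO.tight
    let S : Subgroup Fˣ :=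
      { carrier := {x | ∀ y, d B x y = 0}
        mul_mem' := fun {x x'} hx hx' y => by rw [(hd B hB).1, hx, hx', add_zero]
        one_mem' := fun y => (Sym.isSymbol (hd B hB)).one_left y
        inv_mem' := fun {x} hx y => by rw [(Sym.isSymbol (hd B hB)).inv_left, hx, neg_zero] }
    have hS : B ⊔ perp p B ≤ S := by
      refine sup_le (fun x hx y => Sym.van (hd B hB) hx y) (fun x hx y => ?_)
      have h1 := congrArg (fun f : Fˣ → Fˣ → ZMod p => f x y) h0
      rw [← Finset.add_sum_erase s d hB] at h1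
      change d B x y + (∑ B' ∈ s.erase B, d B') x y + e x y = 0 at h1
      have h2 : e x y = 0 := Sym.van he (Subgroup.mem_sup_right
        (Subgroup.mem_iSup_of_mem B (Subgroup.mem_iSup_of_mem hB hx))) y
      have h3 : (∑ B' ∈ s.erase B, d B') x y = 0 := by
        rw [Finset.sum_apply, Finset.sum_apply]
        refine Finset.sum_eq_zero fun B' hB' => ?_
        have hB's := Finset.mem_of_mem_erase hB'
        exact Sym.of_BB hp2 hζ ((hs B').1 hB's) ((hs B).1 hB) (Finset.ne_of_mem_erase hB')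
          (hd B' hB's) hx y
      rw [h2, h3, add_zero, add_zero] at h1
      exact h1
    funext x y
    exact hS (by rw [htop]; trivial : x ∈ B ⊔ perp p B) y
  refine ⟨?_, hd0⟩
  rw [Finset.sum_eq_zero hd0, zero_add] at h0
  exact h0

/-- **The remainder has no valuation rings.** -/
theorem rest_not_adm (hp : p.Prime) {ζ : F} (hζ : IsPrimitiveRoot ζ p)
    (hfin : (pwG F p).index ≠ 0) {T : Subgroup Fˣ} (hpT : pwG F p ≤ T)
    (hT : ∀ B ∈ BB F p, perp p B ≤ T) (O : ValuationSubring F) : ¬ Adm p T O := by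
  intro hO
  have hadm : Adm p (pwG F p) O := ⟨hO.inv_mem, fun h => hO.ne_top (by
    rw [eq_top_iff, ← h]
    exact sup_le_sup_left hpT _)⟩
  obtain ⟨O₁, hle, hmini⟩ := exists_mini hfin hadm
  have htop := sup_perp hp hζ hfin hmini.tight
  apply hO.ne_top
  rw [eq_top_iff, ← htop]
  refine sup_le ((hle.trans near_le_units).trans (sup_le_sup_left hpT _)) ?_
  exact (hT _ ⟨O₁, hmini, rfl⟩).trans le_sup_right

/-- the number of the symbols of the remainder -/
theorem rest_card [Fact p.Prime] (hp2 : p ≠ 2) {ζ : F} (hζ : IsPrimitiveRoot ζ p)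
    (hfin : (pwG F p).index ≠ 0) {T : Subgroup Fˣ} (hpT : pwG F p ≤ T)
    (hno : ∀ O : ValuationSubring F, ¬ Adm p T O) {m : ℕ} (hm : T.index = p ^ m) :
    Nat.card (Sym p T) ≤ p ^ bnd 2 m := by
  have hp : p.Prime := Fact.out
  by_cases h2 : 2 ≤ m
  · refine few_bnd hp2 ⟨ζ, hζ⟩ hfin hpT le_rfl h2 (fun T' hT' hg => ?_) hm
    obtain ⟨O', hO', -⟩ := hg.adm hT'
    exact absurd hO' (hno O')
  · refine (card_Sym_triv hp2 m T hpT hm).trans ?_
    have h3 : m * (m - 1) / 2 = 0 := by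
      have : m = 0 ∨ m = 1 := by omega
      rcases this with rfl | rfl <;> rfl
    rw [h3, pow_zero]
    exact Nat.one_le_pow _ _ hp.pos

end

end Pool.Agent.V7H55.ET
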