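import Mathlib
import Pool.Agent.V7H55.ET.Clo
import Pool.Agent.V7H55.ET.Gal

set_option autoImplicit false

/-!
# Decomposition groups in the maximal pro-`p` Galois group
-/

open IntermediateField

namespace Pool.Agent.V7H55.ET

open Pool.Agent.Y469.EP (Tw)
open Pool.Agent.Y920.EP (Pw)
open Pool.Agent.Results.MP_600e55_nt.SymbolPartitions (powers IsMaximalPExtension
  IsDecompositionGroup ConclusionOfQ1)

section dec

variable {F K : Type} [Field F] [Field K] [Algebra F K]

/-- the stabiliser of `W` -/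
def Dg (F : Type) {K : Type} [Field F] [Field K] [Algebra F K] (W : ValuationSubring K) :
    Subgroup (K ≃ₐ[F] K) where
  carrier := {σ | ∀ x, σ x ∈ W ↔ x ∈ W}
  mul_mem' := fun {σ τ} hσ hτ x => by rw [AlgEquiv.mul_apply, hσ, hτ]
  one_mem' := fun x => Iff.rfl
  inv_mem' := fun {σ} hσ x => by
    have := hσ (σ⁻¹ x)
    rw [← AlgEquiv.mul_apply, mul_inv_cancel, AlgEquiv.one_apply] at this
    exact this.symm

variable {W : ValuationSubring K}

lemma mem_Dg {σ : K ≃ₐ[F] K} : σ ∈ Dg F W ↔ ∀ x, σ x ∈ W ↔ x ∈ W := Iff.rfl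

lemma Dg_val {σ : K ≃ₐ[F] K} (hσ : σ ∈ Dg F W) {x : K} (hx : W.valuation x < 1) :
    W.valuation (σ x) < 1 := by
  rw [lt_one_iff_inv] at hx ⊢
  rcases hx with rfl | h
  · left
    exact map_zero _
  · right
    rw [← map_inv₀, mem_Dg.1 hσ]
    exact h

lemma isClosed_Dg [Algebra.IsIntegral F K] : IsClosed (Dg F W : Set (K ≃ₐ[F] K)) := by
  rw [← isOpen_compl_iff, isOpen_iff_forall_mem_open]
  intro σ hσ
  have h1 : ∃ x, ¬ (σ x ∈ W ↔ x ∈ W) := by
    by_contra hc
    push Not at hc
    exact hσ hc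
  obtain ⟨x, hx⟩ := h1
  have hfd : FiniteDimensional F F⟮x⟯ :=
    IntermediateField.adjoin.finiteDimensional (Algebra.IsIntegral.isIntegral x)
  refine ⟨(fun τ => σ⁻¹ * τ) ⁻¹' (F⟮x⟯.fixingSubgroup : Set (K ≃ₐ[F] K)), ?_, ?_, ?_⟩
  · intro τ hτ hτD
    rw [Set.mem_preimage, SetLike.mem_coe, IntermediateField.mem_fixingSubgroup_iff] at hτ
    have h2 := hτ x (IntermediateField.mem_adjoin_simple_self F x)
    have h3 : τ x = σ x := by
      have := congrArg σ h2
      rwa [AlgEquiv.mul_apply, ← AlgEquiv.mul_apply σ, mul_inv_cancel, AlgEquiv.one_apply] at this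
    apply hx
    rw [← h3]
    exact hτD x
  · exact (IntermediateField.fixingSubgroup_isOpen F⟮x⟯).preimage (continuous_const_mul _)
  · rw [Set.mem_preimage, inv_mul_cancel]
    exact one_mem _

/-- **The fixed field of the decomposition group.** -/
theorem dec_main {p : ℕ} (hp : p.Prime) (hp2 : p ≠ 2) {ζ : F} (hζ : IsPrimitiveRoot ζ p)
    [IsGalois F K] (hL : ∀ x : K, ∃ L : IntermediateField F K, x ∈ L ∧ Tw p L)
    (hcl : ∀ a : K, ∃ y : K, y ^ p = a) (hpW : W.valuation (p : K) = 1) :
    Imm W (fixedField (Dg F W)) ∧ ∀ y ∈ fixedField (Dg F W), W.valuation (y - 1) < 1 →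
      ∃ β ∈ fixedField (Dg F W), β ^ p = y := by
  obtain ⟨E₀, himm, hroot⟩ := exists_E (W := W) hp hζ hcl hpW
  have hp0 : (p : K) ≠ 0 := by
    intro h
    rw [h, map_zero] at hpW
    exact zero_ne_one hpW
  have hζE : IsPrimitiveRoot (algebraMap F E₀ ζ) p :=
    hζ.map_of_injective (algebraMap F E₀).injective
  have hζK : IsPrimitiveRoot (algebraMap F K ζ) p :=
    hζ.map_of_injective (algebraMap F K).injective
  -- the ring of `E₀`
  set O₀ : ValuationSubring E₀ := W.comap (algebraMap E₀ K) with hO₀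
  have hPw : Pw p O₀ := by
    refine ⟨?_, ?_, ?_⟩
    · rw [hO₀, ValuationSubring.mem_comap, map_inv₀, map_natCast, ← W.valuation_le_one_iff,
        map_inv₀, hpW, inv_one]
    · intro h
      apply hp0
      have := congrArg (algebraMap E₀ K) h
      rwa [map_natCast, map_zero] at this
    · intro x hx hx'
      have h1 : O₀.valuation x < 1 := lt_one_iff_inv.2 (Or.inr hx')
      have h2 := val_comap.1 h1
      obtain ⟨β, hβ, hβp⟩ := hroot (1 + (x : K)) (add_mem E₀.one_mem x.2) (by
        rw [add_sub_cancel_left]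
        exact h2)
      exact ⟨⟨β, hβ⟩, Subtype.ext hβp⟩
  have hfix : E₀.fixingSubgroup ≤ Dg F W := by
    intro τ hτ x
    obtain ⟨M, hxM, hfd, hgal, k, hk⟩ := comp hp hL E₀ x
    have := hfd
    have := hgal
    rw [IntermediateField.mem_fixingSubgroup_iff] at hτ
    have h1 : (W.comap (algebraMap M K)).comap (algebraMap E₀ M) = O₀ := by
      rw [hO₀, ValuationSubring.comap_comap]
      rfl
    have h2 : ((W.comap (τ : K →+* K)).comap (algebraMap M K)).comap (algebraMap E₀ M) = O₀ := by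
      ext e
      simp only [hO₀, ValuationSubring.mem_comap]
      have h3 : (τ : K →+* K) (algebraMap M K (algebraMap E₀ M e)) = algebraMap E₀ K e :=
        hτ (e : K) e.2
      rw [h3]
    have h4 := Pool.Agent.Y925.EP.t_TOWER' Pool.Agent.Y86.EP.t_KUM Pool.Agent.Y279.EP.t_UP p hp hp2
      k E₀ M ⟨_, hζE⟩ hk O₀ hPw _ _ h1 h2
    have h5 : (⟨x, hxM⟩ : M) ∈ W.comap (algebraMap M K) ↔
        (⟨x, hxM⟩ : M) ∈ (W.comap (τ : K →+* K)).comap (algebraMap M K) := by rw [← h4]
    rw [ValuationSubring.mem_comap, ValuationSubring.mem_comap, ValuationSubring.mem_comap] at h5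
    exact h5.symm
  have hle : fixedField (Dg F W) ≤ E₀ := by
    have h1 : fixedField (Dg F W) ≤ fixedField E₀.fixingSubgroup :=
      IntermediateField.fixedField_antitone hfix
    rwa [InfiniteGalois.fixedField_fixingSubgroup] at h1
  refine ⟨fun x hx => himm x (hle hx), ?_⟩
  intro y hy hy1
  obtain ⟨β₀, hβ₀, hβp⟩ := hroot y (hle hy) hy1
  obtain ⟨i, hi⟩ := exists_root_near (W := W) hp hζK (α := β₀) (by rw [hβp]; exact hy1)
  set β : K := algebraMap F K ζ ^ i * β₀ with hβ
  have hβp' : β ^ p = y := by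
    rw [hβ, mul_pow, ← pow_mul, mul_comm i p, pow_mul, hζK.pow_eq_one, one_pow, one_mul, hβp]
  have hβ0 := ne_zero_of hi
  refine ⟨β, ?_, hβp'⟩
  rw [IntermediateField.mem_fixedField_iff]
  intro σ hσ
  have h1 : W.valuation (σ β - 1) < 1 := by
    have := Dg_val hσ hi
    rwa [map_sub, map_one] at this
  have h2 : (σ β * β⁻¹) ^ p = 1 := by
    rw [mul_pow, ← map_pow, hβp', (IntermediateField.mem_fixedField_iff _ _).1 hy σ hσ, inv_pow,
      hβp', mul_inv_cancel₀]
    exact ne_zero_of hy1
  have h3 := root_one hpW h2 (near_mul h1 (near_inv hi))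
  rw [mul_inv_eq_one₀ hβ0] at h3
  exact h3

/-- `p`-th powers of the fixed field -/
lemma pow_iff {p : ℕ} {E : IntermediateField F K}
    (himm : Imm W E) (hroot : ∀ y ∈ E, W.valuation (y - 1) < 1 → ∃ β ∈ E, β ^ p = y) (f : Fˣ) :
    (∃ β ∈ E, β ^ p = algebraMap F K f) ↔
      ∃ u g : Fˣ, W.valuation (algebraMap F K u - 1) < 1 ∧ f = u * g ^ p := by
  constructor
  · rintro ⟨β, hβ, hβp⟩
    have hf0 : algebraMap F K f ≠ 0 := (map_ne_zero _).2 f.ne_zero
    have hβ0 : β ≠ 0 ∨ p = 0 := by
      by_contra hc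
      push Not at hc
      rw [hc.1, zero_pow hc.2] at hβp
      exact hf0 hβp.symm
    rcases hβ0 with hβ0 | rfl
    · obtain ⟨g, hg0, hg⟩ := himm β hβ hβ0
      refine ⟨f * ((Units.mk0 g hg0) ^ p)⁻¹, Units.mk0 g hg0, ?_, by rw [inv_mul_cancel_right]⟩
      have h1 := near_pow hg p
      have e : algebraMap F K ((f * ((Units.mk0 g hg0) ^ p)⁻¹ : Fˣ) : F) =
          (β / algebraMap F K g) ^ p := by
        rw [div_pow, hβp, Units.val_mul, Units.val_inv_eq_inv_val, Units.val_pow_eq_pow_val,
          Units.val_mk0, map_mul, map_inv₀, map_pow, div_eq_mul_inv]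
      rw [e]
      exact h1
    · rw [pow_zero] at hβp
      refine ⟨f, 1, ?_, by rw [pow_zero, mul_one]⟩
      rw [← hβp, sub_self, map_zero]
      exact zero_lt_one
  · rintro ⟨u, g, hu, rfl⟩
    obtain ⟨β, hβ, hβp⟩ := hroot (algebraMap F K u) (E.algebraMap_mem _) hu
    refine ⟨β * algebraMap F K g, mul_mem hβ (E.algebraMap_mem _), ?_⟩
    rw [mul_pow, hβp, Units.val_mul, Units.val_pow_eq_pow_val, map_mul, map_pow]

end dec

/-- **The decomposition group.** -/
theorem dec_group {p : ℕ} [Fact p.Prime] (hp2 : p ≠ 2) {F : Type} [Field F]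
    (hζ : ∃ ζ : F, IsPrimitiveRoot ζ p) {O : ValuationSubring F} (hpO : (p : F)⁻¹ ∈ O)
    (hne : O.unitGroup ⊔ powers F p ≠ ⊤) (K : IntermediateField F (AlgebraicClosure F))
    (hK : IsMaximalPExtension p K) :
    ∃ W : ValuationSubring K, IsClosed (Dg F W : Set (↥K ≃ₐ[F] ↥K)) ∧
      IsDecompositionGroup (Dg F W) ∧ Imm W (fixedField (Dg F W)) ∧
      (∀ y ∈ fixedField (Dg F W), W.valuation (y - 1) < 1 →
        ∃ β ∈ fixedField (Dg F W), β ^ p = y) ∧
      ∀ f : Fˣ, f ∈ near O (powers F p) ↔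
        ∃ u g : Fˣ, W.valuation (algebraMap F K u - 1) < 1 ∧ f = u * g ^ p := by
  have hp : p.Prime := Fact.out
  obtain ⟨hgal, hL, -⟩ := Pool.Agent.Y469.EP.t_MAX' p hp F hζ K hK
  obtain ⟨ζ, hζ⟩ := hζ
  have hcl := closed_root hp hζ K hK
  have hpF : (p : F) ≠ 0 := by
    have : NeZero p := ⟨hp.ne_zero⟩
    exact hζ.neZero'.ne
  obtain ⟨W, hW⟩ := Pool.Agent.Y620.ET.t_EXTV F K O
  have hpW : W.valuation (p : K) = 1 := by
    have h1 : (p : K) ∈ W := natCast_mem W p
    have h2 : (p : K)⁻¹ ∈ W := by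
      rw [← hW, ValuationSubring.mem_comap, map_inv₀, map_natCast] at hpO
      exact hpO
    refine le_antisymm ((W.valuation_le_one_iff _).2 h1) ?_
    have h3 := (W.valuation_le_one_iff _).2 h2
    rw [map_inv₀] at h3
    have hp0' : (p : K) ≠ 0 := by
      intro h
      apply hpF
      apply (algebraMap F K).injective
      rwa [map_natCast, map_zero]
    exact (inv_le_one₀ (zero_lt_iff.2 ((Valuation.ne_zero_iff _).2 hp0'))).1 h3
  obtain ⟨himm, hroot⟩ := dec_main (W := W) hp hp2 hζ hL hcl hpW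
  have hclosed : IsClosed (Dg F W : Set (↥K ≃ₐ[F] ↥K)) := isClosed_Dg
  have hval : ∀ u : F, W.valuation (algebraMap F K u - 1) < 1 ↔ O.valuation (u - 1) < 1 := by
    intro u
    rw [← hW, val_comap, RingHom.map_sub, RingHom.map_one]
  refine ⟨W, hclosed, ?_, himm, hroot, ?_⟩
  · -- inertia
    set E := fixedField (Dg F W) with hE
    obtain ⟨c, hc⟩ : ∃ c : Fˣ, c ∉ O.unitGroup ⊔ powers F p := by
      by_contra hc
      push Not at hc
      exact hne (eq_top_iff.2 fun c _ => hc c)
    obtain ⟨y, hy⟩ := hcl (algebraMap F K c)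
    have hfixE : E.fixingSubgroup = Dg F W :=
      InfiniteGalois.fixingSubgroup_fixedField ⟨Dg F W, hclosed⟩
    have hres : ∀ σ : ↥K ≃ₐ[E] ↥K, σ.restrictScalars F ∈ Dg F W := by
      intro σ
      rw [← hfixE, IntermediateField.mem_fixingSubgroup_iff]
      intro x hx
      exact σ.commutes ⟨x, hx⟩
    have hζE : IsPrimitiveRoot (algebraMap F E ζ) p :=
      hζ.map_of_injective (algebraMap F E).injective
    obtain ⟨σ, hσ1, hσ⟩ := Pool.Agent.Y419.EP.t_INERT' p hp E K ⟨_, hζE⟩ W
      (fun σ x => hres σ x) (algebraMap F E c) y (by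
        rw [Ne, map_eq_zero]
        exact c.ne_zero) (by
        rw [hy]
        rfl) (by
        intro f hf h3 h4
        apply hc
        obtain ⟨g, hg0, hg⟩ := himm (f : K) f.2 (fun h => hf (Subtype.ext h))
        have h5 : W.valuation (algebraMap F K (c * g ^ p)) = 1 := by
          have h6 : W.valuation (algebraMap E K (algebraMap F E c * f ^ p)) = 1 := by
            refine le_antisymm ((W.valuation_le_one_iff _).2 h3) ?_
            have h7 := (W.valuation_le_one_iff _).2 h4
            rw [map_inv₀, map_inv₀] at h7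
            refine (inv_le_one₀ (zero_lt_iff.2 ((Valuation.ne_zero_iff _).2 ?_))).1 h7
            refine (map_ne_zero _).2 (mul_ne_zero ((map_ne_zero _).2 c.ne_zero) (pow_ne_zero _ hf))
          have h8 : W.valuation (f : K) = W.valuation (algebraMap F K g) := by
            have h9 := val_one_of hg
            rw [map_div₀] at h9
            exact (div_eq_one_iff_eq ((Valuation.ne_zero_iff _).2 ((map_ne_zero _).2 hg0))).1 h9
          rw [map_mul, map_pow] at h6
          have h10 : W.valuation (algebraMap E K (algebraMap F E c)) *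
            W.valuation (f : K) ^ p = 1 := by
            rw [map_mul, map_pow] at h6
            exact h6
          rw [map_mul, map_pow, map_mul, map_pow, ← h8]
          exact h10
        have h11 : c * (Units.mk0 g hg0) ^ p ∈ O.unitGroup := by
          rw [ValuationSubring.mem_unitGroup_iff, Units.val_mul, Units.val_pow_eq_pow_val,
            Units.val_mk0]
          have h12 : algebraMap F K (c * g ^ p) ∈ W := (W.valuation_le_one_iff _).1 h5.le
          have h13 : algebraMap F K (c * g ^ p)⁻¹ ∈ W := by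
            rw [map_inv₀, ← W.valuation_le_one_iff, map_inv₀, h5, inv_one]
          have h14 : (c : F) * g ^ p ∈ O := by rw [← hW, ValuationSubring.mem_comap]; exact h12
          have h15 : ((c : F) * g ^ p)⁻¹ ∈ O := by rw [← hW, ValuationSubring.mem_comap]; exact h13
          refine le_antisymm ((O.valuation_le_one_iff _).2 h14) ?_
          have h16 := (O.valuation_le_one_iff _).2 h15
          rw [map_inv₀] at h16
          exact (inv_le_one₀ (zero_lt_iff.2 ((Valuation.ne_zero_iff _).2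
            (mul_ne_zero c.ne_zero (pow_ne_zero _ hg0))))).1 h16
        have h17 : (Units.mk0 g hg0) ^ p ∈ powers F p := ⟨_, rfl⟩
        have h18 := mul_mem (Subgroup.mem_sup_left h11 : _ ∈ O.unitGroup ⊔ powers F p)
          (inv_mem (Subgroup.mem_sup_right h17 : _ ∈ O.unitGroup ⊔ powers F p))
        rwa [mul_inv_cancel_right] at h18)
    refine ⟨W.ValueGroup, inferInstance, W.valuation, ?_, σ.restrictScalars F, hres σ, ?_, ?_⟩
    · intro τ
      rw [mem_Dg]
      refine forall_congr' fun x => ?_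
      rw [ValuationSubring.valuation_le_one_iff, ValuationSubring.valuation_le_one_iff]
    · intro h
      apply hσ1
      ext x
      have := congrArg (fun τ : ↥K ≃ₐ[F] ↥K => ((τ x : ↥K) : AlgebraicClosure F)) h
      exact this
    · intro x hx
      exact hσ x ((ValuationSubring.valuation_le_one_iff _ _).1 hx)
  · intro f
    constructor
    · intro hf
      obtain ⟨u, hu, w, ⟨g, rfl⟩, rfl⟩ := Subgroup.mem_sup.1 hf
      rw [ValuationSubring.mem_principalUnitGroup_iff] at hu
      exact ⟨u, g, (hval _).2 hu, rfl⟩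
    · rintro ⟨u, g, hu, rfl⟩
      refine Subgroup.mul_mem_sup ?_ ⟨g, rfl⟩
      rw [ValuationSubring.mem_principalUnitGroup_iff]
      exact (hval _).1 hu

end Pool.Agent.V7H55.ET
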