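import Mathlib
import Pool.Agent.V7H55.ET.Main
import Pool.Agent.Results.MP_600e55_nt.SymbolPartitions
import Pool.Agent.V7H55.ET.Res

set_option autoImplicit false

/-! # MP_600e55_nt: fields with many Steinberg symbols, `p` odd

Let `F` contain a primitive `p`-th root of unity, `p` odd, `F*/F*^p` finite, and let `T` be a subgroup
of `F*` which contains `F*^p`, of index `p^n`. Let `p^s` be the number of the Steinberg symbols
`F* × F* → ℤ/p` which vanish on `T × F*` (for `T = F*^p`: of all Steinberg symbols; they form the dual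
of `K_2(F)/p`, that is of `H²(G_F(p))`). (Always `s ≤ n(n-1)/2`; not part of the theorem.)

Call a valuation ring `O` admissible if `p ∈ O*` and `O* T ≠ F*`, and define `t = t(O)` by
`[F* : (1 + m) T] = p^(n-t)`.

1. If `O` is admissible and `t` is as small as possible, the symbols vanish on `(1 + m) T` up to a
   factor `p^(t(t-1)/2)`, and `t (n - t) ≤ n(n-1)/2 - s`.
2. There is an admissible `O` with `t ≤ n - k` if `s` is larger than
   `(k-1)(k-2)/2 + ∑_{m=k}^n min(m - 3, ⌊4m/5⌋ + 1)`. For `k = 2` this is at most `(n-2)(n-3)/2`.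
3. So, if `s > (n-2)(n-3)/2 + 1`, there is an admissible `O` with `t ≤ 1`, and all symbols vanish on
   `(1 + m) T`. If `s ≥ 5n²/12`, there is an admissible `O` with `t ≤ n/2` and
   `t (n - t) ≤ n(n-1)/2 - s`.
4. Galois groups: for `T = F*^p` and every admissible `O` there is a closed subgroup `D` of `G_F(p)`, of
   type (ii) of Q1, with fixed field `E`, such that `F*/F*^p → E*/E*^p` is onto with kernel
   `(1 + m) F*^p / F*^p`, that is `H¹(G_F(p)) → H¹(D)` is onto with kernel of order `p^t`, and such that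
   restriction maps the Steinberg symbols of `E` onto those of `F` which vanish on `1 + m`. So, for the
   best `O`, `K_2(F)/p → K_2(E)/p` is onto with kernel of order at most `p^(t(t-1)/2)`; in the first
   case of 3 it is an isomorphism. (The theorem of Merkurjev and Suslin, which is not used here, would
   then give `G_F(p) = D` or `G_F(p) = D *_p ℤ_p`.)
5. Suppose that for every `a ∉ T` the annihilator `N(a)` has index at least `p^e`, and that
   `n(n-1)/2 - s < (e+1)(n-e-1)`, `2(e+1) ≤ n`, and `e ≤ 1` or `s ≥ 5n²/12`. Then `1 + m ⊆ T` for an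
   admissible `O`; if `T = F*^p`, the maximal pro-`p` Galois group is the decomposition group of a
   valuation with nontrivial inertia, and the conclusion of Q1 holds. (The bound is sharp for every
   `e`: free pro-`p` products of `ℤ_p^(e+1)` and `ℤ_p^(n-e-1)` have
   `n(n-1)/2 - s = (e+1)(n-e-1)`.)

Outline. If `T₀` is a subgroup such that no valuation ring with `p ∈ O*`, `O* T₀ ≠ F*` has
`1 + m ⊆ T₀`, and `T' ⊇ T₀` is one for which `O` is such a ring, then the elements `z ∈ m` with
`1 + zO ⊄ T₀` represent all classes modulo `T₀` (otherwise a localisation of `O` would be a ring for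
`T₀`); they are closed under multiplication as `1 + z²O ⊆ T₀` implies `1 + zO ⊆ T₀`. So some
`a ∈ T' \ T₀` is so close to `1` that the elements `1 - a c^p` represent all classes modulo `T'`.
Hence the annihilator `N(a)` of `a` has index at most `p^(j-1)`, where `p^j = [T' : T₀]`, and one passes
to `T₀⟨a⟩`; for `T₀ = T` this gives 5. Existence: if there is no such ring for `T₀`, then some
annihilator is large; this is the theory of the starting files (small norm groups, blocks), used for
`F*/T₀`, together with a coarsening of the valuation ring to one in which `p` is a unit. For 4, a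
maximal field `E` in `F(p)` with `E* = F* (1 + m_E)` has `1 + m_E ⊆ E*^p`; in the step from `E` to
`E(α)`, `α^p ∈ 1 + m`, quotients of elementary symmetric functions of the conjugates are used. -/

namespace Pool.Agent.Results.MP_600e55_nt.ManySymbolsValuationsH55

open Pool.Agent.Results.MP_600e55_nt.SymbolPartitions (powers IsMaximalPExtension
  IsDecompositionGroup ConclusionOfQ1)
open Pool.Agent.V7H55.ET (Sym)

/-- the Steinberg symbols on `F` with values in `ℤ/p` which vanish on `T × F*`: the bimultiplicative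
functions `c` with `c(x,y) = 0` if `x + y = 1` and `c(x,y) = 0` if `x ∈ T` -/
def symbols (p : ℕ) {F : Type} [Field F] (T : Subgroup Fˣ) : Set (Fˣ → Fˣ → ZMod p) :=
  {c | (∀ a b x : Fˣ, c (a * b) x = c a x + c b x) ∧
    (∀ x a b : Fˣ, c x (a * b) = c x a + c x b) ∧ (∀ x y : Fˣ, (x : F) + y = 1 → c x y = 0) ∧
    ∀ x ∈ T, ∀ y, c x y = 0}

/-- `p` is a unit of `O` and `O* T ≠ F*` -/
structure IsAdmissible (p : ℕ) {F : Type} [Field F] (T : Subgroup Fˣ) (O : ValuationSubring F) :
    Prop where
  inv_mem : (p : F)⁻¹ ∈ O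
  ne_top : O.unitGroup ⊔ T ≠ ⊤

/-- the group `(1 + m) T`, `m` the maximal ideal of `O` -/
def near {F : Type} [Field F] (O : ValuationSubring F) (T : Subgroup Fˣ) : Subgroup Fˣ :=
  O.principalUnitGroup ⊔ T

/-- `(1 + m) T` has the largest index among all admissible valuation rings -/
def IsBest (p : ℕ) {F : Type} [Field F] (T : Subgroup Fˣ) (O : ValuationSubring F) : Prop :=
  IsAdmissible p T O ∧
    ∀ O' : ValuationSubring F, IsAdmissible p T O' → (near O' T).index ≤ (near O T).index

/-- the restriction to `F` of a function of two variables on the intermediate field `E` -/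
def restriction {p : ℕ} {F K : Type} [Field F] [Field K] [Algebra F K] (E : IntermediateField F K)
    (c : (↥E)ˣ → (↥E)ˣ → ZMod p) : Fˣ → Fˣ → ZMod p :=
  fun x y => c (Units.map (algebraMap F E : F →* E) x) (Units.map (algebraMap F E : F →* E) y)

lemma card_symbols (p : ℕ) {F : Type} [Field F] (T : Subgroup Fˣ) :
    (symbols p T).ncard = Nat.card (Sym p T) := by
  rw [← Nat.card_coe_set_eq]
  rfl

theorem result (p : ℕ) [Fact p.Prime] (hp2 : p ≠ 2) (F : Type) [Field F]
    (hζ : ∃ ζ : F, IsPrimitiveRoot ζ p) (hfin : (powers F p).index ≠ 0)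
    (T : Subgroup Fˣ) (hT : powers F p ≤ T) (n s : ℕ) (hn : T.index = p ^ n)
    (hs : (symbols p T).ncard = p ^ s) :
    -- the bound for the best admissible valuation ring
    (∀ O : ValuationSubring F, IsBest p T O → ∀ t ≤ n, (near O T).index = p ^ (n - t) →
      (symbols p T).ncard ≤ p ^ (t * (t - 1) / 2) * (symbols p (near O T)).ncard ∧
      s + t * (n - t) ≤ n * (n - 1) / 2) ∧
    -- existence
    (∀ k, 2 ≤ k → k ≤ n →
      (k - 1) * (k - 2) / 2 + ∑ m ∈ Finset.Icc k n, min (m - 3) (4 * m / 5 + 1) < s →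
      ∃ O : ValuationSubring F, IsBest p T O ∧ p ^ k ≤ (near O T).index) ∧
    -- more than `(n-2)(n-3)/2 + 1` symbols
    ((n - 2) * (n - 3) / 2 + 1 < s →
      ∃ O : ValuationSubring F, IsBest p T O ∧ p ^ (n - 1) ≤ (near O T).index ∧
        symbols p T = symbols p (near O T)) ∧
    -- at least `5n²/12` symbols
    (1 ≤ s → 5 * n ^ 2 ≤ 12 * s →
      ∃ (O : ValuationSubring F) (t : ℕ), IsBest p T O ∧ 2 * t ≤ n ∧
        (near O T).index = p ^ (n - t)) ∧
    -- the decomposition group `D` and its fixed field `E`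
    (T = powers F p → ∀ O : ValuationSubring F, IsAdmissible p T O →
      ∀ K : IntermediateField F (AlgebraicClosure F), IsMaximalPExtension p K →
      ∃ D : Subgroup (↥K ≃ₐ[F] ↥K), IsClosed (D : Set (↥K ≃ₐ[F] ↥K)) ∧ IsDecompositionGroup D ∧
        ∃ E : IntermediateField F K, E = IntermediateField.fixedField D ∧
          (Units.map (algebraMap F E : F →* E)).range ⊔ powers E p = ⊤ ∧
          (powers E p).comap (Units.map (algebraMap F E : F →* E)) = near O T ∧
          Set.BijOn (restriction E) (symbols p (powers E p)) (symbols p (near O T))) ∧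
    -- annihilators `N = N(a)` of index at least `p^e`
    ∀ e : ℕ, 2 * (e + 1) ≤ n → n * (n - 1) / 2 < s + (e + 1) * (n - (e + 1)) →
      e ≤ 1 ∨ 5 * n ^ 2 ≤ 12 * s → (∀ a : Fˣ, a ∉ T → ∀ N : Subgroup Fˣ,
        (∀ b : Fˣ, b ∈ N ↔ ∀ c ∈ symbols p T, c a b = 0) → p ^ e ≤ N.index) →
      (∃ O : ValuationSubring F, IsAdmissible p T O ∧ O.principalUnitGroup ≤ T) ∧
      (T = powers F p → ∀ K : IntermediateField F (AlgebraicClosure F), IsMaximalPExtension p K →
        IsDecompositionGroup (⊤ : Subgroup (↥K ≃ₐ[F] ↥K)) ∧ ConclusionOfQ1 p K) := by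
  have hp : p.Prime := Fact.out
  have hp0 : (p : F) ≠ 0 := by
    obtain ⟨ζ, hζ⟩ := hζ
    have : NeZero p := ⟨hp.ne_zero⟩
    exact hζ.neZero'.ne
  have hadm : ∀ O : ValuationSubring F, IsAdmissible p T O ↔ Pool.Agent.V7H55.ET.Adm p T O :=
    fun O => ⟨fun h => ⟨h.1, h.2⟩, fun h => ⟨h.1, h.2⟩⟩
  have hs' : p ^ s ≤ Nat.card (Sym p T) := by rw [← card_symbols, hs]
  have hfinT : T.index ≠ 0 := by rw [hn]; exact (pow_pos hp.pos _).ne'
  have hdiv : ∀ O : ValuationSubring F, (near O T).index ∣ T.index := fun O =>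
    Subgroup.index_dvd_of_le le_sup_right
  have hbound : ∀ O : ValuationSubring F, IsBest p T O → ∀ t ≤ n,
      (near O T).index = p ^ (n - t) →
      (symbols p T).ncard ≤ p ^ (t * (t - 1) / 2) * (symbols p (near O T)).ncard ∧
      s + t * (n - t) ≤ n * (n - 1) / 2 := by
    intro O hO t ht hidx
    have hmax : ∀ O' : ValuationSubring F, Pool.Agent.V7H55.ET.Adm p T O' →
        (Pool.Agent.V7H55.ET.near O' T).index ≤ (Pool.Agent.V7H55.ET.near O T).index :=
      fun O' hO' => hO.2 O' ((hadm O').2 hO')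
    refine ⟨?_, Pool.Agent.V7H55.ET.bound_num hp2 hp0 hT ((hadm O).1 hO.1) hmax ht hn hidx hs'⟩
    rw [card_symbols, card_symbols]
    exact Pool.Agent.V7H55.ET.bound hp2 hp0 hT ((hadm O).1 hO.1) hmax ht hn hidx
  have htriv : s ≤ n * (n - 1) / 2 := by
    have h1 := Pool.Agent.V7H55.ET.card_Sym_triv hp2 n T hT hn
    exact (Nat.pow_le_pow_iff_right hp.one_lt).1 (hs'.trans h1)
  -- existence, with the smallest `t`
  have hex : ∀ k, 2 ≤ k → k ≤ n → Pool.Agent.V7H55.ET.bnd k n < s →
      ∃ (O : ValuationSubring F) (t : ℕ), IsBest p T O ∧ t + k ≤ n ∧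
        (near O T).index = p ^ (n - t) := by
    intro k hk hkn hb
    obtain ⟨O, t, h1, h2, h3, h4⟩ := Pool.Agent.V7H55.ET.exists_max hn
      (Pool.Agent.V7H55.ET.exists_val hp2 hζ hfin hT hk hkn hn hs' hb)
    exact ⟨O, t, ⟨(hadm O).2 h1, fun O' hO' => h2 O' ((hadm O').1 hO')⟩, h3, h4⟩
  -- a subgroup of the same index
  have heq : ∀ O : ValuationSubring F, (near O T).index = T.index → near O T = T := by
    intro O hO
    have h1 : T.relIndex (near O T) * (near O T).index = T.index :=
      Subgroup.relIndex_mul_index le_sup_right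
    rw [hO] at h1
    have h2 : T.relIndex (near O T) = 1 :=
      Nat.eq_of_mul_eq_mul_right (Nat.pos_of_ne_zero hfinT) (by rw [h1, one_mul])
    exact le_antisymm (Subgroup.relIndex_eq_one.1 h2) le_sup_right
  have hhalf : 1 ≤ s → 5 * n ^ 2 ≤ 12 * s →
      ∃ (O : ValuationSubring F) (t : ℕ), IsBest p T O ∧ 2 * t ≤ n ∧
        (near O T).index = p ^ (n - t) := by
    intro h1 h5
    obtain ⟨k, hk, hkn, hb, hlt⟩ := Pool.Agent.V7H55.ET.exists_k h5 (by
      have := Nat.div_mul_le_self (n * (n - 1)) 2
      omega) h1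
    obtain ⟨O, t, hO, ht, hidx⟩ := hex k hk (by omega) hb
    refine ⟨O, t, hO, ?_, hidx⟩
    have h2 := (hbound O hO t (by omega) hidx).2
    have h3 : t * (n - t) < k * (n - k) := by omega
    by_contra hc
    rw [not_le] at hc
    obtain ⟨j, rfl⟩ : ∃ j, n = t + j := ⟨n - t, by omega⟩
    rw [Nat.add_sub_cancel_left] at h3
    obtain ⟨i, rfl⟩ : ∃ i, j = k + i := ⟨j - k, by omega⟩
    have h4 : t + (k + i) - k = t + i := by omega
    rw [h4] at h3
    nlinarith
  refine ⟨hbound, ?_, ?_, hhalf, ?_, ?_⟩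
  · intro k hk hkn hb
    obtain ⟨O, t, hO, ht, hidx⟩ := hex k hk hkn hb
    refine ⟨O, hO, ?_⟩
    rw [hidx]
    exact Nat.pow_le_pow_right hp.pos (by omega)
  · intro hb
    have hn3 : 3 ≤ n := by
      by_contra hc
      have : n ≤ 2 := by omega
      interval_cases n <;> omega
    obtain ⟨O, t, hO, ht, hidx⟩ := hex 2 le_rfl (by omega)
      ((Pool.Agent.V7H55.ET.bnd_two n (by omega)).trans_lt (by omega))
    have h1 := (hbound O hO t (by omega) hidx).2
    have ht1 : t ≤ 1 := by
      by_contra hc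
      obtain ⟨i, rfl⟩ : ∃ i, t = i + 2 := ⟨t - 2, by omega⟩
      obtain ⟨j, rfl⟩ : ∃ j, n = i + 2 + (2 + j) := ⟨n - (i + 2 + 2), by omega⟩
      have e1 : i + 2 + (2 + j) - (i + 2) = 2 + j := by omega
      have e2 : (i + 2 + (2 + j)) * (i + 2 + (2 + j) - 1) =
          (i + 2 + (2 + j) - 2) * (i + 2 + (2 + j) - 3) + (2 * (i + j) + 5) * 2 := by
        have e3 : i + 2 + (2 + j) - 1 = i + j + 3 := by omega
        have e4 : i + 2 + (2 + j) - 2 = i + j + 2 := by omega
        have e5 : i + 2 + (2 + j) - 3 = i + j + 1 := by omega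
        rw [e3, e4, e5]
        ring
      rw [e1, e2, Nat.add_mul_div_right _ _ two_pos] at h1
      nlinarith
    refine ⟨O, hO, ?_, ?_⟩
    · rw [hidx]
      exact Nat.pow_le_pow_right hp.pos (by omega)
    · have hle : symbols p (near O T) ⊆ symbols p T := by
        rintro c ⟨h1, h2, h3, h4⟩
        exact ⟨h1, h2, h3, fun x hx => h4 x ((le_sup_right : T ≤ near O T) hx)⟩
      have hcard := (hbound O hO t (by omega) hidx).1
      have ht0 : t * (t - 1) / 2 = 0 := by interval_cases t <;> rfl
      rw [ht0, pow_zero, one_mul] at hcard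
      refine (Set.eq_of_subset_of_ncard_le hle hcard ?_).symm
      exact Set.finite_of_ncard_ne_zero (by rw [hs]; exact (pow_pos hp.pos _).ne')
  · rintro rfl O hO K hK
    obtain ⟨D, h1, h2, h3, h4, h5⟩ := Pool.Agent.V7H55.ET.dec_full hp2 hζ hO.inv_mem hO.ne_top K hK
    exact ⟨D, h1, h2, _, rfl, h3, h4, h5⟩
  · intro e he hr hs5 hann
    have hr1 : 1 ≤ n := by omega
    -- the valuation ring
    obtain ⟨O, t, hO, hte, htn, hidx⟩ : ∃ (O : ValuationSubring F) (t : ℕ), IsBest p T O ∧
        (t ≤ n - (e + 1) ∨ t ≤ e) ∧ t ≤ n ∧ (near O T).index = p ^ (n - t) := by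
      rcases hs5 with h1 | h5
      · have hb : (n - 2) * (n - 3) / 2 < s := by
          obtain ⟨j, rfl⟩ : ∃ j, n = 2 * (e + 1) + j := ⟨n - 2 * (e + 1), by omega⟩
          have h2 : e = 0 ∨ e = 1 := by omega
          rcases h2 with rfl | rfl
          · have e1 : (2 * (0 + 1) + j) * (2 * (0 + 1) + j - 1) / 2 = j * (j + 1) / 2 + (j + 1) := by
              have : (2 * (0 + 1) + j) * (2 * (0 + 1) + j - 1) = j * (j + 1) + (j + 1) * 2 := by
                have : 2 * (0 + 1) + j - 1 = j + 1 := by omega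
                rw [this]; ring
              rw [this, Nat.add_mul_div_right _ _ two_pos]
            have e2 : (2 * (0 + 1) + j - 2) * (2 * (0 + 1) + j - 3) / 2 ≤ j * (j + 1) / 2 := by
              refine Nat.div_le_div_right (Nat.mul_le_mul ?_ ?_) <;> omega
            rw [e1] at hr
            have e3 : (0 + 1) * (2 * (0 + 1) + j - (0 + 1)) = j + 1 := by omega
            omega
          · have e1 : (2 * (1 + 1) + j) * (2 * (1 + 1) + j - 1) / 2 =
                (j + 2) * (j + 1) / 2 + (2 * j + 5) := by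
              have : (2 * (1 + 1) + j) * (2 * (1 + 1) + j - 1) =
                  (j + 2) * (j + 1) + (2 * j + 5) * 2 := by
                have : 2 * (1 + 1) + j - 1 = j + 3 := by omega
                rw [this]; ring
              rw [this, Nat.add_mul_div_right _ _ two_pos]
            have e2 : (2 * (1 + 1) + j - 2) * (2 * (1 + 1) + j - 3) / 2 = (j + 2) * (j + 1) / 2 := by
              have e4 : 2 * (1 + 1) + j - 2 = j + 2 := by omega
              have e5 : 2 * (1 + 1) + j - 3 = j + 1 := by omega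
              rw [e4, e5]
            rw [e1] at hr
            rw [e2]
            have e3 : (1 + 1) * (2 * (1 + 1) + j - (1 + 1)) = 2 * j + 4 := by omega
            omega
        obtain ⟨O, t, hO, ht, hidx⟩ := hex 2 le_rfl (by omega)
          ((Pool.Agent.V7H55.ET.bnd_two n (by omega)).trans_lt hb)
        exact ⟨O, t, hO, Or.inl (by omega), by omega, hidx⟩
      · obtain ⟨O, t, hO, ht, hidx⟩ := hhalf (by
          by_contra hc
          have : 0 < n ^ 2 := by positivity
          omega) h5
        exact ⟨O, t, hO, by omega, by omega, hidx⟩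
    have h1 := (hbound O hO t htn hidx).2
    have hte' : t ≤ e := by
      by_contra hc
      obtain ⟨i, rfl⟩ : ∃ i, t = e + 1 + i := ⟨t - (e + 1), by omega⟩
      obtain ⟨j, rfl⟩ : ∃ j, n = e + 1 + i + (e + 1 + j) := ⟨n - (e + 1 + i + (e + 1)), by omega⟩
      have e1 : e + 1 + i + (e + 1 + j) - (e + 1 + i) = e + 1 + j := by omega
      have e2 : e + 1 + i + (e + 1 + j) - (e + 1) = e + 1 + i + j := by omega
      rw [e1] at h1
      rw [e2] at hr
      have e3 : (e + 1) * (e + 1 + i + j) ≤ (e + 1 + i) * (e + 1 + j) := by nlinarith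
      omega
    have ht0 : t = 0 := by
      by_contra hc
      obtain ⟨a, -, ha, h2⟩ := Pool.Agent.V7H55.ET.exists_ann hp2 hp0 hT ((hadm O).1 hO.1)
        (fun O' hO' => hO.2 O' ((hadm O').2 hO')) htn (Nat.pos_of_ne_zero hc) hn hidx
      have h3 := (hann a ha (Pool.Agent.V7H55.ET.Ns p T a) (fun b => Iff.rfl)).trans h2
      have h4 := (Nat.pow_le_pow_iff_right hp.one_lt).1 h3
      omega
    subst ht0
    have hle : O.principalUnitGroup ≤ T := by
      have h2 := heq O (by rw [hidx, hn, Nat.sub_zero])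
      exact le_sup_left.trans (le_of_eq h2)
    refine ⟨⟨O, hO.1, hle⟩, ?_⟩
    rintro rfl K hK
    exact Pool.Agent.V7H55.ET.conclusion hp2 hζ hO.1.inv_mem hle hO.1.ne_top K hK

end Pool.Agent.Results.MP_600e55_nt.ManySymbolsValuationsH55
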